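import Pool.Agent.MP_cce4c9_lc.H87.DefsR

/-! Semantics of the generic routines. -/

set_option autoImplicit false

open List Polynomial

namespace Pool.Agent.MP_cce4c9_lc.H87

variable {D : Ds} {R S T : Type} [CommRing R] [CommRing S] [CommRing T]

theorem foldl_length {α : Type} (n : ℕ) (f : El → α → El) (hf : ∀ r a, (f r a).length = n)
    (l : List α) (r : El) (hr : r.length = n) : (l.foldl f r).length = n := by
  induction l generalizing r with
  | nil => exact hr
  | cons a l ih => exact ih _ (hf r a)

@[simp] theorem length_nf (D : Ds) (φ : ℕ → ℕ) : (nf D φ).length = dim D := by simp [nf, dim]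
@[simp] theorem length_add (D : Ds) (a b : El) : (add D a b).length = dim D := length_nf _ _
@[simp] theorem length_neg (D : Ds) (a : El) : (neg D a).length = dim D := length_nf _ _
@[simp] theorem length_sub (D : Ds) (a b : El) : (sub D a b).length = dim D := length_add _ _ _
@[simp] theorem length_mul (D : Ds) (a b : El) : (mul D a b).length = dim D := length_nf _ _
@[simp] theorem length_cst (D : Ds) (c : ℕ) : (cst D c).length = dim D := length_nf _ _
@[simp] theorem length_sumL (D : Ds) (l : List El) : (sumL D l).length = dim D :=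
  foldl_length _ _ (length_add D) _ _ (length_cst _ _)
@[simp] theorem length_prodL (D : Ds) (l : List El) : (prodL D l).length = dim D :=
  foldl_length _ _ (length_mul D) _ _ (length_cst _ _)
@[simp] theorem length_pw (D : Ds) (a : El) (e : ℕ) : (pw D a e).length = dim D :=
  foldl_length _ _ (fun r b => by cases b <;> simp) _ _ (length_cst _ _)
@[simp] theorem length_horner (D : Ds) (cs : List El) (x : El) :
    (horner D cs x).length = dim D :=
  foldl_length _ _ (fun _ _ => length_add _ _ _) _ _ (length_cst _ _)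
@[simp] theorem length_det (D : Ds) (A : List (List El)) : (det D A).length = dim D := by
  unfold det
  split_ifs <;> simp
@[simp] theorem length_qinv (D : Ds) (a : El) : (qinv D a).length = dim D :=
  foldl_length _ _ (fun _ _ => length_sub _ _ _) _ _ (length_cst _ _)
@[simp] theorem length_eqz (D : Ds) (a : El) : (eqz D a).length = dim D := length_sub _ _ _
theorem length_chunk (D : Ds) (a : El) (J : ℕ) : (chunk D a J).length ≤ dim D := by
  simp [chunk, dim]
@[simp] theorem length_mat (n m : ℕ) (φ : ℕ → ℕ → El) : (mat n m φ).length = n := by simp [mat]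
theorem ent_mat {n m i j : ℕ} (φ : ℕ → ℕ → El) (hi : i < n) (hj : j < m) :
    ent (mat n m φ) i j = φ i j := by
  simp [ent, mat, List.getD_eq_getElem?_getD, hi, hj]
@[simp] theorem length_conv (D : Ds) (a b : List El) :
    (conv D a b).length = a.length + b.length - 1 := by simp [conv]
theorem length_mem_conv (D : Ds) (a b : List El) : ∀ x ∈ conv D a b, x.length = dim D := by
  intro x hx
  obtain ⟨i, -, rfl⟩ := List.mem_map.1 hx
  exact length_sumL _ _

theorem getD_nf (D : Ds) (hp : 0 < D.1) (φ : ℕ → ℕ) {i : ℕ} (hi : i < dim D) :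
    (nf D φ).getD i 0 = φ i % D.1 := by
  have hi' : i < D.2.length := hi
  simp [nf, List.getD_eq_getElem?_getD, hi', (Nat.mod_lt _ hp).le]

theorem Pres.cast_mod (π : Pres D R) (c : ℕ) : ((c % D.1 : ℕ) : R) = c := by
  conv_rhs => rw [← Nat.mod_add_div c D.1]
  push_cast
  rw [π.char]
  simp

theorem Pres.val_nf (π : Pres D R) (φ : ℕ → ℕ) :
    π.val (nf D φ) = ∑ i ∈ Finset.range (dim D), (φ i : R) * π.b i := by
  refine Finset.sum_congr rfl fun i hi => ?_
  rw [getD_nf D π.prime.pos φ (Finset.mem_range.1 hi), π.cast_mod]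

theorem sum_map_range {M : Type} [AddCommMonoid M] (n : ℕ) (f : ℕ → M) :
    ((range n).map f).sum = ∑ i ∈ Finset.range n, f i := by
  induction n with
  | zero => simp
  | succ n ih => simp [List.range_succ, Finset.sum_range_succ, ih]

theorem prod_map_range {M : Type} [CommMonoid M] (n : ℕ) (f : ℕ → M) :
    ((range n).map f).prod = ∏ i ∈ Finset.range n, f i := by
  induction n with
  | zero => simp
  | succ n ih => simp [List.range_succ, Finset.prod_range_succ, ih]

theorem sum_map_filter_range {M : Type} [AddCommMonoid M] (n : ℕ) (P : ℕ → Prop)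
    [DecidablePred P] (f : ℕ → M) :
    (((range n).filter fun k => P k).map f).sum = ∑ i ∈ (Finset.range n).filter P, f i := by
  induction n with
  | zero => simp
  | succ n ih =>
    rw [Finset.sum_filter] at ih ⊢
    rw [Finset.sum_range_succ, ← ih, List.range_succ, List.filter_append, List.map_append,
      List.sum_append]
    by_cases h : P n <;> simp [h]

theorem Pres.cast_pred (π : Pres D R) : ((D.1 - 1 : ℕ) : R) = -1 := by
  rw [Nat.cast_sub π.prime.one_le, π.char]
  simp

theorem Pres.hm (π : Pres D R) : Hm D π.val := by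
  refine ⟨by simp [Pres.val], fun a b => ?_, fun a => ?_, fun a b => ?_, fun c => ?_⟩
  · rw [H87.add, π.val_nf]
    simp [Pres.val, add_mul, Finset.sum_add_distrib]
  · rw [H87.neg, π.val_nf]
    simp only [Pres.val, Nat.cast_mul, π.cast_pred, ← Finset.sum_neg_distrib]
    exact Finset.sum_congr rfl fun i _ => by ring
  · rw [H87.mul, π.val_nf]
    simp only [sum_map_range, Pres.val, Finset.sum_mul_sum]
    push_cast
    change ∑ k ∈ Finset.range (dim D), (∑ i ∈ Finset.range (dim D), ∑ j ∈ Finset.range (dim D),
      (a.getD i 0 : R) * (b.getD j 0 : R) * ((ent D.2 i j).getD k 0 : R)) * π.b k = _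
    simp only [Finset.sum_mul]
    rw [Finset.sum_comm]
    refine Finset.sum_congr rfl fun i hi => ?_
    rw [Finset.sum_comm]
    refine Finset.sum_congr rfl fun j hj => ?_
    have := π.tab i (Finset.mem_range.1 hi) j (Finset.mem_range.1 hj)
    rw [mul_mul_mul_comm, this, Finset.mul_sum]
    exact Finset.sum_congr rfl fun k _ => by ring
  · rw [H87.cst, π.val_nf, Finset.sum_eq_single 0]
    · simp [π.one]
    · intro i _ hi
      simp [hi]
    · intro h
      exact absurd (Finset.mem_range.2 π.pos) h

theorem Pres.isz_iff (π : Pres D R) (a : El) : isz D a = true ↔ π.val a = 0 := by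
  simp only [isz, List.all_eq_true, List.mem_range, beq_iff_eq]
  constructor
  · intro h
    refine Finset.sum_eq_zero fun i hi => ?_
    rw [← π.cast_mod, h i (Finset.mem_range.1 hi)]
    simp
  · intro h i hi
    exact Nat.mod_eq_zero_of_dvd (π.indep (fun i => a.getD i 0) h i hi)

theorem Pres.val_surj (π : Pres D R) (r : R) : ∃ a : El, a.length = dim D ∧ π.val a = r := by
  obtain ⟨c, rfl⟩ := π.span r
  exact ⟨nf D c, length_nf _ _, π.val_nf c⟩

theorem Pres.val_take (π : Pres D R) (a : El) : π.val (a.take (dim D)) = π.val a := by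
  refine Finset.sum_congr rfl fun i hi => ?_
  have hi' := Finset.mem_range.1 hi
  simp [List.getD_eq_getElem?_getD, hi']

theorem Pres.bij (π : Pres D R) : Function.Bijective fun c : Fin (dim D) → Fin D.1 =>
    ∑ i : Fin (dim D), ((c i : ℕ) : R) * π.b i := by
  constructor
  · intro c c' h
    have h0 := π.indep (fun i => if hi : i < dim D then
      (c ⟨i, hi⟩ : ℕ) + (D.1 - 1) * (c' ⟨i, hi⟩ : ℕ) else 0) (by
        rw [Finset.sum_range]
        simp only [Fin.is_lt, dite_true, Fin.eta, Nat.cast_add, Nat.cast_mul, π.cast_pred, add_mul,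
          Finset.sum_add_distrib]
        simp only at h
        rw [h, ← Finset.sum_add_distrib]
        exact Finset.sum_eq_zero fun i _ => by ring)
    funext i
    have h1 := h0 i i.2
    simp only [Fin.is_lt, dite_true, Fin.eta] at h1
    have h2 : (c i : ℕ) ≡ c' i [MOD D.1] := by
      have h3 : (c i : ℕ) + (D.1 - 1) * c' i + c' i = c i + D.1 * c' i := by
        obtain ⟨q, hq⟩ := Nat.exists_eq_succ_of_ne_zero π.prime.ne_zero
        generalize (c i : ℕ) = x
        generalize (c' i : ℕ) = y
        rw [hq]
        simp only [Nat.succ_eq_add_one, Nat.add_sub_cancel]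
        ring
      have h4 : (c i : ℕ) + (D.1 - 1) * c' i + c' i ≡ 0 + c' i [MOD D.1] :=
        ((Nat.modEq_zero_iff_dvd).2 h1).add_right _
      rw [h3, zero_add] at h4
      exact (Nat.ModEq.symm (by simp [Nat.ModEq])).trans h4
    exact Fin.ext (Nat.ModEq.eq_of_lt_of_lt h2 (c i).2 (c' i).2)
  · intro r
    obtain ⟨c, rfl⟩ := π.span r
    refine ⟨fun i => ⟨c i % D.1, Nat.mod_lt _ π.prime.pos⟩, ?_⟩
    simp only [π.cast_mod]
    rw [Finset.sum_range]

theorem Pres.card (π : Pres D R) : Nat.card R = D.1 ^ dim D := by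
  rw [← Nat.card_eq_of_bijective _ π.bij]
  simp
theorem Pres.finite (π : Pres D R) : Finite R := Finite.of_surjective _ π.bij.2

/-- The prime field. -/
theorem exists_pres_base (p : ℕ) [Fact p.Prime] :
    ∃ π : Pres (base p) (ZMod p), ∀ a : El, π.val a = (a.getD 0 0 : ZMod p) := by
  refine ⟨⟨fun _ => 1, (Fact.out : p.Prime), by simp [base], by simp [base, dim], rfl, ?_, ?_, ?_⟩, ?_⟩
  · intro i hi j hj
    have hi' : i = 0 := by simpa [base, dim] using hi
    have hj' : j = 0 := by simpa [base, dim] using hj
    subst hi' hj'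
    simp [base, dim, ent]
  · intro c h i hi
    have hi' : i = 0 := by simpa [base, dim] using hi
    subst hi'
    have h' : (c 0 : ZMod p) = 0 := by simpa [base, dim] using h
    exact (ZMod.natCast_eq_zero_iff _ _).1 h'
  · intro r
    exact ⟨fun _ => r.val, by simp [base, dim]⟩
  · intro a
    simp [Pres.val, base, dim]

theorem Hm.comp {φ : El → S} (h : Hm D φ) (P : S →+* T) : Hm D fun a => P (φ a) :=
  ⟨by simp [h.nil], fun a b => by simp [h.add], fun a => by simp [h.neg],
    fun a b => by simp [h.mul], fun c => by simp [h.cst]⟩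
theorem Hm.sub {φ : El → S} (h : Hm D φ) (a b : El) : φ (sub D a b) = φ a - φ b := by
  rw [H87.sub, h.add, h.neg, sub_eq_add_neg]
theorem Hm.sumL {φ : El → S} (h : Hm D φ) (l : List El) : φ (sumL D l) = (l.map φ).sum := by
  have : ∀ r, φ (l.foldl (H87.add D) r) = φ r + (l.map φ).sum := by
    induction l with
    | nil => simp
    | cons a l ih => intro r; simp [ih, h.add, add_assoc]
  rw [H87.sumL, this, h.cst]
  simp
theorem Hm.prodL {φ : El → S} (h : Hm D φ) (l : List El) : φ (prodL D l) = (l.map φ).prod := by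
  have : ∀ r, φ (l.foldl (H87.mul D) r) = φ r * (l.map φ).prod := by
    induction l with
    | nil => simp
    | cons a l ih => intro r; simp [ih, h.mul, mul_assoc]
  rw [H87.prodL, this, h.cst]
  simp
theorem Hm.sumL_range {φ : El → S} (h : Hm D φ) (n : ℕ) (a : ℕ → El) :
    φ (H87.sumL D ((range n).map a)) = ∑ i ∈ Finset.range n, φ (a i) := by
  rw [h.sumL, List.map_map, sum_map_range]
  rfl
theorem Hm.prodL_range {φ : El → S} (h : Hm D φ) (n : ℕ) (a : ℕ → El) :
    φ (H87.prodL D ((range n).map a)) = ∏ i ∈ Finset.range n, φ (a i) := by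
  rw [h.prodL, List.map_map, prod_map_range]
  rfl
theorem Hm.sumL_filter {φ : El → S} (h : Hm D φ) (n : ℕ) (P : ℕ → Prop) [DecidablePred P]
    (a : ℕ → El) : φ (H87.sumL D (((range n).filter fun k => P k).map a)) =
      ∑ i ∈ (Finset.range n).filter P, φ (a i) := by
  rw [h.sumL, List.map_map, sum_map_filter_range]
  rfl
theorem Hm.pw {φ : El → S} (h : Hm D φ) (a : El) (e : ℕ) : φ (pw D a e) = φ a ^ e := by
  rw [H87.pw, List.foldl_reverse]
  induction e using Nat.binaryRec' with
  | zero => simp [h.cst]
  | bit b n hb ih =>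
    rw [Nat.bits_append_bit n b hb, List.foldr_cons]
    cases b
    · simp only [cond_false, h.mul, ih, Nat.bit_false]
      ring
    · simp only [cond_true, h.mul, ih, Nat.bit_true]
      ring

theorem toP_nil (φ : El → S) : toP φ [] = 0 := by simp [toP]

theorem toP_cons (φ : El → S) (c : El) (l : List El) :
    toP φ (c :: l) = toP φ l * X + C (φ c) := by
  simp only [toP, List.length_cons, Finset.sum_range_succ', List.getD_cons_succ,
    List.getD_cons_zero, pow_zero, mul_one, Finset.sum_mul, pow_succ, mul_assoc]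

theorem Hm.horner {φ : El → S} (h : Hm D φ) (cs : List El) (x : El) :
    φ (horner D cs x) = (toP φ cs).eval (φ x) := by
  rw [H87.horner, List.foldl_reverse]
  induction cs with
  | nil => simp [toP_nil, h.cst]
  | cons c l ih => simp [toP_cons, h.add, h.mul, ih]

theorem sumFrom_eq (n lo : ℕ) (f : ℕ → S) :
    BirdDet.sumFrom n lo f = ∑ k ∈ Finset.Ico lo n, f k := by
  induction lo using BirdDet.sumFrom_induct n with
  | step lo hlo ih =>
    rw [BirdDet.sumFrom_step n lo f hlo, ih, ← Finset.sum_eq_sum_Ico_succ_bot hlo f]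
  | stop lo hlo => rw [BirdDet.sumFrom_stop n lo f hlo, Finset.Ico_eq_empty hlo, Finset.sum_empty]

/-- Use `BirdDet.det_eq_birdDet` or `BirdDet.birdDetSpec_eq_det` of Mathlib. -/
theorem Hm.det {φ : El → S} (h : Hm D φ) (A : List (List El)) :
    φ (det D A) = (toMat φ A.length A).det := by
  generalize hn : A.length = n
  set arr : Array S := Array.ofFn (n := n * n) fun t => φ (ent A (t / n) (t % n)) with harr
  have hsz : arr.size = n * n := by simp [harr]
  have hget : ∀ i < n, ∀ j < n, BirdDet.get n arr i j = φ (ent A i j) := by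
    intro i hi j hj
    have hlt : n * i + j < n * n := by nlinarith
    have h1 : (n * i + j) / n = i := by
      rw [Nat.mul_add_div (by omega), Nat.div_eq_of_lt hj, add_zero]
    have h2 : (n * i + j) % n = j := by rw [Nat.mul_add_mod, Nat.mod_eq_of_lt hj]
    rw [BirdDet.get_eq]
    simp [harr, Array.getD, hlt, h1, h2]
  have hmat : toMat φ n A = Matrix.ofArray arr hsz := by
    rw [Matrix.ofArray_eq_of_getD]
    ext i j
    rw [toMat, Matrix.of_apply, Matrix.of_apply, ← hget i i.2 j j.2, BirdDet.get_eq]
  have hfil : ∀ i, (Finset.range n).filter (fun k => i < k) = Finset.Ico (i + 1) n := by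
    intro i
    ext k
    simp only [Finset.mem_filter, Finset.mem_range, Finset.mem_Ico]
    omega
  have hit : ∀ t, ∀ i < n, ∀ j < n, φ (ent ((bstep D A)^[t] A) i j) =
      (BirdDet.stepEntry n arr)^[t] (BirdDet.get n arr) i j := by
    intro t
    induction t with
    | zero => intro i hi j hj; simp [hget i hi j hj]
    | succ t ih =>
      intro i hi j hj
      rw [Function.iterate_succ_apply', Function.iterate_succ_apply', BirdDet.stepEntry_eq, bstep,
        hn, ent_mat _ hi hj, h.add, h.neg, h.mul, h.sumL_filter n (fun k => i < k),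
        h.sumL_filter n (fun k => i < k), hfil, sumFrom_eq, sumFrom_eq, hget i hi j hj, neg_mul]
      congr 1
      · congr 2
        refine Finset.sum_congr rfl fun k hk => ?_
        exact ih k (Finset.mem_Ico.1 hk).2 k (Finset.mem_Ico.1 hk).2
      · refine Finset.sum_congr rfl fun k hk => ?_
        rw [h.mul, ih i hi k (Finset.mem_Ico.1 hk).2, hget k (Finset.mem_Ico.1 hk).2 j hj]
  rw [hmat, BirdDet.det_eq_birdDet, H87.det, hn]
  split_ifs with h0
  · subst h0
    rw [BirdDet.birdDet_zero, h.cst, Nat.cast_one]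
  · rw [BirdDet.birdDet_eq n (n - 1) arr (by omega), h.mul, h.pw, h.neg, h.cst,
      hit _ 0 (by omega) 0 (by omega), Nat.cast_one]

theorem Hm.det_mat {φ : El → S} (h : Hm D φ) (n : ℕ) (a : ℕ → ℕ → El) :
    φ (H87.det D (mat n n a)) = (Matrix.of fun i j : Fin n => φ (a i j)).det := by
  rw [h.det, length_mat]
  congr 1
  ext i j
  rw [toMat, Matrix.of_apply, Matrix.of_apply, ent_mat _ i.2 j.2]

theorem coeff_toP {φ : El → S} (h : φ [] = 0) (l : List El) (i : ℕ) :
    (toP φ l).coeff i = φ (l.getD i []) := by
  simp only [toP, finsetSum_coeff, coeff_C_mul_X_pow, Finset.sum_ite_eq, Finset.mem_range]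
  split_ifs with hi
  · rfl
  · rw [List.getD_eq_default _ _ (by omega), h]

theorem Hm.conv {φ : El → S} (h : Hm D φ) {a b : List El} (ha : a ≠ []) (hb : b ≠ []) :
    toP φ (conv D a b) = toP φ a * toP φ b := by
  have ha' := List.length_pos_iff.2 ha
  have hb' := List.length_pos_iff.2 hb
  ext i
  rw [coeff_mul, Finset.Nat.sum_antidiagonal_eq_sum_range_succ_mk, coeff_toP h.nil]
  simp only [coeff_toP h.nil]
  by_cases hi : i < a.length + b.length - 1
  · have e : (H87.conv D a b).getD i [] = H87.sumL D (((range a.length).filter fun j => j ≤ i).map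
        fun j => H87.mul D (a.getD j []) (b.getD (i - j) [])) := by
      simp [H87.conv, List.getD_eq_getElem?_getD, hi]
    rw [e, h.sumL_filter a.length (fun j => j ≤ i)]
    simp only [h.mul]
    refine Finset.sum_subset (fun j hj => ?_) fun j hj hj' => ?_
    · simp only [Finset.mem_filter, Finset.mem_range] at hj ⊢
      omega
    · simp only [Finset.mem_filter, Finset.mem_range] at hj hj'
      rw [List.getD_eq_default a _ (by omega), h.nil, zero_mul]
  · rw [List.getD_eq_default _ _ (by rw [length_conv]; omega), h.nil]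
    refine (Finset.sum_eq_zero fun j hj => ?_).symm
    simp only [Finset.mem_range] at hj
    by_cases hj' : j < a.length
    · rw [List.getD_eq_default b _ (by omega), h.nil, mul_zero]
    · rw [List.getD_eq_default a _ (by omega), h.nil, zero_mul]

theorem toP_map (φ : El → S) (P : S →+* T) (l : List El) :
    (toP φ l).map P = toP (fun a => P (φ a)) l := by
  simp [toP, Polynomial.map_sum]
theorem toM_map (φ : El → S) (P : S →+* T) (l : List El) :
    (toM φ l).map P = toM (fun a => P (φ a)) l := by
  simp [toM, toP_map]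
theorem toP_congr {φ ψ : El → S} {l : List El} (h : ∀ a ∈ l, φ a = ψ a) : toP φ l = toP ψ l := by
  refine Finset.sum_congr rfl fun i hi => ?_
  have hi' := Finset.mem_range.1 hi
  rw [List.getD_eq_getElem _ _ hi', h _ (List.getElem_mem hi')]
theorem degree_toP_lt (φ : El → S) (l : List El) : (toP φ l).degree < l.length := by
  rw [toP, Finset.sum_range]
  exact degree_sum_fin_lt _
theorem toM_monic (φ : El → S) (l : List El) : (toM φ l).Monic :=
  monic_X_pow_add (degree_toP_lt φ l)
theorem toM_natDegree [Nontrivial S] (φ : El → S) (l : List El) :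
    (toM φ l).natDegree = l.length := by
  rw [toM, natDegree_add_eq_left_of_degree_lt, natDegree_X_pow]
  rw [degree_X_pow]
  exact degree_toP_lt φ l
theorem toP_append_one {φ : El → S} (l : List El) {a : El} (ha : φ a = 1) :
    toP φ (l ++ [a]) = toM φ l := by
  rw [toM, toP, toP, List.length_append, List.length_singleton, Finset.sum_range_succ, add_comm]
  congr 1
  · simp [ha]
  · refine Finset.sum_congr rfl fun i hi => ?_
    rw [List.getD_append _ _ _ _ (Finset.mem_range.1 hi)]
theorem toM_dropLast {φ : El → S} {l : List El} (hl : l ≠ [])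
    (h1 : φ (l.getD (l.length - 1) []) = 1) : toM φ l.dropLast = toP φ l := by
  have hpos := List.length_pos_iff.2 hl
  have e : l.getD (l.length - 1) [] = l.getLast hl := by
    rw [List.getD_eq_getElem _ _ (by omega), List.getLast_eq_getElem]
  rw [← toP_append_one _ h1, e, List.dropLast_append_getLast]
theorem toM_replicate {φ : El → S} (h : φ [] = 0) (n : ℕ) :
    toM φ (replicate n []) = X ^ n := by
  rw [toM, toP, Finset.sum_eq_zero, List.length_replicate, add_zero]
  intro i hi
  have hi' : i < n := by simpa using hi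
  simp [List.getD_eq_getElem?_getD, hi', h]

theorem IsPt.hm {k : Type} [Field k] {π : Pres D R} {ι : R →+* k} {B : Ds} {φ : El → k}
    (h : IsPt π ι B φ) : Hm B φ := by
  obtain ⟨R', _, π', P, -, -, -, h⟩ := h
  rw [funext h]
  exact π'.hm.comp P

theorem mem_tuples {α : Type} {l t : List α} {n : ℕ} :
    t ∈ tuples l n ↔ t.length = n ∧ ∀ a ∈ t, a ∈ l := by
  induction n generalizing t with
  | zero =>
    simp only [tuples, List.mem_singleton, List.length_eq_zero_iff]
    exact ⟨fun h => ⟨h, by simp [h]⟩, fun h => h.1⟩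
  | succ n ih =>
    simp only [tuples, List.mem_flatMap, List.mem_map]
    constructor
    · rintro ⟨s, hs, a, ha, rfl⟩
      obtain ⟨h1, h2⟩ := ih.1 hs
      refine ⟨by simp [h1], fun b hb => ?_⟩
      rcases List.mem_cons.1 hb with rfl | hb
      · exact ha
      · exact h2 b hb
    · rintro ⟨h1, h2⟩
      cases t with
      | nil => simp at h1
      | cons a s =>
        exact ⟨s, ih.2 ⟨by simpa using h1, fun b hb => h2 b (List.mem_cons_of_mem _ hb)⟩, a,
          h2 a List.mem_cons_self, rfl⟩
theorem length_tuples {α : Type} (l : List α) (n : ℕ) :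
    (tuples l n).length = l.length ^ n := by
  induction n with
  | zero => simp [tuples]
  | succ n ih => simp [tuples, List.length_flatMap, ih, pow_succ]

theorem dig_lt {n : ℕ} (hn : 0 < n) (J i : ℕ) : dig n J i < n := Nat.mod_lt _ hn

theorem dig_add_mul {n V i : ℕ} (hn : 0 < n) (ω e : ℕ) (hi : i < V) :
    dig n (ω + n ^ V * e) i = dig n ω i := by
  obtain ⟨d, rfl⟩ := Nat.exists_eq_add_of_lt hi
  have : n ^ (i + d + 1) * e = n ^ i * (n * (n ^ d * e)) := by ring
  rw [dig, dig, this, Nat.add_mul_div_left _ _ (pow_pos hn i), Nat.add_mul_mod_self_left]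

theorem dig_top {n V ω e : ℕ} (hω : ω < n ^ V) (he : e < n) :
    dig n (ω + n ^ V * e) V = e ∧ ∀ i < V, dig n (ω + n ^ V * e) i = dig n ω i := by
  have hn : 0 < n := by omega
  refine ⟨?_, fun i hi => dig_add_mul hn ω e hi⟩
  rw [dig, Nat.add_mul_div_left _ _ (pow_pos hn V), Nat.div_eq_of_lt hω, zero_add,
    Nat.mod_eq_of_lt he]

/-- Every bounded digit vector is the digit vector of exactly one number below `n ^ V`. -/
theorem exists_dig {n V : ℕ} (a : ℕ → ℕ) (ha : ∀ i < V, a i < n) :
    ∃ J < n ^ V, ∀ i < V, dig n J i = a i := by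
  induction V with
  | zero => exact ⟨0, by simp, by simp⟩
  | succ V ih =>
    obtain ⟨J, hJ, h⟩ := ih fun i hi => ha i (by omega)
    have he := ha V (by omega)
    refine ⟨J + n ^ V * a V, ?_, fun i hi => ?_⟩
    · calc J + n ^ V * a V < n ^ V * (a V + 1) := by rw [mul_add, mul_one]; omega
        _ ≤ n ^ V * n := Nat.mul_le_mul_left _ he
        _ = n ^ (V + 1) := (pow_succ _ _).symm
    · rcases Nat.lt_succ_iff_lt_or_eq.1 hi with hi | rfl
      · rw [(dig_top hJ he).2 i hi, h i hi]
      · exact (dig_top hJ he).1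
theorem eq_of_dig {n V J J' : ℕ} (hJ : J < n ^ V) (hJ' : J' < n ^ V)
    (h : ∀ i < V, dig n J i = dig n J' i) : J = J' := by
  induction V generalizing J J' with
  | zero => simp at hJ hJ'; omega
  | succ V ih =>
    have hn : 0 < n := by
      rcases Nat.eq_zero_or_pos n with rfl | hn
      · simp at hJ
      · exact hn
    have hp := pow_pos hn V
    have key : ∀ K < n ^ (V + 1), dig n K V = K / n ^ V ∧
        ∀ i < V, dig n K i = dig n (K % n ^ V) i := by
      intro K hK
      have h1 : K / n ^ V < n := by rw [Nat.div_lt_iff_lt_mul hp, mul_comm, ← pow_succ]; exact hK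
      have h2 := dig_top (Nat.mod_lt K hp) h1
      rwa [Nat.mod_add_div] at h2
    have e1 : J / n ^ V = J' / n ^ V := by rw [← (key J hJ).1, ← (key J' hJ').1, h V (by omega)]
    have e2 : J % n ^ V = J' % n ^ V := ih (Nat.mod_lt _ hp) (Nat.mod_lt _ hp) fun i hi => by
      rw [← (key J hJ).2 i hi, ← (key J' hJ').2 i hi, h i (by omega)]
    rw [← Nat.mod_add_div J (n ^ V), e1, e2, Nat.mod_add_div]
theorem dig_add_pow {n J i : ℕ} (h : dig n J i + 1 < n) (j : ℕ) :
    dig n (J + n ^ i) j = dig n J j + if j = i then 1 else 0 := by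
  have hn : 0 < n := by omega
  have hq : (J + n ^ i) / n ^ i = J / n ^ i + 1 := Nat.add_div_right _ (pow_pos hn i)
  have hdec : J / n ^ i + 1 = (J / n ^ i % n + 1) + n * (J / n ^ i / n) := by
    have := Nat.mod_add_div (J / n ^ i) n
    omega
  rw [dig] at h
  rcases lt_trichotomy j i with hj | rfl | hj
  · have := dig_add_mul hn J 1 hj
    rw [mul_one] at this
    rw [this, if_neg hj.ne, add_zero]
  · rw [if_pos rfl, dig, dig, hq, hdec, Nat.add_mul_mod_self_left, Nat.mod_eq_of_lt h]
  · obtain ⟨d, rfl⟩ := Nat.exists_eq_add_of_lt hj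
    have e : ∀ K, K / n ^ (i + d + 1) = K / n ^ i / n / n ^ d := by
      intro K
      rw [Nat.div_div_eq_div_mul, Nat.div_div_eq_div_mul]
      congr 1
      ring
    rw [if_neg hj.ne', add_zero, dig, dig, e, e, hq, hdec, Nat.add_mul_div_left _ _ hn,
      Nat.div_eq_of_lt h, zero_add]

end Pool.Agent.MP_cce4c9_lc.H87
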