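import Pool.Agent.MP_cce4c9_lc.H87.SpecR

/-!
The modulus need not be monic.
-/

set_option autoImplicit false

open Polynomial Finset Pool.Agent.Shared.H56

namespace Pool.Agent.MP_cce4c9_lc.H87

/-- The lower coefficients of the monic multiple of `g`. -/
def monP (p : ℕ) (g : List ℕ) : List ℕ := (mon (base p) (g.map fun c => [c])).map fun a => a.getD 0 0

theorem main_gen (hm : StmtMON) (h2 : StmtPT2) (hM : StmtMAIN) (d : ℕ) :
    ∃ A : ℕ × List ℕ × List (List ℕ) → ℕ, PT A ∧
      ∀ (p : ℕ) (g : List ℕ) (cs : List (List ℕ)), p.Prime → Irreducible (polyOf p g) →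
        cs.length ≤ d + 1 → A (p, g, cs) = (Set.range fun a : AdjoinRoot (polyOf p g) =>
          ∑ i ∈ range cs.length, AdjoinRoot.mk _ (polyOf p (cs.getD i [])) * a ^ i).ncard := by
  obtain ⟨A, hA, H⟩ := hM d
  refine ⟨fun x => A (x.1, monP x.1 x.2.1, x.2.2), ?_, fun p g cs hp hg hcs => ?_⟩
  · have h1 : PT fun x : ℕ × List ℕ × List (List ℕ) =>
        mon (base x.1) (x.2.1.map fun c => [c]) :=
      h2.1.comp (g := fun x : ℕ × List ℕ × List (List ℕ) => (base x.1, x.2.1.map fun c => [c]))
        (by fun_prop)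
    have h3 : PT fun x : ℕ × List ℕ × List (List ℕ) => monP x.1 x.2.1 := by
      unfold monP
      exact PT.map (f := fun _ (a : El) => a.getD 0 0) (by fun_prop) h1
    exact hA.comp (by fun_prop)
  · have : Fact p.Prime := ⟨hp⟩
    obtain ⟨π, hπ⟩ := exists_pres_base p
    have e0 : ∀ l : List El, polyOf p (l.map fun a => a.getD 0 0) = toP π.val l := fun l => by
      rw [toP, polyOf, List.length_map]
      refine Finset.sum_congr rfl fun i hi => ?_
      have hi' : i < l.length := Finset.mem_range.1 hi
      rw [hπ, List.getD_eq_getElem l [] hi',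
        List.getD_eq_getElem (l.map fun a => a.getD 0 0) 0 (by simpa using hi'), List.getElem_map]
    have e1 : toP π.val (g.map fun c => [c]) = polyOf p g := by
      rw [← e0, List.map_map]
      congr 1
      exact List.map_id' g
    have e2 : X ^ (monP p g).length + polyOf p (monP p g) =
        toM π.val (mon (base p) (g.map fun c => [c])) := by
      rw [monP, e0, List.length_map, toM]
    have e3 := (hm _ _ π (g.map fun c => [c])).2.2.2 (by rw [e1]; exact hg.ne_zero)
    rw [← e2, e1] at e3
    have hu : IsUnit (C (polyOf p g).leadingCoeff⁻¹) :=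
      isUnit_C.2 (IsUnit.mk0 _ (inv_ne_zero (leadingCoeff_ne_zero.2 hg.ne_zero)))
    have ha : Associated (X ^ (monP p g).length + polyOf p (monP p g)) (polyOf p g) := by
      rw [e3]; exact associated_unit_mul_left _ _ hu
    show A (p, monP p g, cs) = _
    rw [H p (monP p g) cs hp (ha.symm.irreducible hg) hcs]
    let e := AdjoinRoot.algEquivOfAssociated (ZMod p) _ _ ha
    have he : ∀ r : (ZMod p)[X], e (AdjoinRoot.mk _ r) = AdjoinRoot.mk _ r := fun r => by
      rw [← AdjoinRoot.aeval_eq, ← AdjoinRoot.aeval_eq, ← aeval_algHom_apply,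
        AdjoinRoot.algEquivOfAssociated_root]
    rw [← Set.ncard_image_of_injective _ e.injective, ← Set.range_comp]
    congr 1
    ext y
    constructor
    · rintro ⟨a, rfl⟩
      exact ⟨e a, by simp [he]⟩
    · rintro ⟨a, rfl⟩
      exact ⟨e.symm a, by simp [he]⟩

end Pool.Agent.MP_cce4c9_lc.H87
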