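import Pool.Agent.MP_cce4c9_lc.H87.Core
import Pool.Agent.MP_cce4c9_lc.H87.Gen
import Pool.Agent.MP_cce4c9_lc.H7.All
import Pool.Agent.MP_cce4c9_lc.H7.Seq
import Pool.Agent.MP_cce4c9_lc.H94.Ste
import Pool.Agent.MP_cce4c9_lc.H94.So
import Pool.Agent.MP_cce4c9_lc.H94.Pa
import Pool.Agent.MP_cce4c9_lc.H62.Model
import Pool.Agent.MP_cce4c9_lc.H62.TQ
import Pool.Agent.MP_cce4c9_lc.H83.QA
import Pool.Agent.MP_cce4c9_lc.H26.PL
import Pool.Agent.MP_cce4c9_lc.H12.Je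
import Pool.Agent.MP_cce4c9_lc.H95.TRX
import Pool.Agent.MP_cce4c9_lc.H50.IS
import Pool.Agent.MP_cce4c9_lc.H53.Cnt
import Pool.Agent.MP_cce4c9_lc.H20.Sta
import Pool.Agent.MP_cce4c9_lc.H75.V0
import Pool.Agent.MP_cce4c9_lc.H54.RL
import Pool.Agent.MP_cce4c9_lc.H4.VQ
import Pool.Agent.MP_cce4c9_lc.H10.LO
import Pool.Agent.MP_cce4c9_lc.H81.De
import Pool.Agent.MP_cce4c9_lc.H58.Cmp
import Pool.Agent.MP_cce4c9_lc.H6.CO
import Pool.Agent.MP_cce4c9_lc.H24.HA2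
import Pool.Agent.MP_cce4c9_lc.H16.SK0
import Pool.Agent.MP_cce4c9_lc.H59.PT2
import Pool.Agent.MP_cce4c9_lc.H5.Nat
import Pool.Agent.MP_cce4c9_lc.H4.Len
import Pool.Agent.MP_cce4c9_lc.H36.Tst
import Pool.Agent.MP_cce4c9_lc.H55.Dat1
import Pool.Agent.MP_cce4c9_lc.H11.Main
import Pool.Agent.MP_cce4c9_lc.H91.Sys0
import Pool.Agent.MP_cce4c9_lc.H29.Val
import Pool.Agent.MP_cce4c9_lc.H30.Sys1
import Pool.Agent.MP_cce4c9_lc.H84.Mon
import Pool.Agent.MP_cce4c9_lc.H84.Solve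
import Pool.Agent.MP_cce4c9_lc.H10.PT3
import Pool.Agent.MP_cce4c9_lc.H32.PT1
import Pool.Agent.MP_cce4c9_lc.H70.Degt
import Pool.Agent.MP_cce4c9_lc.H14.Tay
import Pool.Agent.MP_cce4c9_lc.H86.EngB
import Pool.Agent.MP_cce4c9_lc.H81.Minor
import Pool.Agent.MP_cce4c9_lc.H22.PT4
import Pool.Agent.MP_cce4c9_lc.H76.Halg
import Pool.Agent.MP_cce4c9_lc.H44.Skel
import Pool.Agent.MP_cce4c9_lc.H51.SK1
import Pool.Agent.MP_cce4c9_lc.H90.Val1
import Pool.Agent.MP_cce4c9_lc.H82.EngA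

/-!
All rows together.
-/

set_option autoImplicit false

namespace Pool.Agent.MP_cce4c9_lc.H87

theorem solve_all : StmtSOLVE := H84.solve_ H82.enga H86.engb H84.mon_

theorem tay_all : StmtTAY := H14.tay H5.nat_

theorem core_all : StmtCORE :=
  core_of H62.model H58.cmp (H83.qa H7.dvr H7.deg) H24.ha H6.co (H26.pl H7.chev) H10.lo H81.de
    (H12.je H7.deg H7.ri H7.gen) H20.sta H94.ste H94.pa H94.so H50.is_ H62.tq H54.rl
    (H4.vq H7.trace_formula) H75.v0 (H7.seq H95.trx) H53.cnt (H36.tst1_ H76.halg) H44.skel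
    (H51.sk1 H5.nat_ H81.minor (H30.sys1_ H5.nat_ tay_all H70.degt) (H55.dat1_ tay_all) solve_all)
    (H16.sk0 (H36.tst0_ H76.halg) (H91.sys0_ H76.halg) solve_all) H4.len
    (H22.ptc H32.pt1 H59.pt2 H10.pt3 H22.pt4)

theorem main_all : StmtMAIN := H11.main (H29.val H84.mon_ H59.pt2 (H90.val1 core_all))

end Pool.Agent.MP_cce4c9_lc.H87
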