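import Pool.Agent.MP_cce4c9_lc.H87.DefsA

/-! Elementary facts on places, values, divisors and the groups `H / H ^ l`. -/

set_option autoImplicit false

open WithZero

namespace Pool.Agent.MP_cce4c9_lc.H87

section Ring

variable {k F : Type} [Field k] [CommRing F] [Algebra k F]

namespace Place

variable (v : Place k F)

theorem const_le (a : k) : v.val (algebraMap k F a) ≤ 1 := by
  by_cases h : a = 0
  · simp [h]
  · exact (v.triv a h).le

theorem exists_unif : ∃ π : F, v.val π = exp (-1 : ℤ) := v.surj _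

theorem val_eq {h : F} (h0 : v.val h ≠ 0) : v.val h = exp (-v.ord h) := by
  rw [ord, neg_neg, exp_log h0]

theorem ord_eq {h : F} {n : ℤ} (h0 : v.val h = exp (-n)) : v.ord h = n := by
  rw [ord, h0, log_exp, neg_neg]

theorem ord_of_val_zero {h : F} (h0 : v.val h = 0) : v.ord h = 0 := by simp [ord, h0]

@[simp] theorem ord_zero : v.ord (0 : F) = 0 := by simp [ord]

@[simp] theorem ord_one : v.ord (1 : F) = 0 := by simp [ord]

theorem ord_of_val_one {h : F} (h0 : v.val h = 1) : v.ord h = 0 := by simp [ord, h0]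

theorem val_one_iff {h : F} (h0 : v.val h ≠ 0) : v.val h = 1 ↔ v.ord h = 0 :=
  ⟨v.ord_of_val_one, fun e => by rw [v.val_eq h0, e]; simp⟩

@[simp] theorem ord_const (a : k) : v.ord (algebraMap k F a) = 0 := by
  by_cases h : a = 0
  · simp [h]
  · exact v.ord_of_val_one (v.triv a h)

theorem ord_mul {a b : F} (ha : v.val a ≠ 0) (hb : v.val b ≠ 0) :
    v.ord (a * b) = v.ord a + v.ord b := by
  simp only [ord, map_mul, log_mul ha hb]; ring

theorem ord_pow (a : F) (n : ℕ) : v.ord (a ^ n) = n * v.ord a := by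
  simp only [ord, map_pow, log_pow]; simp

theorem ord_neg (a : F) : v.ord (-a) = v.ord a := by simp [ord]

theorem val_le_exp {h : F} (h0 : v.val h ≠ 0) (n : ℤ) : v.val h ≤ exp n ↔ -n ≤ v.ord h := by
  rw [v.val_eq h0, exp_le_exp]; omega

theorem val_lt_exp {h : F} (h0 : v.val h ≠ 0) (n : ℤ) : v.val h < exp n ↔ -n < v.ord h := by
  rw [v.val_eq h0, exp_lt_exp]; omega

theorem val_le_one {h : F} (h0 : v.val h ≠ 0) : v.val h ≤ 1 ↔ 0 ≤ v.ord h := by
  simpa using v.val_le_exp h0 0

theorem val_lt_one {h : F} (h0 : v.val h ≠ 0) : v.val h < 1 ↔ 0 < v.ord h := by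
  simpa using v.val_lt_exp h0 0

theorem val_unit_ne (u : Fˣ) : v.val (u : F) ≠ 0 := fun h => by
  have := congrArg v.val u.mul_inv
  rw [map_mul, h, zero_mul, map_one] at this
  exact zero_ne_one this

theorem const_eq {h : F} {a b : k} (ha : v.val (h - algebraMap k F a) < 1)
    (hb : v.val (h - algebraMap k F b) < 1) : a = b := by
  by_contra hne
  have h1 := v.triv (a - b) (sub_ne_zero.2 hne)
  have h2 : algebraMap k F (a - b) = (h - algebraMap k F b) - (h - algebraMap k F a) := by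
    rw [map_sub]; ring
  rw [h2] at h1
  exact absurd h1 ((v.val.map_sub _ _).trans_lt (max_lt hb ha)).ne

theorem ev_eq {h : F} {c : k} (hc : v.val (h - algebraMap k F c) < 1) : v.ev h = c := by
  have H : ∃ c : k, v.val (h - algebraMap k F c) < 1 := ⟨c, hc⟩
  rw [ev, dif_pos H]
  exact v.const_eq H.choose_spec hc

@[simp] theorem ev_const (c : k) : v.ev (algebraMap k F c) = c := v.ev_eq (by simp)

@[simp] theorem ev_zero : v.ev (0 : F) = 0 := by simpa using v.ev_const 0

@[simp] theorem ev_one : v.ev (1 : F) = 1 := by simpa using v.ev_const 1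

theorem ev_of_lt {h : F} (h1 : v.val h < 1) : v.ev h = 0 := v.ev_eq (by simpa using h1)

theorem le_of_sub_lt {h : F} {c : k} (hc : v.val (h - algebraMap k F c) < 1) : v.val h ≤ 1 := by
  have := v.val.map_add (h - algebraMap k F c) (algebraMap k F c)
  rw [sub_add_cancel] at this
  exact this.trans (max_le hc.le (v.const_le c))

/-- The residue field is `k`. -/
def Res : Prop := ∀ h : F, v.val h ≤ 1 → ∃ c : k, v.val (h - algebraMap k F c) < 1

variable {v}

theorem Res.ev_spec (H : v.Res) {h : F} (h1 : v.val h ≤ 1) :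
    v.val (h - algebraMap k F (v.ev h)) < 1 := by
  obtain ⟨c, hc⟩ := H h h1
  rwa [v.ev_eq hc]

theorem Res.ev_add (H : v.Res) {a b : F} (ha : v.val a ≤ 1) (hb : v.val b ≤ 1) :
    v.ev (a + b) = v.ev a + v.ev b := by
  apply v.ev_eq
  rw [map_add, show a + b - (algebraMap k F (v.ev a) + algebraMap k F (v.ev b)) =
    (a - algebraMap k F (v.ev a)) + (b - algebraMap k F (v.ev b)) by ring]
  exact (v.val.map_add _ _).trans_lt (max_lt (H.ev_spec ha) (H.ev_spec hb))

theorem Res.ev_neg (H : v.Res) {a : F} (ha : v.val a ≤ 1) : v.ev (-a) = -v.ev a := by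
  apply v.ev_eq
  rw [map_neg, show -a - -algebraMap k F (v.ev a) = -(a - algebraMap k F (v.ev a)) by ring,
    Valuation.map_neg]
  exact H.ev_spec ha

theorem Res.ev_sub (H : v.Res) {a b : F} (ha : v.val a ≤ 1) (hb : v.val b ≤ 1) :
    v.ev (a - b) = v.ev a - v.ev b := by
  rw [sub_eq_add_neg, H.ev_add ha (by simpa using hb), H.ev_neg hb, sub_eq_add_neg]

theorem Res.ev_mul (H : v.Res) {a b : F} (ha : v.val a ≤ 1) (hb : v.val b ≤ 1) :
    v.ev (a * b) = v.ev a * v.ev b := by
  apply v.ev_eq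
  rw [map_mul, show a * b - algebraMap k F (v.ev a) * algebraMap k F (v.ev b) =
    (a - algebraMap k F (v.ev a)) * b + algebraMap k F (v.ev a) * (b - algebraMap k F (v.ev b)) by
      ring]
  refine (v.val.map_add _ _).trans_lt (max_lt ?_ ?_) <;> rw [map_mul]
  · exact (mul_le_of_le_one_right' hb).trans_lt (H.ev_spec ha)
  · exact (mul_le_of_le_one_left' (v.const_le _)).trans_lt (H.ev_spec hb)

theorem Res.ev_pow (H : v.Res) {a : F} (ha : v.val a ≤ 1) (n : ℕ) : v.ev (a ^ n) = v.ev a ^ n := by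
  induction n with
  | zero => simp
  | succ n ih =>
    rw [pow_succ, H.ev_mul (by rw [map_pow]; exact pow_le_one' ha n) ha, ih, pow_succ]

theorem Res.ev_eq_zero (H : v.Res) {a : F} (ha : v.val a ≤ 1) : v.ev a = 0 ↔ v.val a < 1 :=
  ⟨fun h => by simpa [h] using H.ev_spec ha, v.ev_of_lt⟩

theorem Res.ev_ne_zero (H : v.Res) {a : F} (ha : v.val a = 1) : v.ev a ≠ 0 := fun h =>
  absurd ((H.ev_eq_zero ha.le).1 h) (by rw [ha]; exact lt_irrefl _)

end Place

theorem smul_val_apply (θ : SA k F) (v : Place k F) (h : F) :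
    (θ • v).val (θ.1 h) = v.val h := congrArg v.val (θ.1.symm_apply_apply h)

theorem smul_ord_apply (θ : SA k F) (v : Place k F) (h : F) : (θ • v).ord (θ.1 h) = v.ord h := by
  rw [Place.ord, smul_val_apply, Place.ord]

theorem smul_ev {θ : SA k F} {v : Place k F} {h : F} {c c' : k}
    (hc : v.val (h - algebraMap k F c) < 1)
    (hθ : θ.1 (algebraMap k F c) = algebraMap k F c') : (θ • v).ev (θ.1 h) = c' :=
  Place.ev_eq _ (by rw [← hθ, ← map_sub, smul_val_apply]; exact hc)

theorem actD_apply (θ : SA k F) (D : Dv k F) (v : Place k F) : actD θ D (θ • v) = D v :=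
  Finsupp.mapDomain_apply (MulAction.injective θ) D v

theorem actD_apply' (θ : SA k F) (D : Dv k F) (v : Place k F) : actD θ D v = D (θ⁻¹ • v) := by
  rw [← actD_apply θ D, smul_inv_smul]

@[simp] theorem actD_one (D : Dv k F) : actD 1 D = D := by ext v; simp [actD_apply']

theorem actD_mul (θ θ' : SA k F) (D : Dv k F) : actD (θ * θ') D = actD θ (actD θ' D) := by
  ext v; simp [actD_apply', mul_smul]

theorem actD_add (θ : SA k F) (D D' : Dv k F) : actD θ (D + D') = actD θ D + actD θ D' := by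
  ext v; simp [actD_apply']

theorem actD_sub (θ : SA k F) (D D' : Dv k F) : actD θ (D - D') = actD θ D - actD θ D' := by
  ext v; simp [actD_apply']

theorem actD_zsmul (θ : SA k F) (n : ℤ) (D : Dv k F) : actD θ (n • D) = n • actD θ D := by
  ext v; simp [actD_apply']

theorem actD_single (θ : SA k F) (v : Place k F) (n : ℤ) :
    actD θ (Finsupp.single v n) = Finsupp.single (θ • v) n := Finsupp.mapDomain_single

theorem degree_actD (θ : SA k F) (D : Dv k F) : (actD θ D).degree = D.degree :=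
  Finsupp.degree_mapDomain _ _

theorem dv_apply {h : F} (H : (Function.support fun v : Place k F => v.ord h).Finite)
    (v : Place k F) : dv k h v = v.ord h := by
  rw [dv, dif_pos H]; rfl

theorem mem_LL {D : Dv k F} {h : F} : h ∈ LL D ↔ ∀ v : Place k F, v.val h ≤ exp (D v) := Iff.rfl

end Ring

section Field

variable {k F : Type} [Field k] [Field F] [Algebra k F]

theorem Place.val_ne (v : Place k F) {h : F} (h0 : h ≠ 0) : v.val h ≠ 0 := by simpa using h0

theorem Place.ord_inv (v : Place k F) (a : F) : v.ord a⁻¹ = -v.ord a := by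
  simp [Place.ord, log_inv]

theorem Place.ord_zpow (v : Place k F) (a : F) (n : ℤ) : v.ord (a ^ n) = n * v.ord a := by
  simp only [Place.ord, map_zpow₀, log_zpow]; simp

theorem Place.Res.ev_inv {v : Place k F} (H : v.Res) {a : F} (ha : v.val a = 1) :
    v.ev a⁻¹ = (v.ev a)⁻¹ := by
  have h0 : a ≠ 0 := fun h => by simp [h] at ha
  have h1 : v.val a⁻¹ = 1 := by rw [map_inv₀, ha, inv_one]
  have := H.ev_mul ha.le h1.le
  rw [mul_inv_cancel₀ h0, Place.ev_one] at this
  exact eq_inv_of_mul_eq_one_right this.symm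

theorem Place.Res.ev_zpow {v : Place k F} (H : v.Res) {a : F} (ha : v.val a = 1) (n : ℤ) :
    v.ev (a ^ n) = v.ev a ^ n := by
  cases n with
  | ofNat n => simpa using H.ev_pow ha.le n
  | negSucc n =>
    rw [zpow_negSucc, zpow_negSucc, H.ev_inv (by rw [map_pow, ha, one_pow]), H.ev_pow ha.le]

/-- Places with nested valuation rings coincide. -/
theorem Place.eq_of_le (v w : Place k F) (h : ∀ x, v.val x ≤ 1 → w.val x ≤ 1) : v = w := by
  obtain ⟨π, hπ⟩ := v.exists_unif
  have hπ0 : π ≠ 0 := fun e => by simp [e] at hπ; exact exp_ne_zero hπ.symm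
  have hu : ∀ x, v.val x = 1 → w.val x = 1 := fun x hx => by
    have h0 : x ≠ 0 := fun e => by simp [e] at hx
    have h1 := h x hx.le
    have h2 := h x⁻¹ (by rw [map_inv₀, hx, inv_one])
    rw [map_inv₀, inv_le_one₀ (zero_lt_iff.2 (w.val_ne h0))] at h2
    exact le_antisymm h1 h2
  have key : ∀ x, x ≠ 0 → w.ord x = v.ord x * w.ord π := fun x hx => by
    have h1 : v.val (x * π ^ (-v.ord x)) = 1 := by
      rw [v.val_one_iff (v.val_ne (mul_ne_zero hx (zpow_ne_zero _ hπ0))),
        v.ord_mul (v.val_ne hx) (v.val_ne (zpow_ne_zero _ hπ0)), v.ord_zpow, v.ord_eq hπ]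
      ring
    have h2 := w.ord_of_val_one (hu _ h1)
    rw [w.ord_mul (w.val_ne hx) (w.val_ne (zpow_ne_zero _ hπ0)), w.ord_zpow] at h2
    linarith
  have h1 : w.ord π = 1 := by
    obtain ⟨ϖ, hϖ⟩ := w.exists_unif
    have hϖ0 : ϖ ≠ 0 := fun e => by simp [e] at hϖ; exact exp_ne_zero hϖ.symm
    have e1 := key ϖ hϖ0
    rw [w.ord_eq hϖ] at e1
    have h0 : 0 ≤ w.ord π := (w.val_le_one (w.val_ne hπ0)).1
      (h π (by rw [hπ, ← exp_zero, exp_le_exp]; omega))
    exact Int.eq_one_of_mul_eq_one_left h0 e1.symm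
  ext x
  by_cases hx : x = 0
  · simp [hx]
  · rw [v.val_eq (v.val_ne hx), w.val_eq (w.val_ne hx), key x hx, h1, mul_one]

end Field

section Hl

variable {H : Type} [CommGroup H] (l : ℕ)

theorem Hl.mk_mul (a b : H) : Hl.mk l (a * b) = Hl.mk l a + Hl.mk l b := rfl

theorem Hl.mk_one : Hl.mk l (1 : H) = 0 := rfl

theorem Hl.mk_inv (a : H) : Hl.mk l a⁻¹ = -Hl.mk l a := rfl

theorem Hl.mk_pow (a : H) (n : ℕ) : Hl.mk l (a ^ n) = n • Hl.mk l a := rfl

theorem Hl.mk_surj (x : Hl H l) : ∃ a, Hl.mk l a = x := by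
  obtain ⟨a, ha⟩ := QuotientGroup.mk_surjective (Additive.toMul x)
  exact ⟨a, congrArg Additive.ofMul ha⟩

theorem Hl.mk_eq_zero (a : H) : Hl.mk l a = 0 ↔ ∃ b, b ^ l = a :=
  (QuotientGroup.eq_one_iff a).trans MonoidHom.mem_range

theorem Hl.mk_eq_mk (a b : H) : Hl.mk l a = Hl.mk l b ↔ ∃ c, a = b * c ^ l := by
  rw [← sub_eq_zero, sub_eq_add_neg, ← Hl.mk_inv, ← Hl.mk_mul, Hl.mk_eq_zero]
  exact exists_congr fun c => by rw [eq_mul_inv_iff_mul_eq, eq_comm, mul_comm]

theorem Hl.map_mk (φ : H →* H) (a : H) : Hl.map l φ (Hl.mk l a) = Hl.mk l (φ a) := rfl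

theorem Hl.smul_mk (c : ZMod l) [NeZero l] (a : H) : c • Hl.mk l a = Hl.mk l (a ^ c.val) := by
  rw [Hl.mk_pow, ← Nat.cast_smul_eq_nsmul (ZMod l), ZMod.natCast_zmod_val]

end Hl

section VV

variable {k F : Type} [Field k] [CommRing F] [Algebra k F] {l : ℕ}

theorem mem_VV [NeZero l] {a : Hl Fˣ l} :
    a ∈ VV k F l ↔ ∃ f : Fˣ, Hl.mk l f = a ∧ ∀ v : Place k F, (l : ℤ) ∣ v.ord f := by
  refine ⟨fun h => ?_, fun h => Submodule.subset_span h⟩
  induction h using Submodule.span_induction with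
  | mem x hx => exact hx
  | zero => exact ⟨1, rfl, fun v => by simp⟩
  | add x y _ _ hx hy =>
    obtain ⟨f, rfl, hf⟩ := hx
    obtain ⟨g, rfl, hg⟩ := hy
    refine ⟨f * g, rfl, fun v => ?_⟩
    rw [Units.val_mul, v.ord_mul (v.val_unit_ne f) (v.val_unit_ne g)]
    exact dvd_add (hf v) (hg v)
  | smul c x _ hx =>
    obtain ⟨f, rfl, hf⟩ := hx
    refine ⟨f ^ c.val, (Hl.smul_mk l c f).symm, fun v => ?_⟩
    rw [Units.val_pow_eq_pow_val, v.ord_pow]
    exact (hf v).mul_left _

theorem actH_mem (θ : SA k F) {a : Hl Fˣ l} (ha : a ∈ VV k F l) : actH l θ a ∈ VV k F l := by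
  refine (Submodule.map_span_le _ _ _).2 ?_ (Submodule.mem_map_of_mem ha)
  rintro _ ⟨f, rfl, hf⟩
  refine Submodule.subset_span ⟨Units.map θ.1.toRingHom.toMonoidHom f, rfl, fun v => ?_⟩
  have := smul_ord_apply θ (θ⁻¹ • v) f
  rw [smul_inv_smul] at this
  exact this.symm ▸ hf _

/-- The action of an automorphism on `VV`. -/
def actV (l : ℕ) (θ : SA k F) : VV k F l →ₗ[ZMod l] VV k F l :=
  (actH l θ).restrict fun _ ha => actH_mem θ ha

end VV

end Pool.Agent.MP_cce4c9_lc.H87
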