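import Pool.Agent.MP_cce4c9_lc.H87.SpecR

/-!
The number of points of the fibre power modulo `l`, from the rows.
-/

set_option autoImplicit false

open Polynomial Pool.Agent.Shared.H56

namespace Pool.Agent.MP_cce4c9_lc.H87

open Cv

theorem mem_range_of_pow {F k : Type} [Field F] [Fintype F] [Field k] (ι : F →+* k) {x : k}
    (hx : x ^ Fintype.card F = x) : x ∈ Set.range ι := by
  classical
  have h0 : (X ^ Fintype.card F - X : F[X]) ≠ 0 :=
    FiniteField.X_pow_card_sub_X_ne_zero F Fintype.one_lt_card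
  have h1 : (X ^ Fintype.card F - X : F[X]).Splits := by
    rw [Polynomial.splits_iff_card_roots, FiniteField.roots_X_pow_card_sub_X,
      FiniteField.X_pow_card_sub_X_natDegree_eq F Fintype.one_lt_card]
    rfl
  have h2 : x ∈ ((X ^ Fintype.card F - X : F[X]).map ι).roots := by
    rw [mem_roots (Polynomial.map_ne_zero h0)]
    simp [hx]
  rw [h1.roots_map] at h2
  obtain ⟨a, -, ha⟩ := Multiset.mem_map.1 h2
  exact ⟨a, ha⟩

theorem ncard_ptsQ {F k : Type} [Field F] [Fintype F] [Field k] (ι : F →+* k) (g : F[X]) (m : ℕ) :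
    (ptsQ (g.map ι) m (Fintype.card F)).ncard =
      {a : Fin m → F | ∀ i j, g.eval (a i) = g.eval (a j)}.ncard := by
  have he : ∀ x, (g.map ι).eval (ι x) = ι (g.eval x) := fun x => by
    rw [eval_map, eval₂_at_apply]
  rw [← Set.ncard_image_of_injective _ (f := fun (a : Fin m → F) i => ι (a i))
    fun a b h => funext fun i => ι.injective (congrFun h i)]
  congr 1
  ext a
  constructor
  · rintro ⟨h1, h2⟩
    choose b hb using fun i => mem_range_of_pow ι (h2 i)
    refine ⟨b, fun i j => ι.injective ?_, funext hb⟩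
    rw [← he, ← he, hb, hb]
    exact h1 i j
  · rintro ⟨b, hb, rfl⟩
    refine ⟨fun i j => ?_, fun i => ?_⟩
    · show (g.map ι).eval (ι (b i)) = (g.map ι).eval (ι (b j))
      rw [he, he, hb i j]
    · show ι (b i) ^ _ = ι (b i)
      rw [← map_pow, FiniteField.pow_card]

theorem core_of (model : StmtMODEL) (cmp : StmtCMP) (qa : StmtQA) (ha : StmtHA) (co : StmtCO)
    (pl : StmtPL) (lo : StmtLO) (de : StmtDE) (je : StmtJE) (sta : StmtSTA) (ste : StmtSTE)
    (pa : StmtPA) (so : StmtSO) (is_ : StmtIS) (tq : StmtTQ) (rl : StmtRL) (vq : StmtVQ)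
    (v0 : StmtV0) (seq : StmtSEQ) (cnt : StmtCNT) (tst1_ : StmtTST1) (skel : StmtSKEL)
    (sk1 : StmtSK1) (sk0 : StmtSK0) (len : StmtLEN) (ptc : StmtPTC) : StmtCORE := by
  intro d m hd hm
  obtain ⟨R, hR⟩ := len d m
  refine ⟨_, ptc d m R, fun F _ D π fl l hlen hfl hsep hl hlp => ?_⟩
  have : Fact l.Prime := ⟨hl⟩
  have : Fact D.1.Prime := ⟨π.prime⟩
  have : CharP F D.1 := (CharP.charP_iff_prime_eq_zero π.prime).2 π.char
  have : Finite F := π.finite
  have : Fintype F := Fintype.ofFinite F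
  have hq : Fintype.card F = D.1 ^ dim D := by rw [← Nat.card_eq_fintype_card, π.card]
  let k := AlgebraicClosure F
  let ι : F →+* k := algebraMap F k
  let f : k[X] := (toM π.val fl).map ι
  have hI : Inp π ι fl d f := ⟨hlen, hfl, rfl⟩
  obtain ⟨C, σ, hσ⟩ := model k D.1 (dim D) d m f hm hd ((toM_monic _ _).map ι)
    (by rw [natDegree_map, toM_natDegree, hlen])
    (by rw [derivative_map]; exact Polynomial.map_ne_zero hsep)
    (fun i => by rw [coeff_map, ← map_pow, ← hq, FiniteField.pow_card])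
  obtain ⟨P⟩ := cmp k d m f C
  have hQ := qa k d m f C P
  have hH := ha k d m f C hQ
  have hP := pl k d m f C hQ
  have hL := lo k d m f C hQ hH hP
  have hD := de k D.1 d m f C hQ hH (co k d m f C hQ hH)
  obtain ⟨fV, hV⟩ := vq k l D.1 d m f C P hlp
  obtain ⟨fX, hV⟩ := hV (dim D) σ π.pos hσ
  obtain ⟨f0, h0⟩ := v0 k l D.1 d m f C P hlp
  have h0 := h0 (dim D) σ hσ
  obtain ⟨fM, hS⟩ := seq k l D.1 d m f C hlp hQ hH hP hD fV f0
  have hS := hS (dim D) σ hσ
  have hC := cnt k d m (D.1 ^ dim D) f C σ hσ hQ hH hP hL fX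
  have fM' : Finite (C.MM l) := Module.finite_of_finite (ZMod l)
  have hSO := so k l d m f C hQ hH hD hL
  have hRL := rl k l d m f C f0 hQ hH hD
  have e1 := skel F k D π ι l (nV d m) R _ _ _ _ _ _ (actM l σ) (actM l σ⁻¹)
    (sk1 F k D π ι fl d m l f C σ hI hσ
      (sta k l D.1 d m f C hlp hQ hH hD (je k d m f C P hQ hH)) (ste k l D.1 d m f C hQ hH hD)
      (pa k l D.1 d m f C hQ hH hD hL) hSO (is_ k l D.1 d m f C hlp fM' hQ hH hD hL hSO) hRL
      (tst1_ F k D π ι fl d m l f C hI hH (tq k l D.1 d m f C hlp hQ hH hD)))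
    (actM_inv l σ) (hR l D fl hl.two_le).1
  have e0 := skel F k D π ι l (nV0 d m) R _ _ _ _ _ _ (act0 l σ) (act0 l σ⁻¹)
    (sk0 F k D π ι fl d m l f C σ hI hσ hH hRL) (act0_inv l σ)
    (by simpa using (hR l D fl hl.two_le).2)
  have hC' := congrArg (Nat.cast : ℕ → ZMod l) hC
  have hl1 : ((l - 1 : ℕ) : ZMod l) = -1 := by
    rw [Nat.cast_sub hl.one_le, ZMod.natCast_self, Nat.cast_one, zero_sub]
  rw [← ncard_ptsQ ι, hq]
  simp only [length_un, core]
  rw [Nat.cast_add, Nat.cast_mul, Nat.cast_mul, Nat.cast_mul, e0, e1, hl1, Nat.cast_pow]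
  rw [Nat.cast_add, Nat.cast_add, hV] at hC'
  show ((D.1 ^ dim D : ℕ) : ZMod l) ^ 2 * _ + ((D.1 ^ dim D : ℕ) : ZMod l) * -1 * _ = _
  linear_combination -hC' - hS + (1 + ((D.1 ^ dim D : ℕ) : ZMod l)) * h0

end Pool.Agent.MP_cce4c9_lc.H87
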