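import Mathlib

/-!
Places, divisors, base change and reduction for function fields over an algebraically closed
field. Places are defined on an arbitrary commutative algebra, so that finite products of
function fields are covered too.
-/

set_option autoImplicit false

open WithZero TensorProduct
open scoped IntermediateField

namespace Pool.Agent.MP_cce4c9_lc.H87

/-- Places: normalized discrete valuations that are trivial on `k`. -/
@[ext] structure Place (k F : Type) [Field k] [CommRing F] [Algebra k F] where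
  /-- the valuation, written multiplicatively: a uniformizer has value `exp (-1)` -/
  val : Valuation F ℤᵐ⁰
  surj : Function.Surjective val
  triv : ∀ a : k, a ≠ 0 → val (algebraMap k F a) = 1

section Ring

variable {k F : Type} [Field k] [CommRing F] [Algebra k F]

/-- The order of vanishing (junk value `0` where the valuation vanishes). -/
noncomputable def Place.ord (v : Place k F) (h : F) : ℤ := -log (v.val h)

open Classical in
/-- The value of `h` at `v` (junk value `0` at a pole). -/
noncomputable def Place.ev (v : Place k F) (h : F) : k :=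
  if H : ∃ c : k, v.val (h - algebraMap k F c) < 1 then H.choose else 0

/-- Divisors. The degree of `D` is `D.degree`. -/
abbrev Dv (k F : Type) [Field k] [CommRing F] [Algebra k F] : Type := Place k F →₀ ℤ

open Classical in
/-- The divisor of `h`. -/
noncomputable def dv (k : Type) [Field k] [Algebra k F] (h : F) : Dv k F :=
  if H : (Function.support fun v : Place k F => v.ord h).Finite then
    Finsupp.ofSupportFinite (fun v => v.ord h) H else 0

/-- The value of `h` on the divisor `D`. -/
noncomputable def evD (h : F) (D : Dv k F) : k := D.prod fun v n => v.ev h ^ n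

/-- `h` has neither zero nor pole on the support of `D`. -/
def Off (h : F) (D : Dv k F) : Prop := ∀ v, D v ≠ 0 → v.val h = 1

/-- The Riemann-Roch space. -/
def LL (D : Dv k F) : Submodule k F where
  carrier := {h | ∀ v : Place k F, v.val h ≤ exp (D v)}
  zero_mem' := by simp
  add_mem' := fun {a b} ha hb v => (v.val.map_add a b).trans (max_le (ha v) (hb v))
  smul_mem' := fun c h hh v => by
    rw [Algebra.smul_def, map_mul]
    by_cases hc : c = 0
    · simp [hc]
    · rw [v.triv c hc, one_mul]; exact hh v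

/-- Ring automorphisms that map the constants onto the constants. -/
def SA (k F : Type) [Field k] [CommRing F] [Algebra k F] : Subgroup (RingAut F) where
  carrier := {θ | ∀ x, θ x ∈ Set.range (algebraMap k F) ↔ x ∈ Set.range (algebraMap k F)}
  one_mem' := fun _ => Iff.rfl
  mul_mem' := fun {a b} ha hb x => (ha (b x)).trans (hb x)
  inv_mem' := fun {a} ha x => by
    have := ha (a⁻¹ x)
    rw [show a (a⁻¹ x) = x from a.apply_symm_apply x] at this
    exact this.symm

/-- Transport of a place along an automorphism: `(θ • v).val (θ h) = v.val h`. -/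
noncomputable instance : MulAction (SA k F) (Place k F) where
  smul θ v :=
    { val := v.val.comap (θ.1⁻¹ : RingAut F).toRingHom
      surj := fun y => by
        obtain ⟨x, hx⟩ := v.surj y
        exact ⟨θ.1 x, by
          rw [← hx]; exact congrArg v.val (θ.1.symm_apply_apply x)⟩
      triv := fun a ha => by
        obtain ⟨b, hb⟩ := ((θ⁻¹).2 (algebraMap k F a)).2 ⟨a, rfl⟩
        have hb' : (θ.1⁻¹ : RingAut F) (algebraMap k F a) = algebraMap k F b := hb.symm
        show v.val ((θ.1⁻¹ : RingAut F) (algebraMap k F a)) = 1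
        rw [hb']
        refine v.triv b fun h0 => ?_
        obtain ⟨x, hx⟩ := v.surj 1
        have h1 : algebraMap k F a = 0 := by
          apply (θ.1⁻¹ : RingAut F).injective
          rw [hb', h0, map_zero, map_zero]
        have := v.triv a ha
        rw [h1, map_zero] at this
        exact zero_ne_one this }
  one_smul v := rfl
  mul_smul a b v := rfl

theorem smul_val (θ : SA k F) (v : Place k F) (h : F) :
    (θ • v).val h = v.val ((θ.1⁻¹ : RingAut F) h) := rfl

/-- Transport of divisors. -/
noncomputable def actD (θ : SA k F) (D : Dv k F) : Dv k F := D.mapDomain (θ • ·)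

/-- A `k`-algebra automorphism as an element of `SA`. -/
def SA.ofAlg {K : Type} [CommRing K] [Algebra k K] [Algebra K F] [IsScalarTower k K F]
    (τ : F ≃ₐ[K] F) : SA k F :=
  ⟨τ.toRingEquiv, fun x => by
    have h : ∀ c : k, τ (algebraMap k F c) = algebraMap k F c := fun c => by
      rw [IsScalarTower.algebraMap_apply k K F, τ.commutes]
    constructor
    · rintro ⟨c, hc⟩
      exact ⟨c, τ.injective ((h c).trans hc)⟩
    · rintro ⟨c, rfl⟩
      exact ⟨c, (h c).symm⟩⟩

end Ring

/-- `H / H ^ l`, written additively. -/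
abbrev Hl (H : Type) [CommGroup H] (l : ℕ) : Type :=
  Additive (H ⧸ (powMonoidHom l : H →* H).range)

/-- The class of an element. -/
def Hl.mk {H : Type} [CommGroup H] (l : ℕ) (a : H) : Hl H l := Additive.ofMul (QuotientGroup.mk a)

instance (H : Type) [CommGroup H] (l : ℕ) : Module (ZMod l) (Hl H l) :=
  AddCommGroup.zmodModule fun x => by
    obtain ⟨a, rfl⟩ := QuotientGroup.mk_surjective (Additive.toMul x) |>.imp
      fun a ha => (congrArg Additive.ofMul ha : Additive.ofMul (QuotientGroup.mk a) = x)
    have h : (QuotientGroup.mk (a ^ l) : H ⧸ (powMonoidHom l : H →* H).range) = 1 :=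
      (QuotientGroup.eq_one_iff _).2 (MonoidHom.mem_range.2 ⟨a, rfl⟩)
    rw [← ofMul_pow, ← QuotientGroup.mk_pow, h]
    rfl

/-- The map induced by a group endomorphism. -/
def Hl.map {H : Type} [CommGroup H] (l : ℕ) (φ : H →* H) : Hl H l →ₗ[ZMod l] Hl H l :=
  AddMonoidHom.toZModLinearMap l <| MonoidHom.toAdditive <|
    QuotientGroup.map _ _ φ (by rintro _ ⟨a, rfl⟩; exact ⟨φ a, by simp⟩)

section Ring

variable {k F : Type} [Field k] [CommRing F] [Algebra k F]

/-- Classes of units all of whose orders are divisible by `l` (the `l`-torsion of the Picard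
group, in Kummer form). -/
def VV (k F : Type) [Field k] [CommRing F] [Algebra k F] (l : ℕ) : Submodule (ZMod l) (Hl Fˣ l) :=
  Submodule.span (ZMod l) {a | ∃ f : Fˣ, Hl.mk l f = a ∧ ∀ v : Place k F, (l : ℤ) ∣ v.ord f}

/-- The action of an automorphism on `Fˣ / l`. -/
def actH (l : ℕ) (θ : SA k F) : Hl Fˣ l →ₗ[ZMod l] Hl Fˣ l :=
  Hl.map l (Units.map θ.1.toRingHom.toMonoidHom)

/-- `σ` raises constants to the `q`-th power. -/
def IsFrob (q : ℕ) (σ : SA k F) : Prop :=
  ∀ c : k, σ.1 (algebraMap k F c) = algebraMap k F (c ^ q)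

/-- `y` lies over `x` with ramification index `e`. -/
def Over {K : Type} [CommRing K] [Algebra k K] [Algebra K F] (y : Place k F) (x : Place k K)
    (e : ℕ) : Prop :=
  0 < e ∧ ∀ h : K, y.val (algebraMap K F h) = x.val h ^ e

end Ring

/-- `F` is a function field of one variable over `k`. -/
def IsFF (k F : Type) [Field k] [Field F] [Algebra k F] : Prop :=
  ∃ t : F, Transcendental k t ∧ FiniteDimensional k⟮t⟯ F

/-- The properties of the genus that are used. -/
structure IsGenus (k F : Type) [Field k] [Field F] [Algebra k F] (g : ℕ) : Prop where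
  fin : ∀ D : Dv k F, FiniteDimensional k (LL D)
  ge : ∀ D : Dv k F, D.degree + 1 - g ≤ (Module.finrank k (LL D) : ℤ)
  eq : ∀ D : Dv k F, 2 * (g : ℤ) ≤ D.degree → (Module.finrank k (LL D) : ℤ) = D.degree + 1 - g
  red : ∀ T : Set (Place k F), T.Infinite → ∃ S : Finset (Place k F), (S : Set _) ⊆ T ∧
    S.card = g ∧ ∀ h ∈ LL (∑ v ∈ S, Finsupp.single v (1 : ℤ)), h ∈ Set.range (algebraMap k F)

/-- A place of `Ω` with values in `k`. -/
structure KP (k Ω : Type) [Field k] [Field Ω] [Algebra k Ω] where
  /-- the valuation ring -/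
  O : ValuationSubring Ω
  /-- the residue map -/
  ρ : O →+* k
  mem : ∀ c : k, algebraMap k Ω c ∈ O
  const : ∀ c : k, ρ ⟨_, mem c⟩ = c
  ker : ∀ a : O, ρ a = 0 ↔ O.valuation a < 1

/-- `a` lies in the valuation ring and has residue `c`. -/
def KP.Rd {k Ω : Type} [Field k] [Field Ω] [Algebra k Ω] (P : KP k Ω) (a : Ω) (c : k) : Prop :=
  ∃ h : a ∈ P.O, P.ρ ⟨a, h⟩ = c

/-- Base change of `K / k` to `Ω`: the fraction field of `Ω ⊗ K`. -/
structure BCD (k K Ω : Type) [Field k] [Field K] [Field Ω] [Algebra k K] [Algebra k Ω] where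
  /-- the compositum -/
  F : Type
  [fld : Field F]
  [ak : Algebra k F]
  [aK : Algebra K F]
  [aΩ : Algebra Ω F]
  [tK : IsScalarTower k K F]
  [tΩ : IsScalarTower k Ω F]
  li : ∀ (ι : Type) (v : ι → K), LinearIndependent k v →
    LinearIndependent Ω fun i => algebraMap K F (v i)
  gen : ∀ x : F, ∃ a ∈ Submodule.span Ω (Set.range (algebraMap K F)),
    ∃ b ∈ Submodule.span Ω (Set.range (algebraMap K F)), b ≠ 0 ∧ x * b = a

attribute [instance] BCD.fld BCD.ak BCD.aK BCD.aΩ BCD.tK BCD.tΩ

variable {k K Ω : Type} [Field k] [Field K] [Field Ω] [Algebra k K] [Algebra k Ω]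

/-- The Gauss extension of a place of `Ω`, and the reduction of functions. -/
structure Gauss (B : BCD k K Ω) (P : KP k Ω) where
  /-- the Gauss valuation ring -/
  G : ValuationSubring B.F
  /-- reduction of functions -/
  red : G →+* K
  memK : ∀ h : K, algebraMap K B.F h ∈ G
  redK : ∀ h : K, red ⟨_, memK h⟩ = h
  memΩ : ∀ a : Ω, algebraMap Ω B.F a ∈ G ↔ a ∈ P.O
  redΩ : ∀ a : P.O, red ⟨_, (memΩ a).2 a.2⟩ = algebraMap k K (P.ρ a)
  ker : ∀ Φ : G, red Φ = 0 ↔ G.valuation Φ < 1
  norm : ∀ Φ : B.F, Φ ≠ 0 → ∃ a : Ω, G.valuation (algebraMap Ω B.F a * Φ) = 1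
  nc : ∀ Φ : B.F, Φ ∉ Set.range (algebraMap Ω B.F) → ∃ a c : Ω,
    ∃ h : algebraMap Ω B.F a * (Φ - algebraMap Ω B.F c) ∈ G,
      red ⟨_, h⟩ ∉ Set.range (algebraMap k K)

/-- The Gauss extension together with the reduction of places and of divisors. -/
structure Red (B : BCD k K Ω) (P : KP k Ω) extends Gauss B P where
  /-- reduction of places -/
  rp : Place Ω B.F → Place k K
  rp_iff : ∀ (w : Place Ω B.F) (h : K), (rp w).val h ≤ 1 ↔
    w.val (algebraMap K B.F h) ≤ 1 ∧ w.ev (algebraMap K B.F h) ∈ P.O
  rp_ev : ∀ (w : Place Ω B.F) (h : K), (rp w).val h ≤ 1 →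
    P.Rd (w.ev (algebraMap K B.F h)) ((rp w).ev h)
  rt : ∀ Φ : G, red Φ ≠ 0 → dv k (red Φ) = (dv Ω (Φ : B.F)).mapDomain rp

/-- Base change together with constant places, generic places and the Galois action. -/
structure BCK (k K Ω : Type) [Field k] [Field K] [Field Ω] [Algebra k K] [Algebra k Ω]
    extends BCD k K Ω where
  ff : IsFF Ω F
  /-- the place over a place of `K` -/
  io : Place k K → Place Ω F
  io_val : ∀ z (h : K), (io z).val (algebraMap K F h) = z.val h
  io_inj : Function.Injective io
  io_or : ∀ w : Place Ω F, w ∈ Set.range io ∨ ∀ h : K, h ≠ 0 → w.val (algebraMap K F h) = 1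
  io_dv : ∀ h : K, dv Ω (algebraMap K F h) = (dv k h).mapDomain io
  /-- the place of an embedding -/
  pl : (K →ₐ[k] Ω) → Place Ω F
  pl_val : ∀ η (h : K), (pl η).val (algebraMap K F h - algebraMap Ω F (η h)) < 1
  pl_surj : ∀ w : Place Ω F, w ∈ Set.range io ∨ w ∈ Set.range pl
  uniq : ∀ w w' : Place Ω F, (∀ (h : K) (a : Ω),
    w.val (algebraMap K F h - algebraMap Ω F a) < 1 →
      w'.val (algebraMap K F h - algebraMap Ω F a) < 1) → w = w'
  /-- automorphisms of `Ω` act on `F` and fix `K` -/
  act : (Ω ≃ₐ[k] Ω) →* SA Ω F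
  act_K : ∀ τ (h : K), (act τ).1 (algebraMap K F h) = algebraMap K F h
  act_Ω : ∀ τ (a : Ω), (act τ).1 (algebraMap Ω F a) = algebraMap Ω F (τ a)

end Pool.Agent.MP_cce4c9_lc.H87
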