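import Mathlib

/-!
Finite commutative algebras over a prime field given by structure constants, and the generic
routines that run on them.
-/

set_option autoImplicit false

open List Polynomial

namespace Pool.Agent.MP_cce4c9_lc.H87

/-- Elements: coordinate vectors. -/
abbrev El : Type := List ℕ

/-- Descriptors: the characteristic and the table of products of basis elements. -/
abbrev Ds : Type := ℕ × List (List El)

/-- The dimension over the prime field. -/
def dim (D : Ds) : ℕ := D.2.length

/-- Normal form of a coordinate function. -/
def nf (D : Ds) (φ : ℕ → ℕ) : El := (range D.2.length).map fun i => min (φ i % D.1) D.1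

/-- Entry of a table. -/
def ent (M : List (List El)) (i j : ℕ) : El := (M.getD i []).getD j []

/-- A table given by a function. -/
def mat (n m : ℕ) (φ : ℕ → ℕ → El) : List (List El) :=
  (range n).map fun i => (range m).map fun j => φ i j

/-- Sum. -/
def add (D : Ds) (a b : El) : El := nf D fun i => a.getD i 0 + b.getD i 0

/-- Negation. -/
def neg (D : Ds) (a : El) : El := nf D fun i => (D.1 - 1) * a.getD i 0

/-- Difference. -/
def sub (D : Ds) (a b : El) : El := add D a (neg D b)

/-- The image of a natural number (the basis element `0` is the unit). -/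
def cst (D : Ds) (c : ℕ) : El := nf D fun i => if i = 0 then c else 0

/-- Product. -/
def mul (D : Ds) (a b : El) : El := nf D fun k =>
  ((range D.2.length).map fun i => ((range D.2.length).map fun j =>
    a.getD i 0 * b.getD j 0 * (ent D.2 i j).getD k 0).sum).sum

/-- Zero test. -/
def isz (D : Ds) (a : El) : Bool := (range D.2.length).all fun i => a.getD i 0 % D.1 == 0

/-- Sum of a list. -/
def sumL (D : Ds) (l : List El) : El := l.foldl (add D) (cst D 0)

/-- Product of a list. -/
def prodL (D : Ds) (l : List El) : El := l.foldl (mul D) (cst D 1)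

/-- Power, by repeated squaring. -/
def pw (D : Ds) (a : El) (e : ℕ) : El :=
  e.bits.reverse.foldl (fun r b => bif b then mul D (mul D r r) a else mul D r r) (cst D 1)

/-- Value of the polynomial with coefficient list `cs`. -/
def horner (D : Ds) (cs : List El) (x : El) : El :=
  cs.reverse.foldl (fun r c => add D (mul D r x) c) (cst D 0)

/-- One step of the division-free determinant algorithm of Bird. -/
def bstep (D : Ds) (A F : List (List El)) : List (List El) :=
  mat A.length A.length fun i j =>
    add D (neg D (mul D (sumL D (((range A.length).filter fun k => i < k).map fun k => ent F k k))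
      (ent A i j)))
      (sumL D (((range A.length).filter fun k => i < k).map fun k => mul D (ent F i k) (ent A k j)))

/-- Determinant of the square matrix whose size is the number of rows. -/
def det (D : Ds) (A : List (List El)) : El :=
  if A.length = 0 then cst D 1 else
    mul D (pw D (neg D (cst D 1)) (A.length - 1)) (ent ((bstep D A)^[A.length - 1] A) 0 0)

/-- Quasi-inverse: an inverse at every point where `b` does not vanish. -/
def qinv (D : Ds) (b : El) : El :=
  (range D.2.length).foldl (fun h j =>
    sub D (add D h (pw D b (D.1 ^ (min j D.2.length + 1) - 2)))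
      (mul D b (mul D h (pw D b (D.1 ^ (min j D.2.length + 1) - 2))))) (cst D 0)

/-- Indicator of the points where `b` vanishes. -/
def eqz (D : Ds) (b : El) : El := sub D (cst D 1) (mul D b (qinv D b))

/-- Is there a point where `a` does not vanish. -/
def hasPt (D : Ds) (a : El) : Bool := !isz D (pw D a (D.1 ^ D.2.length))

/-- Product of polynomials given by coefficient lists. -/
def conv (D : Ds) (a b : List El) : List El :=
  (range (a.length + b.length - 1)).map fun i =>
    sumL D (((range a.length).filter fun j => j ≤ i).map fun j =>
      mul D (a.getD j []) (b.getD (i - j) []))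

/-- Multiplication by the root of the monic polynomial with lower coefficients `h`. -/
def shift (D : Ds) (h v : List El) : List El :=
  (range h.length).map fun j =>
    sub D (if j = 0 then cst D 0 else v.getD (j - 1) [])
      (mul D (v.getD (h.length - 1) []) (h.getD j []))

/-- Powers of the root. -/
def xpow (D : Ds) (h : List El) (e : ℕ) : List El :=
  (shift D h)^[min e (2 * h.length)] ((range h.length).map fun j => if j = 0 then cst D 1 else cst D 0)

/-- Adjoin a root of the monic polynomial with lower coefficients `h`. -/
def adjoin (D : Ds) (h : List El) : Ds :=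
  (D.1, mat (D.2.length * h.length) (D.2.length * h.length) fun I J =>
    ((xpow D h (I / D.2.length + J / D.2.length)).map
      (mul D (ent D.2 (I % D.2.length) (J % D.2.length)))).flatten)

/-- The adjoined root. -/
def root (D : Ds) (h : List El) : El := (xpow D h 1).flatten

/-- The `J`-th block of coordinates. -/
def chunk (D : Ds) (a : El) (J : ℕ) : El := (a.drop (D.2.length * J)).take D.2.length

/-- Adjoin `V` roots of one monic polynomial; returns the algebra and the roots. -/
def tower (D : Ds) (h : List El) : ℕ → Ds × List El
  | 0 => (D, [])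
  | V + 1 =>
    (adjoin (tower D h V).1 (h.map fun a => a.take D.2.length),
      (tower D h V).2 ++ [root (tower D h V).1 (h.map fun a => a.take D.2.length)])

/-- The prime field. -/
def base (p : ℕ) : Ds := (p, [[[1]]])

/-- The `i`-th digit of `J` in base `n`. -/
def dig (n J i : ℕ) : ℕ := J / n ^ i % n

/-- All lists of length `n` with entries in `l`. -/
def tuples {α : Type} (l : List α) : ℕ → List (List α)
  | 0 => [[]]
  | n + 1 => (tuples l n).flatMap fun t => l.map fun a => a :: t

/-! ### Semantics -/

/-- `D` presents the ring `R`. -/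
structure Pres (D : Ds) (R : Type) [CommRing R] where
  /-- the basis -/
  b : ℕ → R
  prime : D.1.Prime
  char : (D.1 : R) = 0
  pos : 0 < dim D
  one : b 0 = 1
  tab : ∀ i < dim D, ∀ j < dim D,
    b i * b j = ∑ k ∈ Finset.range (dim D), ((ent D.2 i j).getD k 0 : R) * b k
  indep : ∀ c : ℕ → ℕ, ∑ i ∈ Finset.range (dim D), (c i : R) * b i = 0 →
    ∀ i < dim D, D.1 ∣ c i
  span : ∀ r : R, ∃ c : ℕ → ℕ, r = ∑ i ∈ Finset.range (dim D), (c i : R) * b i

/-- The ring element with the given coordinates. -/
def Pres.val {D : Ds} {R : Type} [CommRing R] (π : Pres D R) (a : El) : R :=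
  ∑ i ∈ Finset.range (dim D), (a.getD i 0 : R) * π.b i

/-- `φ` respects the operations of `D`. -/
structure Hm (D : Ds) {S : Type} [CommRing S] (φ : El → S) : Prop where
  nil : φ [] = 0
  add : ∀ a b, φ (add D a b) = φ a + φ b
  neg : ∀ a, φ (neg D a) = -φ a
  mul : ∀ a b, φ (mul D a b) = φ a * φ b
  cst : ∀ c, φ (cst D c) = c

/-- The polynomial with a given coefficient list. -/
noncomputable def toP {S : Type} [CommRing S] (φ : El → S) (l : List El) : S[X] :=
  ∑ i ∈ Finset.range l.length, C (φ (l.getD i [])) * X ^ i

/-- The monic polynomial with given lower coefficients. -/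
noncomputable def toM {S : Type} [CommRing S] (φ : El → S) (l : List El) : S[X] :=
  X ^ l.length + toP φ l

/-- The matrix of a table. -/
def toMat {S : Type} (φ : El → S) (n : ℕ) (A : List (List El)) : Matrix (Fin n) (Fin n) S :=
  Matrix.of fun i j => φ (ent A i j)

/-- Semantics of `tower`. -/
structure Tow {D : Ds} {R : Type} [CommRing R] (π : Pres D R) (h : List El) (V : ℕ)
    (R' : Type) [CommRing R'] where
  /-- the presentation of the tower -/
  π' : Pres (tower D h V).1 R'
  /-- the inclusion -/
  inc : R →+* R'
  ch : (tower D h V).1.1 = D.1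
  dm : dim (tower D h V).1 = dim D * h.length ^ V
  len : (tower D h V).2.length = V
  rlen : ∀ i, ((tower D h V).2.getD i []).length ≤ dim (tower D h V).1
  val_inc : ∀ a : El, a.length ≤ dim D → π'.val a = inc (π.val a)
  isRoot : ∀ i < V, (toM π.val h).eval₂ inc (π'.val ((tower D h V).2.getD i [])) = 0
  expand : ∀ a : El, π'.val a = ∑ J ∈ Finset.range (h.length ^ V), inc (π.val (chunk D a J)) *
    ∏ i ∈ Finset.range V, π'.val ((tower D h V).2.getD i []) ^ dig h.length J i
  indep : ∀ c : ℕ → R, ∑ J ∈ Finset.range (h.length ^ V), inc (c J) *
    ∏ i ∈ Finset.range V, π'.val ((tower D h V).2.getD i []) ^ dig h.length J i = 0 →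
      ∀ J < h.length ^ V, c J = 0
  univ : ∀ (S : Type) [CommRing S] (φ : R →+* S) (y : ℕ → S),
    (∀ i < V, (toM π.val h).eval₂ φ (y i) = 0) → ∃ φ' : R' →+* S, (∀ r, φ' (inc r) = φ r) ∧
      ∀ i < V, φ' (π'.val ((tower D h V).2.getD i [])) = y i

/-- The exponent vector with the digits of `J`. -/
noncomputable def exps (n V J : ℕ) : Fin V →₀ ℕ :=
  Finsupp.equivFunOnFinite.symm fun i => dig n J i

/-- `φ` is the evaluation at a point with values in `k` of an algebra `B` that lies above `D`;
on `D` the point is `ι`. -/
def IsPt {D : Ds} {R k : Type} [CommRing R] [Field k] (π : Pres D R) (ι : R →+* k) (B : Ds)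
    (φ : El → k) : Prop :=
  ∃ (R' : Type) (_ : CommRing R') (π' : Pres B R') (P : R' →+* k), B.1 = D.1 ∧ dim D ≤ dim B ∧
    (∀ a : El, a.length ≤ dim D → φ a = ι (π.val a)) ∧ ∀ a, φ a = P (π'.val a)

end Pool.Agent.MP_cce4c9_lc.H87
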