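import Pool.Agent.MP_cce4c9_lc.H87.Basic
import Pool.Agent.MP_cce4c9_lc.H87.DefsR

/-!
The curve `f(x_0) = ... = f(x_(m-1)) = t`, its ring of rational functions, the modules whose
traces count points, and Taylor expansions at unramified points.
-/

set_option autoImplicit false

open WithZero Polynomial
open scoped IntermediateField

namespace Pool.Agent.MP_cce4c9_lc.H87

/-! ### Numerical parameters -/

/-- Digit sum. -/
def ds (d m J : ℕ) : ℕ := ((List.range m).map fun i => dig d J i).sum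

theorem ds_eq (d m J : ℕ) : ds d m J = ∑ i ∈ Finset.range m, dig d J i := by
  rw [ds, Finset.sum_range, ← List.sum_ofFn]
  congr 1
  apply List.ext_getElem <;> simp

/-- The weight of the different. -/
def w0 (d m : ℕ) : ℕ := m * (d - 1)

/-- The pole order of reduced representatives, divided by `l`. -/
def N0 (d m : ℕ) : ℕ := 3 * m * d

/-- The number of slots for points. -/
def mm (d m : ℕ) : ℕ := d ^ m * N0 d m

/-- The exponent in the polynomial that cuts out fixed points. -/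
def Gc (d m : ℕ) : ℕ := (m * d * d ^ m + 2) * (mm d m + 1) + 1

/-- The polynomial function that cuts out fixed points. -/
def th {R : Type} [CommRing R] (G : ℕ) (z : R) : R := (z ^ G - 1) * (z ^ (G + 1) - 1)

/-! ### Taylor expansions over any commutative ring -/

section Taylor

variable {R : Type} [CommRing R]

/-- Approximations of the solution `η` of `F(x + η) = F(x) + X`, where `z F'(x) = 1`. -/
noncomputable def eta (F : R[X]) (x z : R) : ℕ → R[X]
  | 0 => 0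
  | n + 1 => C z * (X - (F.comp (C x + eta F x z n) - C (F.eval x) -
      C ((derivative F).eval x) * eta F x z n))

/-- The expansion of `t ^ a * x ^ J`. -/
noncomputable def tcol (F : R[X]) (d m L : ℕ) (x z : ℕ → R) (a J : ℕ) : R[X] :=
  (C (F.eval (x 0)) + X) ^ a * ∏ i ∈ Finset.range m, (C (x i) + eta F (x i) (z i) L) ^ dig d J i

/-- The coordinates of the point in slot `j`. -/
def xs (m : ℕ) (b : ℕ → R) (j i : ℕ) : R := b (2 * m * j + i)

/-- The inverse derivatives at the point in slot `j`. -/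
def zs (m : ℕ) (b : ℕ → R) (j i : ℕ) : R := b (2 * m * j + m + i)

/-- The Taylor matrix: row `ρ` = (slot, order), column `(e, J)`. -/
noncomputable def TT (F : R[X]) (d m l : ℕ) (b : ℕ → R) (ρ : ℕ × ℕ) (e J : ℕ) : R :=
  (tcol F d m (l * mm d m) (xs m b ρ.1) (zs m b ρ.1) (l * N0 d m - e - ds d m J) J).coeff ρ.2

/-- A row of the Taylor matrix applied to a table of coefficients. -/
noncomputable def vanP (F : R[X]) (d m l : ℕ) (b : ℕ → R) (c : ℕ → ℕ → R) (ρ : ℕ × ℕ) : R :=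
  ∑ J ∈ Finset.range (d ^ m), ∑ e ∈ Finset.range (l * N0 d m + 1 - ds d m J),
    c e J * TT F d m l b ρ e J

/-- The slots hold unramified points of the curve. -/
def Bas (F : R[X]) (d m : ℕ) (b : ℕ → R) : Prop := ∀ j < mm d m, ∀ i < m,
  F.eval (xs m b j i) = F.eval (xs m b j 0) ∧ zs m b j i * (derivative F).eval (xs m b j i) = 1

/-- The slots that are in use hold distinct points. -/
def Dis (d m : ℕ) (μ : ℕ → ℕ) (b : ℕ → R) : Prop := ∀ j < mm d m, ∀ j' < j, μ j ≠ 0 → μ j' ≠ 0 →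
  ∃ i < m, xs m b j i ≠ xs m b j' i

/-- The fixed slots. -/
def Fix (F : R[X]) (d m : ℕ) (fx : ℕ → ℕ) (b : ℕ → R) : Prop :=
  ∀ j < mm d m, fx j = 1 → th (Gc d m) (F.eval (xs m b j 0)) = 0

/-- The table `c` describes a function that vanishes to order `l * μ j` in slot `j`. -/
def Sol (F : R[X]) (d m l : ℕ) (μ : ℕ → ℕ) (b : ℕ → R) (c : ℕ → ℕ → R) : Prop :=
  Bas F d m b ∧ Dis d m μ b ∧ c 0 0 = 1 ∧ ∀ j < mm d m, ∀ r < l * μ j, vanP F d m l b c (j, r) = 0

/-- The rigidity condition. -/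
def Uniq (F : R[X]) (d m l : ℕ) (μ fx : ℕ → ℕ) (b : ℕ → R) : Prop :=
  ∀ c : ℕ → ℕ → R, c 0 0 = 0 →
    (∀ j < mm d m, ∀ r < (if fx j = 1 then l else l - 1) * μ j, vanP F d m l b c (j, r) = 0) →
    ∀ J < d ^ m, ∀ e, e + ds d m J ≤ l * N0 d m → c e J = 0

/-- Admissible patterns. -/
def Pt (d m : ℕ) (μ fx : ℕ → ℕ) : Prop :=
  ∑ j ∈ Finset.range (mm d m), μ j = mm d m ∧ ∀ j < mm d m, fx j ≤ 1 ∧ (μ j = 0 → fx j = 1)

end Taylor

/-! ### The curve -/

/-- The ring of rational functions of the curve. -/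
structure Cv (k : Type) [Field k] (d m : ℕ) (f : k[X]) where
  /-- the ring -/
  Q : Type
  [cr : CommRing Q]
  [ak : Algebra k Q]
  [aR : Algebra (RatFunc k) Q]
  [tw : IsScalarTower k (RatFunc k) Q]
  [fd : Module.Finite (RatFunc k) Q]
  [rd : IsReduced Q]
  /-- the coordinates -/
  x : ℕ → Q
  hm : 0 < m
  hd : 2 ≤ d
  monic : f.Monic
  deg : f.natDegree = d
  sep : derivative f ≠ 0
  eqn : ∀ i < m, aeval (x i) f = algebraMap (RatFunc k) Q RatFunc.X
  ind : ∀ a : ℕ → RatFunc k, ∑ J ∈ Finset.range (d ^ m),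
    algebraMap (RatFunc k) Q (a J) * ∏ i ∈ Finset.range m, x i ^ dig d J i = 0 →
      ∀ J < d ^ m, a J = 0
  spn : ∀ y : Q, ∃ a : ℕ → RatFunc k, y = ∑ J ∈ Finset.range (d ^ m),
    algebraMap (RatFunc k) Q (a J) * ∏ i ∈ Finset.range m, x i ^ dig d J i
  lift : ∀ (Ω : Type) [Field Ω] [Algebra k Ω] [Algebra (RatFunc k) Ω]
    [IsScalarTower k (RatFunc k) Ω] (ξ : ℕ → Ω),
    (∀ i < m, aeval (ξ i) f = algebraMap (RatFunc k) Ω RatFunc.X) →
      ∃ φ : Q →ₐ[RatFunc k] Ω, ∀ i < m, φ (x i) = ξ i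

attribute [instance] Cv.cr Cv.ak Cv.aR Cv.tw Cv.fd Cv.rd

namespace Cv

variable {k : Type} [Field k] {d m : ℕ} {f : k[X]} (C : Cv k d m f)

/-- The common value of `f`. -/
noncomputable def t : C.Q := algebraMap (RatFunc k) C.Q RatFunc.X

/-- Its inverse. -/
noncomputable def s : C.Q := algebraMap (RatFunc k) C.Q RatFunc.X⁻¹

theorem t_mul_s : C.t * C.s = 1 := by
  rw [t, s, ← map_mul, mul_inv_cancel₀ RatFunc.X_ne_zero, map_one]

/-- `s` as a unit. -/
noncomputable def su : C.Qˣ := ⟨C.s, C.t, by rw [mul_comm, t_mul_s], C.t_mul_s⟩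

/-- Coordinates at infinity. -/
noncomputable def Y (i : ℕ) : C.Q := C.x i * C.s

/-- The different. -/
noncomputable def dl : C.Q := ∏ i ∈ Finset.range m, aeval (C.x i) (derivative f)

/-- The different in the chart at infinity. -/
noncomputable def dlh : C.Q := C.s ^ w0 d m * C.dl

/-- Monomials in the chart at infinity. -/
noncomputable def mono (e J : ℕ) : C.Q := C.s ^ e * ∏ i ∈ Finset.range m, C.Y i ^ dig d J i

/-- The function with a given table of coefficients, in the chart at infinity. -/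
noncomputable def hat (N : ℕ) (c : ℕ → ℕ → k) : C.Q :=
  ∑ J ∈ Finset.range (d ^ m), ∑ e ∈ Finset.range (N + 1 - ds d m J),
    algebraMap k C.Q (c e J) * C.mono e J

/-- The same for a rectangular table. -/
noncomputable def rec' (n : ℕ) (c : ℕ → ℕ → k) : C.Q :=
  ∑ J ∈ Finset.range (d ^ m), ∑ e ∈ Finset.range n, algebraMap k C.Q (c e J) * C.mono e J

/-- The function with a given table of coefficients. -/
noncomputable def psi (N : ℕ) (c : ℕ → ℕ → k) : C.Q := C.t ^ N * C.hat N c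

/-- Polynomials of degree at most `N` in the chart at infinity. -/
def FN (N : ℕ) : Submodule k C.Q :=
  Submodule.span k {y | ∃ e J, J < d ^ m ∧ e + ds d m J ≤ N ∧ y = C.mono e J}

/-- The coordinate ring of the affine curve. -/
def AA : Subalgebra k C.Q := Algebra.adjoin k {y | ∃ i < m, y = C.x i}

/-- The coordinate ring of the chart at infinity. -/
def AI : Subalgebra k C.Q := Algebra.adjoin k (insert C.s {y | ∃ i < m, y = C.Y i})

/-- The place `v` lies over the point `a`. -/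
def At (v : Place k C.Q) (a : ℕ → k) : Prop :=
  ∀ i < m, v.val (C.x i - algebraMap k C.Q (a i)) < 1

/-- Places over ramified or singular points of the affine curve. -/
def Bad (v : Place k C.Q) : Prop := v.val C.t ≤ 1 ∧ v.val C.dl < 1

/-- The places lie on the same component. -/
def Same (v w : Place k C.Q) : Prop := ∀ y, v.val y = 0 ↔ w.val y = 0

/-- The divisor of poles of `t`. -/
noncomputable def Dinf : Dv k C.Q := dv k C.s ⊔ 0

/-- `u * s ^ n` has value one at infinity, and at bad points `u` has one non-zero value. -/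
def GG (n : ℤ) (u : C.Qˣ) : Prop :=
  (∀ v : Place k C.Q, 1 < v.val C.t → v.val (((u * C.su ^ n : C.Qˣ) : C.Q) - 1) < 1) ∧
  ∀ (a : ℕ → k) (v₀ : Place k C.Q), C.At v₀ a → v₀.val C.dl < 1 → ∃ c : k, c ≠ 0 ∧
    ∀ v, C.At v a → v.val ((u : C.Q) - algebraMap k C.Q c) < 1

variable {C}

theorem near_mul {v : Place k C.Q} {a b : C.Q} {c c' : k}
    (ha : v.val (a - algebraMap k C.Q c) < 1) (hb : v.val (b - algebraMap k C.Q c') < 1) :
    v.val (a * b - algebraMap k C.Q (c * c')) < 1 := by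
  rw [map_mul, show a * b - algebraMap k C.Q c * algebraMap k C.Q c' =
    (a - algebraMap k C.Q c) * b + algebraMap k C.Q c * (b - algebraMap k C.Q c') by ring]
  refine lt_of_le_of_lt (v.val.map_add _ _) (max_lt ?_ ?_)
  · rw [map_mul]
    exact mul_lt_one_of_lt_of_le ha (v.le_of_sub_lt hb)
  · rw [map_mul]
    rw [mul_comm]
    exact mul_lt_one_of_lt_of_le hb (v.const_le c)

theorem near_one {v : Place k C.Q} {a : C.Q} {c : k} (hc : c ≠ 0)
    (ha : v.val (a - algebraMap k C.Q c) < 1) : v.val a = 1 := by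
  have h := v.val.map_add_eq_of_lt_right (x := a - algebraMap k C.Q c) (y := algebraMap k C.Q c)
    (by rw [v.triv c hc]; exact ha)
  rwa [sub_add_cancel, v.triv c hc] at h

theorem near_inv {v : Place k C.Q} {u : C.Qˣ} {c : k} (hc : c ≠ 0)
    (ha : v.val ((u : C.Q) - algebraMap k C.Q c) < 1) :
    v.val (((u⁻¹ : C.Qˣ) : C.Q) - algebraMap k C.Q c⁻¹) < 1 := by
  have h1 : v.val (u : C.Q) = 1 := near_one hc ha
  have h2 : v.val ((u⁻¹ : C.Qˣ) : C.Q) = 1 := by
    have := congrArg v.val u.mul_inv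
    rwa [map_mul, h1, one_mul, map_one] at this
  have h3 : algebraMap k C.Q c⁻¹ * algebraMap k C.Q c = 1 := by
    rw [← map_mul, inv_mul_cancel₀ hc, map_one]
  have h4 : ((u⁻¹ : C.Qˣ) : C.Q) - algebraMap k C.Q c⁻¹ =
      -(((u⁻¹ : C.Qˣ) : C.Q) * algebraMap k C.Q c⁻¹ * ((u : C.Q) - algebraMap k C.Q c)) := by
    have h5 := u.inv_mul
    linear_combination (-((u⁻¹ : C.Qˣ) : C.Q)) * h3 + algebraMap k C.Q c⁻¹ * h5
  rw [h4, Valuation.map_neg, map_mul, map_mul, h2, v.triv _ (inv_ne_zero hc), one_mul, one_mul]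
  exact ha

theorem GG.one : C.GG 0 1 :=
  ⟨fun v _ => by simp, fun _ _ _ _ => ⟨1, one_ne_zero, fun v _ => by simp⟩⟩

theorem GG.mul {n n' : ℤ} {u u' : C.Qˣ} (h : C.GG n u) (h' : C.GG n' u') :
    C.GG (n + n') (u * u') := by
  refine ⟨fun v hv => ?_, fun a v₀ h0 h1 => ?_⟩
  · have := near_mul (C := C) (v := v) (a := (u * C.su ^ n : C.Qˣ)) (b := (u' * C.su ^ n' : C.Qˣ))
      (c := 1) (c' := 1) (by simpa using h.1 v hv) (by simpa using h'.1 v hv)
    rw [zpow_add, mul_mul_mul_comm]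
    simpa using this
  · obtain ⟨c, hc, H⟩ := h.2 a v₀ h0 h1
    obtain ⟨c', hc', H'⟩ := h'.2 a v₀ h0 h1
    exact ⟨c * c', mul_ne_zero hc hc', fun v hv => near_mul (H v hv) (H' v hv)⟩

theorem GG.inv {n : ℤ} {u : C.Qˣ} (h : C.GG n u) : C.GG (-n) u⁻¹ := by
  refine ⟨fun v hv => ?_, fun a v₀ h0 h1 => ?_⟩
  · have := near_inv (v := v) (u := u * C.su ^ n) (c := 1) one_ne_zero (by simpa using h.1 v hv)
    rw [zpow_neg, ← mul_inv]
    simpa using this
  · obtain ⟨c, hc, H⟩ := h.2 a v₀ h0 h1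
    exact ⟨c⁻¹, inv_ne_zero hc, fun v hv => near_inv hc (H v hv)⟩

theorem GG.pow {n : ℤ} {u : C.Qˣ} (h : C.GG n u) (e : ℕ) : C.GG (e * n) (u ^ e) := by
  induction e with
  | zero => simpa using GG.one
  | succ e ih =>
    have := ih.mul h
    rwa [← pow_succ, show (e : ℤ) * n + n = ((e + 1 : ℕ) : ℤ) * n by push_cast; ring] at this

variable (C)

/-- The group of normalized units. -/
def HH : Subgroup C.Qˣ where
  carrier := {u | ∃ n, C.GG n u}
  one_mem' := ⟨0, GG.one⟩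
  mul_mem' := fun ⟨n, h⟩ ⟨n', h'⟩ => ⟨n + n', h.mul h'⟩
  inv_mem' := fun ⟨n, h⟩ => ⟨-n, h.inv⟩

/-- The `l`-torsion of the generalized Jacobian, in Kummer form. -/
def MM (l : ℕ) : Submodule (ZMod l) (Hl C.HH l) :=
  Submodule.span (ZMod l) {a | ∃ u : C.HH, Hl.mk l u = a ∧ (∃ n : ℤ, C.GG (l * n) u.1) ∧
    ∀ v : Place k C.Q, (l : ℤ) ∣ v.ord (u.1 : C.Q)}

/-- The locally constant roots of unity. -/
abbrev M0 (l : ℕ) : Type := Hl (rootsOfUnity l C.Q) l

/-- Automorphisms that fix the coordinates. -/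
def Aut : Subgroup (SA k C.Q) where
  carrier := {θ | θ.1 C.t = C.t ∧ θ.1 C.dl = C.dl ∧ ∀ i < m, θ.1 (C.x i) = C.x i}
  one_mem' := ⟨rfl, rfl, fun _ _ => rfl⟩
  mul_mem' := fun {a b} ha hb => ⟨by
      show a.1 (b.1 C.t) = C.t
      rw [hb.1, ha.1], by
      show a.1 (b.1 C.dl) = C.dl
      rw [hb.2.1, ha.2.1], fun i hi => by
      show a.1 (b.1 (C.x i)) = C.x i
      rw [hb.2.2 i hi, ha.2.2 i hi]⟩
  inv_mem' := fun {a} ha => ⟨by
      show a.1.symm C.t = C.t
      rw [RingEquiv.symm_apply_eq, ha.1], by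
      show a.1.symm C.dl = C.dl
      rw [RingEquiv.symm_apply_eq, ha.2.1], fun i hi => by
      show a.1.symm (C.x i) = C.x i
      rw [RingEquiv.symm_apply_eq, ha.2.2 i hi]⟩

variable {C}

/-- The action on units. -/
def actU (θ : C.Aut) : C.Qˣ →* C.Qˣ := Units.map θ.1.1.toRingHom.toMonoidHom

@[simp] theorem actU_val (θ : C.Aut) (u : C.Qˣ) : (actU θ u : C.Q) = θ.1.1 u := rfl

theorem actU_su (θ : C.Aut) : actU θ C.su = C.su := by
  have h : actU θ C.su⁻¹ = C.su⁻¹ := Units.ext θ.2.1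
  rw [map_inv] at h
  exact inv_injective h

theorem aut_const (θ : SA k C.Q) (c : k) :
    ∃ c' : k, θ.1 (algebraMap k C.Q c) = algebraMap k C.Q c' := by
  obtain ⟨c', hc'⟩ := (θ.2 (algebraMap k C.Q c)).2 ⟨c, rfl⟩
  exact ⟨c', hc'.symm⟩

theorem GG.act {n : ℤ} {u : C.Qˣ} (h : C.GG n u) (θ : C.Aut) : C.GG n (actU θ u) := by
  have key : ∀ (v : Place k C.Q) (y : C.Q), v.val (θ.1.1 y) = (θ.1⁻¹ • v).val y := fun v y => by
    rw [← smul_val_apply θ.1 (θ.1⁻¹ • v) y, smul_inv_smul]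
  refine ⟨fun v hv => ?_, fun a v₀ h0 h1 => ?_⟩
  · have h1 := h.1 (θ.1⁻¹ • v) (by rw [← key, θ.2.1]; exact hv)
    rw [← key, map_sub, map_one, ← actU_val, map_mul, map_zpow, actU_su] at h1
    exact h1
  · choose a' ha' using fun i => aut_const θ.1⁻¹ (a i)
    have ha : ∀ i, θ.1.1 (algebraMap k C.Q (a' i)) = algebraMap k C.Q (a i) := fun i => by
      rw [← ha' i]; exact θ.1.1.apply_symm_apply _
    have hat : ∀ v, C.At v a → C.At (θ.1⁻¹ • v) a' := fun v hv i hi => by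
      rw [← key, map_sub, θ.2.2.2 i hi, ha]; exact hv i hi
    obtain ⟨c, hc, H⟩ := h.2 a' _ (hat v₀ h0) (by rw [← key, θ.2.2.1]; exact h1)
    obtain ⟨c', hc'⟩ := aut_const θ.1 c
    refine ⟨c', fun e => ?_, fun v hv => ?_⟩
    · have h2 := (θ.1⁻¹ • v₀).triv c hc
      rw [← key, hc', e, map_zero, map_zero] at h2
      exact zero_ne_one h2
    · have h2 := H _ (hat v hv)
      rw [← key, map_sub, hc'] at h2
      exact h2

/-- The action on normalized units. -/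
def actG (θ : C.Aut) : C.HH →* C.HH :=
  ((actU θ).comp C.HH.subtype).codRestrict C.HH fun u => by
    obtain ⟨n, h⟩ := u.2
    exact ⟨n, h.act θ⟩

@[simp] theorem actG_val (θ : C.Aut) (u : C.HH) : (actG θ u).1 = actU θ u.1 := rfl

theorem actM_mem (l : ℕ) (θ : C.Aut) {a : Hl C.HH l} (ha : a ∈ C.MM l) :
    Hl.map l (actG θ) a ∈ C.MM l := by
  refine (Submodule.map_span_le _ _ _).2 ?_ (Submodule.mem_map_of_mem ha)
  rintro _ ⟨u, rfl, ⟨n, hn⟩, hu⟩
  refine Submodule.subset_span ⟨actG θ u, rfl, ⟨n, hn.act θ⟩, fun v => ?_⟩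
  have := smul_ord_apply θ.1 (θ.1⁻¹ • v) (u.1 : C.Q)
  rw [smul_inv_smul] at this
  show (l : ℤ) ∣ v.ord (θ.1.1 (u.1 : C.Q))
  rw [this]
  exact hu _

/-- The action on `MM`. -/
def actM (l : ℕ) (θ : C.Aut) : C.MM l →ₗ[ZMod l] C.MM l :=
  (Hl.map l (actG θ)).restrict fun _ ha => actM_mem l θ ha

/-- The action on `M0`. -/
def act0 (l : ℕ) (θ : C.Aut) : C.M0 l →ₗ[ZMod l] C.M0 l :=
  Hl.map l (restrictRootsOfUnity θ.1.1 l)

theorem actM_inv (l : ℕ) (θ : C.Aut) (a : C.MM l) : actM l θ⁻¹ (actM l θ a) = a := by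
  obtain ⟨a, ha⟩ := a
  obtain ⟨u, rfl⟩ := Hl.mk_surj l a
  refine Subtype.ext ?_
  show Hl.mk l (actG θ⁻¹ (actG θ u)) = Hl.mk l u
  congr 1
  exact Subtype.ext (Units.ext (θ.1.1.symm_apply_apply _))

theorem act0_inv (l : ℕ) (θ : C.Aut) (a : C.M0 l) : act0 l θ⁻¹ (act0 l θ a) = a := by
  obtain ⟨u, rfl⟩ := Hl.mk_surj l a
  show Hl.mk l (restrictRootsOfUnity θ⁻¹.1.1 l (restrictRootsOfUnity θ.1.1 l u)) = Hl.mk l u
  congr 1
  exact Subtype.ext (Units.ext (θ.1.1.symm_apply_apply _))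

theorem mem_MM {l : ℕ} [NeZero l] {a : Hl C.HH l} : a ∈ C.MM l ↔ ∃ u : C.HH, Hl.mk l u = a ∧
    (∃ n : ℤ, C.GG (l * n) u.1) ∧ ∀ v : Place k C.Q, (l : ℤ) ∣ v.ord (u.1 : C.Q) := by
  refine ⟨fun h => ?_, fun h => Submodule.subset_span h⟩
  induction h using Submodule.span_induction with
  | mem x hx => exact hx
  | zero => exact ⟨1, rfl, ⟨0, by simpa using GG.one⟩, fun v => by simp⟩
  | add x y _ _ hx hy =>
    obtain ⟨u, rfl, ⟨n, hn⟩, hu⟩ := hx
    obtain ⟨w, rfl, ⟨n', hn'⟩, hw⟩ := hy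
    refine ⟨u * w, rfl, ⟨n + n', by rw [mul_add]; exact hn.mul hn'⟩, fun v => ?_⟩
    show (l : ℤ) ∣ v.ord ((u.1 : C.Q) * (w.1 : C.Q))
    rw [v.ord_mul (v.val_unit_ne _) (v.val_unit_ne _)]
    exact (hu v).add (hw v)
  | smul c x _ hx =>
    obtain ⟨u, rfl, ⟨n, hn⟩, hu⟩ := hx
    refine ⟨u ^ c.val, (Hl.smul_mk l c u).symm, ⟨c.val * n, ?_⟩, fun v => ?_⟩
    · rw [mul_left_comm]; exact hn.pow c.val
    · show (l : ℤ) ∣ v.ord (((u.1 ^ c.val : C.Qˣ) : C.Q))
      rw [Units.val_pow_eq_pow_val, v.ord_pow]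
      exact (hu v).mul_left _

variable (C)

/-- Reduced representatives. -/
def Good (l : ℕ) (u : C.Qˣ) : Prop :=
  C.GG ((l * N0 d m : ℕ) : ℤ) u ∧ (u : C.Q) * C.s ^ (l * N0 d m) ∈ C.FN (l * N0 d m) ∧
    ∀ v : Place k C.Q, (l : ℤ) ∣ v.ord (u : C.Q)

open Classical in
/-- The rigidity condition for functions. -/
def Wz (l : ℕ) (u : C.Qˣ) : Prop :=
  ∀ y : C.Q, y * C.s ^ (l * N0 d m) ∈ C.FN (l * N0 d m) →
    (∀ v : Place k C.Q, 1 < v.val C.t → v.val (y * C.s ^ (l * N0 d m)) < 1) →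
    (∀ v : Place k C.Q, v.val C.t ≤ 1 → v.val y ≤ v.val (u : C.Q) *
      if th (Gc d m) (v.ev C.t) = 0 then 1 else exp (v.ord (u : C.Q) / l)) → y = 0

/-- The table `c` represents the class `a`. -/
def Rp (l : ℕ) (c : ℕ → ℕ → k) (a : C.MM l) : Prop :=
  ∃ u : C.HH, (u.1 : C.Q) = C.psi (l * N0 d m) c ∧ C.Good l u.1 ∧ Hl.mk l u = a.1

/-- The table `c` represents the root of unity `a`. -/
def Rp0 (l : ℕ) (c : ℕ → ℕ → k) (a : C.M0 l) : Prop :=
  ∃ u : rootsOfUnity l C.Q, C.dlh * (u.1 : C.Q) = C.hat (2 * w0 d m) c ∧ Hl.mk l u = a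

/-- The decomposition of the ring into function fields. -/
structure Cmp where
  /-- the components -/
  I : Type
  [fin : Fintype I]
  [dec : DecidableEq I]
  /-- their function fields -/
  K : I → Type
  [fld : ∀ i, Field (K i)]
  [ak : ∀ i, Algebra k (K i)]
  [aR : ∀ i, Algebra (RatFunc k) (K i)]
  [tw : ∀ i, IsScalarTower k (RatFunc k) (K i)]
  [fd : ∀ i, FiniteDimensional (RatFunc k) (K i)]
  /-- the projections -/
  φ : ∀ i, C.Q →ₐ[RatFunc k] K i
  bij : Function.Bijective fun (y : C.Q) (i : I) => φ i y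
  ff : ∀ i, IsFF k (K i)
  /-- places of the ring are places of the components -/
  up : (Σ i, Place k (K i)) ≃ Place k C.Q
  up_val : ∀ i w y, (up ⟨i, w⟩).val y = w.val (φ i y)
  rk : ∑ i, Module.finrank (RatFunc k) (K i) = d ^ m
  rks : ∀ i, φ i C.s ∉ Set.range (algebraMap k (K i)) ∧
    Module.finrank k⟮φ i C.s⟯ (K i) = Module.finrank (RatFunc k) (K i) ∧
    ∀ (ι : Type) (u : ι → K i), LinearIndependent (RatFunc k) u → LinearIndependent k⟮φ i C.s⟯ u

attribute [instance] Cmp.fin Cmp.dec Cmp.fld Cmp.ak Cmp.aR Cmp.tw Cmp.fd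

end Cv

end Pool.Agent.MP_cce4c9_lc.H87
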