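import Pool.Agent.MP_cce4c9_lc.H87.SpecQ

/-!
The algorithm: Taylor matrices, the two polynomial systems, the elimination engine, the tests,
and the search for a basis together with the matrix of the Frobenius.
-/

set_option autoImplicit false

open List Polynomial

namespace Pool.Agent.MP_cce4c9_lc.H87

/-- Tables of elements. -/
abbrev Tab : Type := List (List El)

/-- Patterns: multiplicities, fixed slots, deleted rows. -/
abbrev Pat : Type := List ℕ × List ℕ × List (ℕ × ℕ)

/-- Cut an element to the dimension of `B`. -/
def tk (B : Ds) (a : El) : El := a.take B.2.length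

/-- All coefficients of a monic polynomial. -/
def fullL (B : Ds) (fl : List El) : List El := fl ++ [cst B 1]

/-- The derivative. -/
def derL (B : Ds) (F : List El) : List El :=
  (range (F.length - 1)).map fun i => mul B (cst B (i + 1)) (F.getD (i + 1) [])

/-- `B[X] / X ^ n`. -/
def tr1 (B : Ds) (n : ℕ) : Ds := (tower B (replicate n []) 1).1

/-- The class of `X` in it. -/
def rt1 (B : Ds) (n : ℕ) : El := (tower B (replicate n []) 1).2.getD 0 []

/-! ### Taylor matrices and the first system -/

/-- The iteration for `eta`. -/
def tayE (A : Ds) (τ : El) (F : List El) (L : ℕ) (x z : El) : El :=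
  (fun η => mul A z (sub A τ (sub A (sub A (horner A F (add A x η)) (horner A F x))
    (mul A (horner A (derL A F) x) η))))^[L] (cst A 0)

/-- The expansion `tcol`; the point is read from `b` at offset `o`. -/
def tcolA (A : Ds) (τ : El) (F : List El) (d m L : ℕ) (b : List El) (o a J : ℕ) : El :=
  mul A (pw A (add A (horner A F (b.getD o [])) τ) a)
    (prodL A ((range m).map fun i => pw A (add A (b.getD (o + i) [])
      (tayE A τ F L (b.getD (o + i) []) (b.getD (o + m + i) []))) (dig d J i)))

/-- Entries of the Taylor matrix. -/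
def TA (B : Ds) (fl : List El) (d m l : ℕ) (b : List El) (ρ : ℕ × ℕ) (e J : ℕ) : El :=
  chunk B (tcolA (tr1 B (l * mm d m)) (rt1 B (l * mm d m)) (fullL (tr1 B (l * mm d m)) fl) d m
    (l * mm d m) (b.map (tk B)) (2 * m * ρ.1) (l * N0 d m - e - ds d m J) J) ρ.2

/-- The columns other than `(0, 0)`. -/
def cols (d m N : ℕ) : List (ℕ × ℕ) :=
  ((range (d ^ m)).flatMap fun J => (range (N + 1 - ds d m J)).map fun e => (e, J)).filter
    fun c => c != (0, 0)

/-- The determinants in the rule of Cramer. -/
def crA (B : Ds) (fl : List El) (d m l : ℕ) (b : List El) (S : List (ℕ × ℕ)) (e J : ℕ) : El :=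
  det B (mat (cols d m (l * N0 d m)).length (cols d m (l * N0 d m)).length fun i j =>
    if (cols d m (l * N0 d m)).getD j (0, 0) = (e, J) then
      neg B (TA B fl d m l b (S.getD i (0, 0)) 0 0)
    else TA B fl d m l b (S.getD i (0, 0)) ((cols d m (l * N0 d m)).getD j (0, 0)).1
      ((cols d m (l * N0 d m)).getD j (0, 0)).2)

/-- Semantics of `crA`. -/
noncomputable def crP {R : Type} [CommRing R] (F : R[X]) (d m l : ℕ) (b : ℕ → R)
    (S : List (ℕ × ℕ)) (e J : ℕ) : R :=
  (Matrix.of fun i j : Fin (cols d m (l * N0 d m)).length =>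
    if (cols d m (l * N0 d m)).getD j (0, 0) = (e, J) then -TT F d m l b (S.getD i (0, 0)) 0 0
    else TT F d m l b (S.getD i (0, 0)) ((cols d m (l * N0 d m)).getD j (0, 0)).1
      ((cols d m (l * N0 d m)).getD j (0, 0)).2).det

/-- A row of the Taylor matrix applied to a table. -/
def vanA (B : Ds) (fl : List El) (d m l : ℕ) (b : List El) (c : Tab) (ρ : ℕ × ℕ) : El :=
  sumL B ((range (d ^ m)).map fun J => sumL B ((range (l * N0 d m + 1 - ds d m J)).map fun e =>
    mul B (ent c e J) (TA B fl d m l b ρ e J)))

/-- The rows. -/
def rowsL (d m l : ℕ) (μ : List ℕ) : List (ℕ × ℕ) :=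
  (range (mm d m)).flatMap fun j => (range (l * min (μ.getD j 0) (mm d m))).map fun r => (j, r)

/-- The rows that are kept. -/
def selR (d m l : ℕ) (pat : Pat) : List (ℕ × ℕ) :=
  (rowsL d m l pat.1).filter fun ρ => !pat.2.2.contains ρ

/-- The bound for the number of deleted rows. -/
def g0 (d m : ℕ) : ℕ := d ^ m * m * d

/-- All patterns. -/
def pats (d m l : ℕ) : List Pat :=
  ((tuples (range (mm d m + 1)) (mm d m)).filter fun μ => μ.sum == mm d m).flatMap fun μ =>
    (tuples [0, 1] (mm d m)).flatMap fun fx =>
      (tuples ((mm d m, 0) :: rowsL d m l μ) (g0 d m)).map fun del => (μ, fx, del)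

/-- The equations for unramified points. -/
def basA (B : Ds) (fl : List El) (d m : ℕ) (b : List El) : List El :=
  (range (mm d m)).flatMap fun j => (range m).flatMap fun i =>
    [sub B (horner B (fullL B fl) (b.getD (2 * m * j + i) []))
        (horner B (fullL B fl) (b.getD (2 * m * j) [])),
      sub B (mul B (b.getD (2 * m * j + m + i) [])
        (horner B (derL B (fullL B fl)) (b.getD (2 * m * j + i) []))) (cst B 1)]

/-- The function `th`. -/
def thA (B : Ds) (G : ℕ) (y : El) : El :=
  mul B (sub B (pw B y G) (cst B 1)) (sub B (pw B y (G + 1)) (cst B 1))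

/-- The equations for fixed slots. -/
def fixA (B : Ds) (fl : List El) (d m : ℕ) (fx : List ℕ) (b : List El) : List El :=
  (range (mm d m)).map fun j =>
    if fx.getD j 0 = 1 then thA B (Gc d m) (horner B (fullL B fl) (b.getD (2 * m * j) []))
    else cst B 0

/-- All equations of the first system. -/
def eqs1 (B : Ds) (fl : List El) (d m l : ℕ) (pat : Pat) (b : List El) : List El :=
  basA B fl d m b ++ fixA B fl d m pat.2.1 b ++ (rowsL d m l pat.1).map
    (vanA B fl d m l b (mat (l * N0 d m + 1) (d ^ m) (crA B fl d m l b (selR d m l pat))))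

/-- A bound for the degrees of the entries of the Taylor matrix. -/
def dE (d m l : ℕ) : ℕ := (l * N0 d m + m + 2 * (l * mm d m)) * d

/-- A strict bound for the degrees of the equations. -/
def dM (d m l : ℕ) : ℕ := ((l * N0 d m + 1) * d ^ m + 1) * dE d m l + (2 * Gc d m + 1) * d + 1

/-- The number of variables. -/
def nV (d m : ℕ) : ℕ := 2 * m * mm d m

/-- The first system, as lists of coefficients. -/
def sys1 (D : Ds) (fl : List El) (d m l : ℕ) (pat : Pat) : List (List El) :=
  (eqs1 (tower D (replicate (dM d m l) []) (nV d m)).1 fl d m l pat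
    (tower D (replicate (dM d m l) []) (nV d m)).2).map fun a =>
      (range (dM d m l ^ nV d m)).map (chunk D a)

/-- Indicator that the slots in use hold distinct points. -/
def disA (B : Ds) (d m : ℕ) (μ : List ℕ) (b : List El) : El :=
  prodL B ((range (mm d m)).flatMap fun j =>
    ((range (mm d m)).filter fun j' =>
      decide (j' < j) && (μ.getD j 0 != 0) && (μ.getD j' 0 != 0)).map fun j' =>
      sub B (cst B 1) (prodL B ((range m).map fun i =>
        eqz B (sub B (b.getD (2 * m * j + i) []) (b.getD (2 * m * j' + i) [])))))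

/-- The table of coefficients that belongs to a solution. -/
def datC (B : Ds) (fl : List El) (d m l : ℕ) (pat : Pat) (b : List El) : Tab :=
  mat (l * N0 d m + 1) (d ^ m) fun e J => mul B (crA B fl d m l b (selR d m l pat) e J)
    (qinv B (crA B fl d m l b (selR d m l pat) 0 0))

/-- Indicator of validity, and the table. -/
def dat1 (fl : List El) (d m l : ℕ) (B : Ds) (pat : Pat) (b : List El) : El × Tab :=
  (mul B (prodL B ((basA B fl d m b ++ [sub B (ent (datC B fl d m l pat b) 0 0) (cst B 1)] ++
      (rowsL d m l pat.1).map (vanA B fl d m l b (datC B fl d m l pat b))).map (eqz B)))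
    (disA B d m pat.1 b), datC B fl d m l pat b)

/-! ### The elimination engine -/

/-- A bound for the total degree. -/
def dlt (v n : ℕ) : ℕ := v * (n - 1)

/-- The base in which monomials are numbered. -/
def rho (v n : ℕ) : ℕ := v * dlt v n + 2

/-- The first large exponent. -/
def fstJ (v n γ : ℕ) : ℕ := ((range v).filter fun j => decide (dlt v n < dig (rho v n) γ j)).headD v

/-- The monomial `γ'` arises from `γ` by one reduction step with the monomial `J`. -/
def mtch (v n γ γ' J : ℕ) : Bool := (range v).all fun a =>
  dig (rho v n) γ' a + (if a = fstJ v n γ then dlt v n + 1 else 0) == dig (rho v n) γ a + dig n J a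

/-- The matrix of the engine over any ring. -/
noncomputable def engP {R : Type} [CommRing R] (v n i s : ℕ) (co : ℕ → ℕ → R) (y : ℕ → R)
    (γ γ' : ℕ) : R :=
  if rho v n ≤ ds (rho v n) v γ then (if γ' = γ then 1 else 0)
  else if fstJ v n γ = v then
    (if γ' = γ then y 0 else 0) - (if γ' = γ + rho v n ^ i then 1 else 0)
  else (if γ' = γ then 1 else 0) + y 1 * ∑ J ∈ Finset.range (n ^ v),
    if mtch v n γ γ' J = true then ∑ l ∈ Finset.range s, y (fstJ v n γ + 2) ^ l * co l J else 0

/-- The matrix of the engine. -/
def engA (E : Ds) (ys : List El) (v n i : ℕ) (eqs : List (List El)) (γ γ' : ℕ) : El :=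
  if rho v n ≤ ds (rho v n) v γ then (if γ' = γ then cst E 1 else cst E 0)
  else if fstJ v n γ = v then
    sub E (if γ' = γ then ys.getD 0 [] else cst E 0)
      (if γ' = γ + rho v n ^ min i v then cst E 1 else cst E 0)
  else add E (if γ' = γ then cst E 1 else cst E 0) (mul E (ys.getD 1 [])
    (sumL E ((range (n ^ v)).map fun J =>
      if mtch v n γ γ' J = true then sumL E ((range eqs.length).map fun l =>
        mul E (pw E (ys.getD (fstJ v n γ + 2) []) l) (ent eqs l J)) else cst E 0)))

/-- A strict bound for the degree of the determinant. -/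
def dlE (v n s : ℕ) : ℕ := rho v n ^ v * (s + 1) + 1

/-- The determinant. -/
def engD (D : Ds) (v n : ℕ) (eqs : List (List El)) (i : ℕ) : El :=
  det (tower D (replicate (dlE v n eqs.length) []) (v + 2)).1 (mat (rho v n ^ v) (rho v n ^ v)
    (engA (tower D (replicate (dlE v n eqs.length) []) (v + 2)).1
      (tower D (replicate (dlE v n eqs.length) []) (v + 2)).2 v n i (eqs.map (map (tk D)))))

/-- Non-zero polynomials in one variable; one of them vanishes at the `i`-th coordinate of any
given isolated solution. -/
def eng (D : Ds) (v n : ℕ) (eqs : List (List El)) (i : ℕ) : List (List El) :=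
  ((range (dlE v n eqs.length ^ (v + 1))).map fun J => (range (dlE v n eqs.length)).map fun e =>
    chunk D (engD D v n eqs i) (e + dlE v n eqs.length * J)).filter fun g => !g.all (isz D)

/-- The degree of a polynomial over a field. -/
def dgL (D : Ds) (P : List El) : ℕ :=
  ((range P.length).filter fun i => !isz D (P.getD i [])).reverse.headD 0

/-- The lower coefficients of the associated monic polynomial. -/
def mon (D : Ds) (P : List El) : List El :=
  (range (min (dgL D P) P.length)).map fun i =>
    mul D (P.getD i []) (qinv D (P.getD (dgL D P) []))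

/-- One monic polynomial for the coordinates of the isolated solutions of all systems. -/
def solve (D : Ds) (v n : ℕ) (syss : List (List (List El))) : List El :=
  mon D ((syss.flatMap fun eqs => (range v).flatMap fun i => eng D v n eqs i).foldl (conv D)
    [cst D 0, cst D 1])

/-- The polynomial in several variables with a given list of coefficients. -/
noncomputable def toMv {S : Type} [CommRing S] (φ : El → S) (n v : ℕ) (g : List El) :
    MvPolynomial (Fin v) S :=
  ∑ J ∈ Finset.range (n ^ v), MvPolynomial.monomial (exps n v J) (φ (g.getD J []))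

/-- `a` is an isolated common zero of the first `s` polynomials. -/
def Iso {k : Type} [Field k] {v : ℕ} (s : ℕ) (fs : ℕ → MvPolynomial (Fin v) k) (a : Fin v → k) :
    Prop :=
  (∀ l < s, MvPolynomial.eval a (fs l) = 0) ∧ ∃ h : MvPolynomial (Fin v) k,
    MvPolynomial.eval a h ≠ 0 ∧ ∃ Z : Finset k, ∀ b : Fin v → k,
      (∀ l < s, MvPolynomial.eval b (fs l) = 0) → MvPolynomial.eval b h ≠ 0 → ∀ i, b i ∈ Z

/-! ### The chart at infinity, the tests, and the second system -/

/-- The equation of the curve in the chart at infinity. -/
def fstar (A : Ds) (s : El) (fl : List El) (d : ℕ) : List El :=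
  (range d).map fun i => sub A (mul A (fl.getD i []) (pw A s (d - i)))
    (if i = 0 then pw A s (d - 1) else cst A 0)

/-- The coordinate ring of the chart at infinity modulo `s ^ n`. -/
def hatT (B : Ds) (fl : List El) (d m n : ℕ) : Ds × List El :=
  tower (tr1 B n) (fstar (tr1 B n) (rt1 B n) fl d) m

/-- The function with a given table. -/
def mkHat (A : Ds) (s : El) (Ys : List El) (d m N : ℕ) (c : Tab) : El :=
  sumL A ((range (d ^ m)).map fun J => sumL A ((range (N + 1 - ds d m J)).map fun e =>
    mul A (ent c e J) (mul A (pw A s e)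
      (prodL A ((range m).map fun i => pw A (Ys.getD i []) (dig d J i))))))

/-- The coefficients of an element. -/
def coefH (B : Ds) (n : ℕ) (a : El) (e J : ℕ) : El := chunk B (chunk (tr1 B n) a J) e

/-- The different. -/
def delH (A : Ds) (s : El) (Ys fl : List El) (d m : ℕ) : El :=
  prodL A ((range m).map fun i => sumL A ((range d).map fun j =>
    mul A (mul A ((derL A (fullL A fl)).getD j []) (pw A s (d - 1 - j))) (pw A (Ys.getD i []) j)))

/-- A product of powers. -/
def prodH (B : Ds) (fl : List El) (d m n N : ℕ) (cl : List Tab) (al : List ℕ) : El :=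
  prodL (hatT B fl d m n).1 ((range cl.length).map fun i => pw (hatT B fl d m n).1
    (mkHat (hatT B fl d m n).1 (rt1 B n) (hatT B fl d m n).2 d m N
      ((cl.getD i []).map (map (tk B)))) (al.getD i 0))

/-- Indicator that a product of powers is an `l`-th power. -/
def tst1 (fl : List El) (d m l : ℕ) (B : Ds) (cl : List Tab) (al : List ℕ) : El :=
  prodL B ((range (d ^ m)).flatMap fun J =>
    ((range (l * N0 d m * (l * cl.length) + 1)).filter fun e =>
      decide (N0 d m * al.sum < e + ds d m J)).map fun e =>
      eqz B (coefH B (l * N0 d m * (l * cl.length) + 1)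
        (pw (hatT B fl d m (l * N0 d m * (l * cl.length) + 1)).1
          (prodH B fl d m (l * N0 d m * (l * cl.length) + 1) (l * N0 d m) cl al)
          (Ex l B.1 (d * (l * N0 d m * (l * cl.length) + 1)))) e J))

/-- Indicator that a product of powers is a power of the different. -/
def tst0 (fl : List El) (d m l : ℕ) (B : Ds) (cl : List Tab) (al : List ℕ) : El :=
  prodL B ((range (d ^ m)).flatMap fun J =>
    (range (2 * w0 d m * (l * cl.length) + 1)).map fun e =>
      eqz B (coefH B (2 * w0 d m * (l * cl.length) + 1)
        (sub (hatT B fl d m (2 * w0 d m * (l * cl.length) + 1)).1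
          (prodH B fl d m (2 * w0 d m * (l * cl.length) + 1) (2 * w0 d m) cl al)
          (pw (hatT B fl d m (2 * w0 d m * (l * cl.length) + 1)).1
            (delH (hatT B fl d m (2 * w0 d m * (l * cl.length) + 1)).1
              (rt1 B (2 * w0 d m * (l * cl.length) + 1))
              (hatT B fl d m (2 * w0 d m * (l * cl.length) + 1)).2 fl d m) al.sum)) e J))

/-- The table of unknowns of the second system. -/
def tab0 (d m : ℕ) (b : List El) : Tab :=
  mat (w0 d m + 1) (d ^ m) fun e J => b.getD (J + d ^ m * e) []

/-- The number of unknowns of the second system. -/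
def nV0 (d m : ℕ) : ℕ := d ^ m * (w0 d m + 1)

/-- Indicator of validity, and the table. -/
def dat0 (fl : List El) (d m l : ℕ) (B : Ds) (_pat : Pat) (b : List El) : El × Tab :=
  (tst0 fl d m l B [tab0 d m b] [l], tab0 d m b)

/-- The equation of the second system, with coefficients in the chart ring `H`. -/
def eq0 (H : Ds × List El) (s : El) (fl : List El) (d m l : ℕ) : El :=
  sub (tower H.1 (replicate (l + 1) []) (nV0 d m)).1
    (pw (tower H.1 (replicate (l + 1) []) (nV0 d m)).1
      (mkHat (tower H.1 (replicate (l + 1) []) (nV0 d m)).1 s H.2 d m (2 * w0 d m)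
        (tab0 d m (tower H.1 (replicate (l + 1) []) (nV0 d m)).2)) l)
    (pw (tower H.1 (replicate (l + 1) []) (nV0 d m)).1
      (delH (tower H.1 (replicate (l + 1) []) (nV0 d m)).1 s H.2 fl d m) l)

/-- The second system, as lists of coefficients. -/
def sys0 (D : Ds) (fl : List El) (d m l : ℕ) : List (List El) :=
  (range (d ^ m)).flatMap fun J => (range (2 * w0 d m * l + 1)).map fun e =>
    (range ((l + 1) ^ nV0 d m)).map fun J' =>
      coefH D (2 * w0 d m * l + 1) (chunk (hatT D fl d m (2 * w0 d m * l + 1)).1
        (eq0 (hatT D fl d m (2 * w0 d m * l + 1)) (rt1 D (2 * w0 d m * l + 1)) fl d m l) J') e J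

/-! ### The search -/

/-- Indicator that `cd` is a valid independent family with matrix `A`. -/
def indR (B : Ds) (q l : ℕ) (tst : Ds → List Tab → List ℕ → El) (r : ℕ) (cd : List (El × Tab))
    (A : List (List ℕ)) : El :=
  mul B (mul B (prodL B (cd.map Prod.fst))
    (prodL B (((tuples (range l) r).filter fun a => a.sum != 0).map fun a =>
      sub B (cst B 1) (tst B (cd.map Prod.snd) a))))
    (prodL B ((range r).map fun i =>
      tst B ((cd.map Prod.snd).getD i [] ::
        (cd.map Prod.snd).map (map (map fun a => pw B a q))) ((l - 1) :: A.getD i [])))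

/-- The traces of all accepted matrices of size `r`. -/
def tryR (D : Ds) (u : List El) (V l : ℕ) (pats : List Pat) (dat : Ds → Pat → List El → El × Tab)
    (tst : Ds → List Tab → List ℕ → El) (r : ℕ) : List ℕ :=
  (tuples pats r).flatMap fun ps =>
    ((tuples (tuples (range l) r) r).filter fun A => hasPt (tower D u (V * r)).1
      (indR (tower D u (V * r)).1 (D.1 ^ D.2.length) l tst r
        ((range r).map fun i => dat (tower D u (V * r)).1 (ps.getD i ([], [], []))
          (((tower D u (V * r)).2.drop (V * i)).take V)) A)).map fun A =>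
      ((range r).map fun i => (A.getD i []).getD i 0).sum

/-- The trace for the largest size that is accepted. -/
def search (D : Ds) (u : List El) (V l : ℕ) (pats : List Pat)
    (dat : Ds → Pat → List El → El × Tab) (tst : Ds → List Tab → List ℕ → El) : ℕ → ℕ
  | 0 => 0
  | R + 1 => if (tryR D u V l pats dat tst (R + 1)).isEmpty = true then
      search D u V l pats dat tst R else (tryR D u V l pats dat tst (R + 1)).headD 0

/-- The polynomial for the first system. -/
def u1 (D : Ds) (fl : List El) (d m l : ℕ) : List El :=
  solve D (nV d m) (dM d m l) ((pats d m l).map (sys1 D fl d m l))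

/-- The polynomial for the second system. -/
def u0 (D : Ds) (fl : List El) (d m l : ℕ) : List El :=
  solve D (nV0 d m) (l + 1) [sys0 D fl d m l]

/-- The number of points modulo `l`. -/
def core (d m R l : ℕ) (D : Ds) (fl : List El) : ℕ :=
  (D.1 ^ D.2.length) ^ 2 *
      search D (u0 D fl d m l) (nV0 d m) l [([], [], [])] (dat0 fl d m l) (tst0 fl d m l) R +
    D.1 ^ D.2.length * (l - 1) *
      search D (u1 D fl d m l) (nV d m) l (pats d m l) (dat1 fl d m l) (tst1 fl d m l) R

/-- The table of values. -/
def tb {S : Type} (φ : El → S) (c : Tab) (e J : ℕ) : S := φ (ent c e J)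

end Pool.Agent.MP_cce4c9_lc.H87
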