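import Pool.Agent.MP_cce4c9_lc.H87.DefsR
import Pool.Agent.Shared.H56.More

/-! The generic routines run in polynomial time. -/

set_option autoImplicit false

open List Pool.Agent.Shared.H56

namespace Pool.Agent.MP_cce4c9_lc.H87

variable {α β : Type} [N487b59b3 α] [N487b59b3 β]

/-- Normal elements: what the ring operations return. -/
def Nrm (D : Ds) (a : El) : Prop := a.length ≤ dim D ∧ ∀ c ∈ a, c ≤ D.1

theorem sz_list_le {l : List β} {k : ℕ} (h : ∀ x ∈ l, sz x ≤ k) :
    sz l ≤ l.length * (2 * k + 1) := by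
  induction l with
  | nil => simp
  | cons x xs ih =>
    have h1 := h x List.mem_cons_self
    have h2 := ih fun y hy => h y (List.mem_cons_of_mem _ hy)
    simp only [sz_cons, List.length_cons]
    nlinarith

theorem sz_list_le' {l : List β} {k n : ℕ} (hn : l.length ≤ n) (h : ∀ x ∈ l, sz x ≤ k) :
    sz l ≤ n * (2 * k + 1) :=
  (sz_list_le h).trans (Nat.mul_le_mul_right _ hn)

theorem dim_le_sz (D : Ds) : dim D ≤ sz D := by
  obtain ⟨p, T⟩ := D
  have := length_le_sz T
  simp only [dim, sz_pair]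
  omega

theorem Nrm.sz_le {D : Ds} {a : El} (h : Nrm D a) : sz a ≤ sz D * (2 * sz D + 1) := by
  refine sz_list_le' (h.1.trans (dim_le_sz D)) fun c hc => (sz_nat_mono (h.2 c hc)).trans ?_
  obtain ⟨p, T⟩ := D
  simp only [sz_pair]
  omega

theorem nrm_nf (D : Ds) (φ : ℕ → ℕ) : Nrm D (nf D φ) := by
  refine ⟨by simp [nf, dim], fun c hc => ?_⟩
  simp only [nf, List.mem_map] at hc
  obtain ⟨i, -, rfl⟩ := hc
  exact min_le_right _ _

theorem nrm_add (D : Ds) (a b : El) : Nrm D (add D a b) := nrm_nf _ _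
theorem nrm_sub (D : Ds) (a b : El) : Nrm D (sub D a b) := nrm_nf _ _
theorem nrm_mul (D : Ds) (a b : El) : Nrm D (mul D a b) := nrm_nf _ _
theorem nrm_cst (D : Ds) (c : ℕ) : Nrm D (cst D c) := nrm_nf _ _
theorem nrm_neg (D : Ds) (a : El) : Nrm D (neg D a) := nrm_nf _ _

theorem nrm_foldl {γ : Type} {D : Ds} {f : El → γ → El} (hf : ∀ c x, Nrm D (f c x)) (l : List γ)
    {i : El} (hi : Nrm D i) : Nrm D (l.foldl f i) := by
  induction l generalizing i with
  | nil => exact hi
  | cons x xs ih => exact ih (hf _ _)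

theorem nrm_sumL (D : Ds) (l : List El) : Nrm D (sumL D l) :=
  nrm_foldl (nrm_add D) l (nrm_cst D 0)

theorem nrm_prodL (D : Ds) (l : List El) : Nrm D (prodL D l) :=
  nrm_foldl (nrm_mul D) l (nrm_cst D 1)

/-- The size of normal elements is polynomial in the input. -/
theorem nrm_bound {D : α → Ds} (hD : PT D) :
    ∃ B : Polynomial ℕ, ∀ a, ∀ c : El, Nrm (D a) c → sz c ≤ B.eval (sz a) := by
  obtain ⟨B, hB⟩ := hD.size
  refine ⟨B * (2 * B + 1), fun a c hc => hc.sz_le.trans ?_⟩
  have := hB a
  simp only [Polynomial.eval_mul, Polynomial.eval_add, Polynomial.eval_ofNat, Polynomial.eval_one]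
  exact Nat.mul_le_mul this (by omega)

/-- A fold whose step returns values of bounded size. -/
theorem pt_foldl_bd {γ : Type} [N487b59b3 γ] {f : α → γ → β → γ} {i : α → γ} {l : α → List β}
    (hf : PT fun p : α × γ × β => f p.1 p.2.1 p.2.2) (hi : PT i) (hl : PT l)
    (hB : ∃ B : Polynomial ℕ, ∀ a c x, sz (f a c x) ≤ B.eval (sz a)) :
    PT fun a => (l a).foldl (f a) (i a) := by
  obtain ⟨B, hB⟩ := hB
  refine PT.foldl_add hf hi hl ⟨B, fun a c x _ => (hB a c x).trans ?_⟩
  have := poly_mono B (Nat.le_add_right (sz a) (sz x))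
  omega

/-- An iteration whose step returns values of bounded size. -/
theorem pt_iterate_bd {f : α → β → β} {i : α → β} {n : α → ℕ}
    (hf : PT fun p : α × β => f p.1 p.2) (hi : PT i) (hn : PT fun a => un (n a))
    (hB : ∃ B : Polynomial ℕ, ∀ a c, sz (f a c) ≤ B.eval (sz a)) :
    PT fun a => (f a)^[n a] (i a) := by
  obtain ⟨B, hB⟩ := hB
  exact PT.iterate_add hf hi hn ⟨B, fun a s => (hB a s).trans (Nat.le_add_left _ _)⟩

/-- A fold whose step and start return normal elements. -/
theorem pt_foldl_nrm {D : α → Ds} {f : α → El → β → El} {i : α → El} {l : α → List β}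
    (hD : PT D) (hf : PT fun p : α × El × β => f p.1 p.2.1 p.2.2) (hi : PT i) (hl : PT l)
    (hn : ∀ a c x, Nrm (D a) (f a c x)) : PT fun a => (l a).foldl (f a) (i a) := by
  obtain ⟨B, hB⟩ := nrm_bound hD
  exact pt_foldl_bd hf hi hl ⟨B, fun a c x => hB a _ (hn a c x)⟩

/-- An iteration whose step returns normal elements. -/
theorem pt_iterate_nrm {D : α → Ds} {f : α → El → El} {i : α → El} {n : α → ℕ}
    (hD : PT D) (hf : PT fun p : α × El => f p.1 p.2) (hi : PT i) (hn : PT fun a => un (n a))
    (hN : ∀ a c, Nrm (D a) (f a c)) : PT fun a => (f a)^[n a] (i a) := by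
  obtain ⟨B, hB⟩ := nrm_bound hD
  exact pt_iterate_bd hf hi hn ⟨B, fun a c => hB a _ (hN a c)⟩

section
variable {D : α → Ds} {a b : α → El} {l l' : α → List El} {M : α → List (List El)}
  {n m : α → ℕ}

@[fun_prop] theorem pt_dim (hD : PT D) : PT fun x => dim (D x) := by
  unfold dim; fun_prop
@[fun_prop] theorem pt_un_dim (hD : PT D) : PT fun x => un (dim (D x)) := by
  unfold dim; fun_prop
@[fun_prop] theorem pt_un_pow (hn : PT fun x => un (n x)) (c : ℕ) : PT fun x => un (n x ^ c) :=
  (hn.un_poly (Polynomial.X ^ c)).congr fun x => by simp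
@[fun_prop] theorem pt_ent (hM : PT M) (hn : PT n) (hm : PT m) :
    PT fun x => ent (M x) (n x) (m x) := by
  unfold ent; fun_prop
@[fun_prop] theorem pt_mat {φ : α → ℕ → ℕ → El} (hn : PT fun x => un (n x))
    (hm : PT fun x => un (m x)) (hφ : PT fun p : α × ℕ × ℕ => φ p.1 p.2.1 p.2.2) :
    PT fun x => mat (n x) (m x) (φ x) := by
  unfold mat
  refine PT.map (f := fun x i => (range (m x)).map fun j => φ x i j) ?_ hn.range
  refine PT.map (f := fun (p : α × ℕ) j => φ p.1 p.2 j) ?_ (hm.range.comp PT.id'.fst)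
  exact hφ.comp (g := fun q : (α × ℕ) × ℕ => (q.1.1, q.1.2, q.2)) (by fun_prop)

theorem pt_nf {φ : α → ℕ → ℕ} (hD : PT D) (hφ : PT fun p : α × ℕ => φ p.1 p.2) :
    PT fun x => nf (D x) (φ x) := by
  unfold nf
  refine PT.map (f := fun x i => min (φ x i % (D x).1) (D x).1) ?_ (by fun_prop)
  have h : PT fun p : α × ℕ => (D p.1).1 := by fun_prop
  exact (hφ.mod h).min h

@[fun_prop] theorem pt_add (hD : PT D) (ha : PT a) (hb : PT b) :
    PT fun x => add (D x) (a x) (b x) :=
  pt_nf (φ := fun x i => (a x).getD i 0 + (b x).getD i 0) hD (by fun_prop)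
@[fun_prop] theorem pt_neg (hD : PT D) (ha : PT a) : PT fun x => neg (D x) (a x) :=
  pt_nf (φ := fun x i => ((D x).1 - 1) * (a x).getD i 0) hD (by fun_prop)
@[fun_prop] theorem pt_sub (hD : PT D) (ha : PT a) (hb : PT b) :
    PT fun x => sub (D x) (a x) (b x) := pt_add hD ha (pt_neg hD hb)
@[fun_prop] theorem pt_cst (hD : PT D) (hn : PT n) : PT fun x => cst (D x) (n x) :=
  pt_nf (φ := fun x i => if i = 0 then n x else 0) hD (by fun_prop)
@[fun_prop] theorem pt_mul (hD : PT D) (ha : PT a) (hb : PT b) :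
    PT fun x => mul (D x) (a x) (b x) :=
  pt_nf (φ := fun x k => ((range (D x).2.length).map fun i =>
    ((range (D x).2.length).map fun j =>
      (a x).getD i 0 * (b x).getD j 0 * (ent (D x).2 i j).getD k 0).sum).sum) hD (by fun_prop)
@[fun_prop] theorem pt_isz (hD : PT D) (ha : PT a) : PT fun x => isz (D x) (a x) := by
  unfold isz; fun_prop
@[fun_prop] theorem pt_sumL (hD : PT D) (hl : PT l) : PT fun x => sumL (D x) (l x) :=
  pt_foldl_nrm (f := fun x => add (D x)) hD (by fun_prop) (by fun_prop) hl fun _ _ _ => nrm_add _ _ _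
@[fun_prop] theorem pt_prodL (hD : PT D) (hl : PT l) : PT fun x => prodL (D x) (l x) :=
  pt_foldl_nrm (f := fun x => mul (D x)) hD (by fun_prop) (by fun_prop) hl fun _ _ _ => nrm_mul _ _ _
@[fun_prop] theorem pt_pw (hD : PT D) (ha : PT a) (hn : PT n) :
    PT fun x => pw (D x) (a x) (n x) :=
  pt_foldl_nrm (f := fun x r (c : Bool) => bif c then mul (D x) (mul (D x) r r) (a x)
    else mul (D x) r r) hD (by fun_prop) (by fun_prop) (by fun_prop)
    fun _ _ c => by cases c <;> exact nrm_mul _ _ _
@[fun_prop] theorem pt_horner (hD : PT D) (hl : PT l) (ha : PT a) :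
    PT fun x => horner (D x) (l x) (a x) :=
  pt_foldl_nrm (f := fun x r c => add (D x) (mul (D x) r (a x)) c) hD (by fun_prop) (by fun_prop)
    (by fun_prop) fun _ _ _ => nrm_add _ _ _

theorem pt_bstep {F : α → List (List El)} (hD : PT D) (hM : PT M) (hF : PT F) :
    PT fun x => bstep (D x) (M x) (F x) := by
  unfold bstep
  refine pt_mat (φ := fun x i j => add (D x) (neg (D x) (mul (D x) (sumL (D x)
      (((range (M x).length).filter fun k => i < k).map fun k => ent (F x) k k)) (ent (M x) i j)))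
      (sumL (D x) (((range (M x).length).filter fun k => i < k).map fun k =>
        mul (D x) (ent (F x) i k) (ent (M x) k j)))) hM.un_length hM.un_length ?_
  fun_prop

theorem sz_mat_le {n m k : ℕ} {φ : ℕ → ℕ → El} (h : ∀ i j, sz (φ i j) ≤ k) :
    sz (mat n m φ) ≤ n * (2 * (m * (2 * k + 1)) + 1) := by
  refine sz_list_le' (by simp [mat]) fun r hr => ?_
  simp only [mat, List.mem_map] at hr
  obtain ⟨i, -, rfl⟩ := hr
  refine sz_list_le' (by simp) fun e he => ?_
  simp only [List.mem_map] at he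
  obtain ⟨j, -, rfl⟩ := he
  exact h i j

@[fun_prop] theorem pt_det (hD : PT D) (hM : PT M) : PT fun x => det (D x) (M x) := by
  have h : PT fun x => (bstep (D x) (M x))^[(M x).length - 1] (M x) := by
    obtain ⟨B, hB⟩ := nrm_bound hD
    obtain ⟨C, hC⟩ := hM.size
    refine pt_iterate_bd (f := fun x => bstep (D x) (M x))
      (pt_bstep (hD.comp PT.id'.fst) (hM.comp PT.id'.fst) PT.id'.snd) hM (by fun_prop)
      ⟨C * (2 * (C * (2 * B + 1)) + 1), fun x F => ?_⟩
    refine (sz_mat_le (k := B.eval (sz x)) fun i j => hB x _ (nrm_add _ _ _)).trans ?_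
    have h1 := (length_le_sz (M x)).trans (hC x)
    simp only [Polynomial.eval_mul, Polynomial.eval_add, Polynomial.eval_ofNat, Polynomial.eval_one]
    gcongr
  unfold det
  fun_prop
@[fun_prop] theorem pt_qinv (hD : PT D) (ha : PT a) : PT fun x => qinv (D x) (a x) :=
  pt_foldl_nrm (f := fun x h j =>
    sub (D x) (add (D x) h (pw (D x) (a x) ((D x).1 ^ (min j (D x).2.length + 1) - 2)))
      (mul (D x) (a x) (mul (D x) h (pw (D x) (a x) ((D x).1 ^ (min j (D x).2.length + 1) - 2)))))
    hD (by fun_prop) (by fun_prop) (by fun_prop) fun _ _ _ => nrm_sub _ _ _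
@[fun_prop] theorem pt_eqz (hD : PT D) (ha : PT a) : PT fun x => eqz (D x) (a x) := by
  unfold eqz; fun_prop
@[fun_prop] theorem pt_hasPt (hD : PT D) (ha : PT a) : PT fun x => hasPt (D x) (a x) := by
  unfold hasPt; fun_prop
@[fun_prop] theorem pt_conv (hD : PT D) (hl : PT l) (hl' : PT l') :
    PT fun x => conv (D x) (l x) (l' x) := by
  unfold conv; fun_prop

theorem length_conv (D : Ds) (a b : List El) : (conv D a b).length = a.length + b.length - 1 := by
  simp [conv]

theorem nrm_conv (D : Ds) (a b : List El) : ∀ c ∈ conv D a b, Nrm D c := by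
  intro c hc
  simp only [conv, List.mem_map] at hc
  obtain ⟨i, -, rfl⟩ := hc
  exact nrm_sumL _ _

theorem length_foldl_conv (D : Ds) (M : List (List El)) (l : List El) :
    (M.foldl (conv D) l).length ≤ l.length + sz M := by
  induction M generalizing l with
  | nil => simp
  | cons r M ih =>
    have h1 := ih (conv D l r)
    have h2 := length_le_sz r
    rw [length_conv] at h1
    simp only [List.foldl_cons, sz_cons]
    omega

theorem sz_foldl_conv (D : Ds) (M : List (List El)) (l : List El) {k : ℕ}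
    (hk : ∀ c, Nrm D c → sz c ≤ k) :
    sz (M.foldl (conv D) l) ≤ sz l + (sz l + sz M) * (2 * k + 1) := by
  have h := length_foldl_conv D M l
  have h2 := length_le_sz l
  rcases List.eq_nil_or_concat M with rfl | ⟨M', r, rfl⟩
  · simp
  · refine le_add_left (sz_list_le' (by omega) fun c hc => hk c ?_)
    rw [List.concat_eq_append, List.foldl_append] at hc
    exact nrm_conv _ _ _ c hc

@[fun_prop] theorem pt_foldl_conv (hD : PT D) (hM : PT M) (hl : PT l) :
    PT fun x => (M x).foldl (conv (D x)) (l x) := by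
  obtain ⟨B, hB⟩ := nrm_bound hD
  obtain ⟨C, hC⟩ := hM.size
  obtain ⟨E, hE⟩ := hl.size
  refine PT.foldl (f := fun x => conv (D x)) (by fun_prop) hl hM
    ⟨E + (E + C) * (2 * B + 1), fun x k => (sz_foldl_conv _ _ _ (hB x)).trans ?_⟩
  have h1 := (sz_le_of_sublist (List.take_sublist k (M x))).trans (hC x)
  have h2 := hE x
  simp only [Polynomial.eval_mul, Polynomial.eval_add, Polynomial.eval_ofNat, Polynomial.eval_one]
  gcongr

theorem pt_shift (hD : PT D) (hl : PT l) (hl' : PT l') :
    PT fun x => shift (D x) (l x) (l' x) := by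
  unfold shift; fun_prop

@[fun_prop] theorem pt_xpow (hD : PT D) (hl : PT l) (hn : PT n) :
    PT fun x => xpow (D x) (l x) (n x) := by
  obtain ⟨B, hB⟩ := nrm_bound hD
  obtain ⟨C, hC⟩ := hl.size
  refine pt_iterate_bd (f := fun x => shift (D x) (l x))
    (pt_shift (hD.comp PT.id'.fst) (hl.comp PT.id'.fst) PT.id'.snd) (by fun_prop) (by fun_prop)
    ⟨C * (2 * B + 1), fun x v => ?_⟩
  simp only [Polynomial.eval_mul, Polynomial.eval_add, Polynomial.eval_ofNat, Polynomial.eval_one]
  refine sz_list_le' ?_ fun c hc => hB x c ?_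
  · simpa [shift] using (length_le_sz (l x)).trans (hC x)
  · simp only [shift, List.mem_map] at hc
    obtain ⟨i, -, rfl⟩ := hc
    exact nrm_sub _ _ _

@[fun_prop] theorem pt_adjoin (hD : PT D) (hl : PT l) : PT fun x => adjoin (D x) (l x) := by
  unfold adjoin
  refine PT.prodMk hD.fst (pt_mat (φ := fun x I J =>
    ((xpow (D x) (l x) (I / (D x).2.length + J / (D x).2.length)).map
      (mul (D x) (ent (D x).2 (I % (D x).2.length) (J % (D x).2.length)))).flatten)
    (by fun_prop) (by fun_prop) ?_)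
  fun_prop
@[fun_prop] theorem pt_root (hD : PT D) (hl : PT l) : PT fun x => root (D x) (l x) := by
  unfold root; fun_prop
@[fun_prop] theorem pt_chunk (hD : PT D) (ha : PT a) (hn : PT n) :
    PT fun x => chunk (D x) (a x) (n x) := by
  unfold chunk; fun_prop
@[fun_prop] theorem pt_tower (hD : PT D) (hl : PT l) (V : ℕ) :
    PT fun x => tower (D x) (l x) V := by
  induction V with
  | zero => exact hD.prodMk (PT.const [])
  | succ V ih =>
    have h : PT fun x => (l x).map fun a : El => a.take (D x).2.length := by fun_prop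
    exact (pt_adjoin ih.fst h).prodMk (ih.snd.append ((pt_root ih.fst h).cons (PT.const [])))
@[fun_prop] theorem pt_base (hn : PT n) : PT fun x => base (n x) := hn.prodMk (PT.const _)
/-- For a digit position that is not known to be small use `dig n J (min i c)`. -/
@[fun_prop] theorem pt_dig {i : α → ℕ} (hn : PT n) (hm : PT m) (hi : PT fun x => un (i x)) :
    PT fun x => dig (n x) (m x) (i x) := (hm.div (hn.pow hi)).mod hn
@[fun_prop] theorem pt_tuples {t : α → List β} (ht : PT t) (c : ℕ) :
    PT fun x => tuples (t x) c := by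
  induction c with
  | zero => exact PT.const [[]]
  | succ c ih => exact PT.flatMap (f := fun x s => (t x).map fun a => a :: s) (by fun_prop) ih
@[fun_prop] theorem pt_dropLast {t : α → List β} (ht : PT t) : PT fun x => (t x).dropLast :=
  ((ht.length.sub (PT.const 1)).take ht).congr fun _ => List.dropLast_eq_take.symm

end

end Pool.Agent.MP_cce4c9_lc.H87
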