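import Pool.Agent.MP_cce4c9_lc.H87.KitA

/-! Points of finite algebras, truncated polynomial rings. -/

set_option autoImplicit false

open List Polynomial

namespace Pool.Agent.MP_cce4c9_lc.H87

variable {D B : Ds} {R R' k : Type} [CommRing R] [CommRing R'] [Field k]

namespace KitPt

theorem fold {S : Type} [CommRing S] {φ : El → S} (h : Hm D φ) (hp : 2 ≤ D.1) (a : El) (m : ℕ)
    (hm : m ≤ D.2.length) :
    1 - φ a * φ ((range m).foldl (fun h j =>
      sub D (add D h (pw D a (D.1 ^ (min j D.2.length + 1) - 2)))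
        (mul D a (mul D h (pw D a (D.1 ^ (min j D.2.length + 1) - 2))))) (cst D 0)) =
      ∏ j ∈ Finset.range m, (1 - φ a ^ (D.1 ^ (j + 1) - 1)) := by
  induction m with
  | zero => simp [h.cst]
  | succ m ih =>
    rw [range_succ, foldl_append, foldl_cons, foldl_nil, Finset.prod_range_succ, ← ih (by omega),
      h.sub, h.add, h.mul, h.mul, h.pw, min_eq_left (by omega)]
    have h2 : 2 ≤ D.1 ^ (m + 1) := hp.trans (Nat.le_self_pow (by omega) _)
    obtain ⟨e, he⟩ := Nat.exists_eq_add_of_le h2
    rw [he, show 2 + e - 2 = e by omega, show 2 + e - 1 = e + 1 by omega]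
    ring

theorem exists_pow (π : Pres D R) (P : R →+* k) {r : R} (hr : P r ≠ 0) :
    ∃ j < dim D, P r ^ (D.1 ^ (j + 1) - 1) = 1 := by
  have := π.finite
  have : Finite P.range := Finite.of_surjective _ P.rangeRestrict_surjective
  let : Field P.range := (Finite.isField_of_domain P.range).toField
  let := Fintype.ofFinite P.range
  have : Fact D.1.Prime := ⟨π.prime⟩
  have h0 : ((D.1 : ℕ) : P.range) = 0 := by
    have := congrArg P.rangeRestrict π.char
    simpa using this
  have : CharP P.range D.1 := (CharP.charP_iff_prime_eq_zero π.prime).2 h0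
  obtain ⟨n, -, hn⟩ := FiniteField.card P.range D.1
  have hle : Nat.card P.range ≤ Nat.card R :=
    Nat.card_le_card_of_surjective _ P.rangeRestrict_surjective
  rw [Nat.card_eq_fintype_card, hn, π.card, Nat.pow_le_pow_iff_right π.prime.one_lt] at hle
  have hn0 := n.pos
  refine ⟨n - 1, by omega, ?_⟩
  have hx : P.rangeRestrict r ≠ 0 := fun h => hr (congrArg Subtype.val h)
  have := FiniteField.pow_card_sub_one_eq_one _ hx
  rw [hn] at this
  rw [show (n : ℕ) - 1 + 1 = n by omega]
  exact congrArg Subtype.val this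

theorem pow_card_eq_zero [Finite R] {e : R} (he : IsNilpotent e) : e ^ Nat.card R = 0 := by
  let := Fintype.ofFinite R
  obtain ⟨i, j, hij, h⟩ := Fintype.exists_ne_map_eq_of_card_lt
    (fun i : Fin (Nat.card R + 1) => e ^ (i : ℕ)) (by simp)
  have key : ∀ i j : ℕ, i < j → j ≤ Nat.card R → e ^ i = e ^ j → e ^ Nat.card R = 0 := by
    intro i j h1 h2 h3
    obtain ⟨d, rfl⟩ := Nat.exists_eq_add_of_lt h1
    have hu : IsUnit (1 - e ^ (d + 1)) := (he.pow_of_pos (by omega)).isUnit_one_sub
    have h4 : e ^ i * (1 - e ^ (d + 1)) = 0 := by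
      rw [mul_sub, mul_one, ← pow_add, ← add_assoc, ← h3, sub_self]
    exact pow_eq_zero_of_le (by omega) (hu.mul_left_eq_zero.1 h4)
  rcases lt_or_gt_of_ne (Fin.val_ne_of_ne hij) with h' | h'
  · exact key _ _ h' (Nat.lt_succ_iff.1 j.2) h
  · exact key _ _ h' (Nat.lt_succ_iff.1 i.2) h.symm

theorem exps_apply (n V J : ℕ) (i : Fin V) : exps n V J i = dig n J i := rfl

theorem exists_exps {n V : ℕ} {m : Fin V →₀ ℕ} (hm : ∀ i, m i < n) :
    ∃ J < n ^ V, exps n V J = m := by
  obtain ⟨J, hJ, h⟩ := exists_dig (n := n) (V := V) (fun i => if hi : i < V then m ⟨i, hi⟩ else 0)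
    fun i hi => by simpa [hi] using hm ⟨i, hi⟩
  refine ⟨J, hJ, Finsupp.ext fun i => ?_⟩
  rw [exps_apply, h i i.2]
  simp

theorem exps_inj {n V J J' : ℕ} (hJ : J < n ^ V) (hJ' : J' < n ^ V)
    (h : exps n V J = exps n V J') : J = J' :=
  eq_of_dig hJ hJ' fun i hi => congrArg (fun m : Fin V →₀ ℕ => m ⟨i, hi⟩) h

theorem exps_lt {n V J : ℕ} (hJ : J < n ^ V) (i : Fin V) : exps n V J i < n := by
  refine dig_lt (Nat.pos_of_ne_zero ?_) _ _
  rintro rfl
  rw [zero_pow (by have := i.2; omega)] at hJ
  omega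

theorem eval_trunc {n V : ℕ} (inc : R →+* R') (y : ℕ → R') (hy : ∀ i < V, y i ^ n = 0)
    (f : MvPolynomial (Fin V) R) :
    MvPolynomial.eval₂ inc (fun i : Fin V => y i) f = ∑ J ∈ Finset.range (n ^ V),
      inc (f.coeff (exps n V J)) * ∏ i ∈ Finset.range V, y i ^ dig n J i := by
  classical
  induction f using MvPolynomial.induction_on' with
  | monomial m c =>
    rw [MvPolynomial.eval₂_monomial, Finsupp.prod_fintype _ _ fun _ => pow_zero _]
    by_cases hm : ∀ i, m i < n
    · obtain ⟨J, hJ, rfl⟩ := exists_exps hm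
      rw [Finset.sum_eq_single_of_mem J (Finset.mem_range.2 hJ)]
      · rw [MvPolynomial.coeff_monomial, if_pos rfl, Finset.prod_range]
        rfl
      · intro J' hJ' hne
        rw [MvPolynomial.coeff_monomial,
          if_neg fun h => hne (exps_inj hJ (Finset.mem_range.1 hJ') h).symm, map_zero, zero_mul]
    · push Not at hm
      obtain ⟨i, hi⟩ := hm
      rw [Finset.prod_eq_zero (f := fun a : Fin V => y a ^ m a) (Finset.mem_univ i)
        (pow_eq_zero_of_le hi (hy i i.2)), mul_zero]
      refine (Finset.sum_eq_zero fun J hJ => ?_).symm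
      rw [MvPolynomial.coeff_monomial, if_neg, map_zero, zero_mul]
      rintro rfl
      exact absurd (exps_lt (Finset.mem_range.1 hJ) i) (not_lt.2 hi)
  | add p q hp hq =>
    simp only [MvPolynomial.eval₂_add, hp, hq, MvPolynomial.coeff_add, map_add, add_mul,
      Finset.sum_add_distrib]

theorem root_pow {π : Pres D R} {n V : ℕ} (T : Tow π (replicate n []) V R') {i : ℕ} (hi : i < V) :
    T.π'.val ((tower D (replicate n []) V).2.getD i []) ^ n = 0 := by
  have := T.isRoot i hi
  rwa [toM_replicate π.hm.nil, eval₂_X_pow] at this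

end KitPt

open KitPt

/-- The image of `R` in `k` is a finite field with `p ^ j` elements, `1 ≤ j ≤ dim D`. -/
theorem Pres.qinv (π : Pres D R) (P : R →+* k) {a : El} (ha : P (π.val a) ≠ 0) :
    P (π.val (qinv D a)) = (P (π.val a))⁻¹ := by
  have h := fold (π.hm.comp P) π.prime.two_le a D.2.length le_rfl
  obtain ⟨j, hj, e⟩ := exists_pow π P ha
  rw [Finset.prod_eq_zero (s := Finset.range D.2.length) (Finset.mem_range.2 hj)
    (by rw [e, sub_self]), sub_eq_zero] at h
  exact eq_inv_of_mul_eq_one_right h.symm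

theorem Pres.eqz (π : Pres D R) (P : R →+* k) (a : El) [Decidable (P (π.val a) = 0)] :
    P (π.val (eqz D a)) = if P (π.val a) = 0 then 1 else 0 := by
  have h := π.hm.comp P
  have e : P (π.val (H87.eqz D a)) = 1 - P (π.val a) * P (π.val (H87.qinv D a)) := by
    have h1 := h.sub (cst D 1) (mul D a (H87.qinv D a))
    have h2 := h.mul a (H87.qinv D a)
    have h3 := h.cst 1
    simp only [Nat.cast_one] at h1 h2 h3
    rw [H87.eqz, h1, h2, h3]
  rw [e]
  split_ifs with h0
  · rw [h0, zero_mul, sub_zero]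
  · rw [π.qinv P h0, mul_inv_cancel₀ h0, sub_self]

theorem IsPt.qinv {π : Pres D R} {ι : R →+* k} {φ : El → k} (h : IsPt π ι B φ) {a : El}
    (ha : φ a ≠ 0) : φ (qinv B a) = (φ a)⁻¹ := by
  obtain ⟨R', _, π', P, -, -, -, h⟩ := h
  rw [h] at ha
  rw [h, h, π'.qinv P ha]

theorem IsPt.eqz {π : Pres D R} {ι : R →+* k} {φ : El → k} (h : IsPt π ι B φ) (a : El)
    [Decidable (φ a = 0)] : φ (eqz B a) = if φ a = 0 then 1 else 0 := by
  classical
  obtain ⟨R', _, π', P, -, -, -, h⟩ := h
  rw [h (H87.eqz B a), π'.eqz P a, ← h a]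
  split_ifs <;> rfl

/-- Not nilpotent iff non-zero at some point over a given embedding of the ground field. -/
theorem Pres.hasPt_iff [IsAlgClosed k] {F : Type} [Field F] (π : Pres B R') (inc : F →+* R')
    (ι : F →+* k) (a : El) :
    hasPt B a = true ↔ ∃ P : R' →+* k, (∀ c, P (inc c) = ι c) ∧ P (π.val a) ≠ 0 := by
  have e : hasPt B a = true ↔ π.val a ^ Nat.card R' ≠ 0 := by
    rw [hasPt, Bool.not_eq_true', ← Bool.not_eq_true, π.isz_iff, π.hm.pw, π.card]
    rfl
  rw [e]
  constructor
  · intro h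
    have := π.finite
    have hn : ¬IsNilpotent (π.val a) := fun hn => h (pow_card_eq_zero hn)
    rw [nilpotent_iff_mem_prime] at hn
    push Not at hn
    obtain ⟨I, hI, ha⟩ := hn
    have : Finite (R' ⧸ I) := Finite.of_surjective _ Ideal.Quotient.mk_surjective
    let : Field (R' ⧸ I) := (Finite.isField_of_domain (R' ⧸ I)).toField
    let : Algebra F (R' ⧸ I) := ((Ideal.Quotient.mk I).comp inc).toAlgebra
    let : Algebra F k := ι.toAlgebra
    have : Module.Finite F (R' ⧸ I) := Module.Finite.of_finite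
    let L : (R' ⧸ I) →ₐ[F] k := IsAlgClosed.lift
    refine ⟨L.toRingHom.comp (Ideal.Quotient.mk I), fun c => L.commutes c, fun h0 => ha ?_⟩
    exact Ideal.Quotient.eq_zero_iff_mem.1 (L.toRingHom.injective (h0.trans (map_zero _).symm))
  · rintro ⟨P, -, hP⟩ h
    exact pow_ne_zero _ hP (by rw [← map_pow, h, map_zero])

theorem Tow.dim_le {π : Pres D R} {h : List El} {V : ℕ} (T : Tow π h V R') (hh : h ≠ []) :
    dim D ≤ dim (tower D h V).1 := by
  rw [T.dm]
  exact Nat.le_mul_of_pos_right _ (pow_pos (length_pos_iff.2 hh) _)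

/-- A homomorphism on a tower that extends `ι` is a point. -/
theorem Tow.isPt {π : Pres D R} {h : List El} {V : ℕ} (T : Tow π h V R') (hh : h ≠ [])
    {ι : R →+* k} (P : R' →+* k) (hP : ∀ c, P (T.inc c) = ι c) :
    IsPt π ι (tower D h V).1 fun a => P (T.π'.val a) :=
  ⟨R', inferInstance, T.π', P, T.ch, T.dim_le hh,
    fun a ha => (congrArg P (T.val_inc a ha)).trans (hP _),
    fun _ => rfl⟩

/-- Truncated polynomial rings: the blocks are the coefficients. -/
theorem Tow.trunc {π : Pres D R} {n V : ℕ} (T : Tow π (replicate n []) V R')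
    (f : MvPolynomial (Fin V) R) {a : El} (ha : T.π'.val a = MvPolynomial.eval₂ T.inc
      (fun i : Fin V => T.π'.val ((tower D (replicate n []) V).2.getD i [])) f)
    {J : ℕ} (hJ : J < n ^ V) : π.val (chunk D a J) = f.coeff (exps n V J) := by
  rw [eval_trunc (n := n) T.inc (fun i => T.π'.val ((tower D (replicate n []) V).2.getD i []))
    (fun i hi => root_pow T hi), T.expand, length_replicate] at ha
  have h := T.indep fun J => π.val (chunk D a J) - f.coeff (exps n V J)
  rw [length_replicate] at h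
  refine sub_eq_zero.1 (h ?_ J hJ)
  simp only [map_sub, sub_mul, Finset.sum_sub_distrib]
  exact sub_eq_zero.2 ha

theorem Tow.trunc_one {π : Pres D R} {n : ℕ} (T : Tow π (replicate n []) 1 R')
    (f : R[X]) {a : El} (ha : T.π'.val a =
      f.eval₂ T.inc (T.π'.val ((tower D (replicate n []) 1).2.getD 0 [])))
    {e : ℕ} (he : e < n) : π.val (chunk D a e) = f.coeff e := by
  have hy := root_pow T Nat.one_pos
  have h := T.indep fun J => π.val (chunk D a J) - f.coeff J
  rw [T.expand] at ha
  rw [length_replicate, pow_one] at h ha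
  refine sub_eq_zero.1 (h ?_ e he)
  simp only [map_sub, sub_mul, Finset.sum_sub_distrib]
  rw [ha, sub_eq_zero, eval₂_eq_sum_range' T.inc (n := n + (f.natDegree + 1)) (by omega),
    Finset.sum_range_add, Finset.sum_eq_zero (s := Finset.range (f.natDegree + 1))
      fun i _ => by rw [pow_add, hy, zero_mul, mul_zero], add_zero]
  refine Finset.sum_congr rfl fun J hJ => ?_
  rw [Finset.prod_range_one, dig, pow_zero, Nat.div_one, Nat.mod_eq_of_lt (Finset.mem_range.1 hJ)]

/-- A polynomial of small degree is the sum of its monomials with digit exponents. -/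
theorem eq_sum_exps {n V : ℕ} (f : MvPolynomial (Fin V) R) (hf : f.totalDegree < n) :
    f = ∑ J ∈ Finset.range (n ^ V), MvPolynomial.monomial (exps n V J) (f.coeff (exps n V J)) := by
  classical
  ext m
  rw [MvPolynomial.coeff_sum]
  by_cases hm : ∀ i, m i < n
  · obtain ⟨J, hJ, rfl⟩ := exists_exps hm
    rw [Finset.sum_eq_single_of_mem J (Finset.mem_range.2 hJ)]
    · rw [MvPolynomial.coeff_monomial, if_pos rfl]
    · intro J' hJ' hne
      rw [MvPolynomial.coeff_monomial, if_neg fun h => hne (exps_inj (Finset.mem_range.1 hJ') hJ h)]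
  · push Not at hm
    obtain ⟨i, hi⟩ := hm
    have h0 : f.coeff m = 0 := by
      by_contra h
      have h1 := MvPolynomial.degreeOf_le_totalDegree f i
      have h2 := MvPolynomial.monomial_le_degreeOf i (MvPolynomial.mem_support_iff.2 h)
      omega
    rw [h0]
    refine (Finset.sum_eq_zero fun J _ => ?_).symm
    rw [MvPolynomial.coeff_monomial]
    split_ifs with h
    · rw [h, h0]
    · rfl

end Pool.Agent.MP_cce4c9_lc.H87
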