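import Pool.Agent.MP_cce4c9_lc.H87.KitA

/-! Semantics of `adjoin` and `tower`. -/

set_option autoImplicit false

open List Polynomial

namespace Pool.Agent.MP_cce4c9_lc.H87

variable {D : Ds} {R : Type} [CommRing R]

namespace KTow

theorem sum_range_mul {M : Type} [AddCommMonoid M] (n m : ℕ) (F : ℕ → M) :
    ∑ K ∈ Finset.range (n * m), F K =
      ∑ j ∈ Finset.range m, ∑ i ∈ Finset.range n, F (n * j + i) := by
  induction m with
  | zero => simp
  | succ m ih => rw [Nat.mul_succ, Finset.sum_range_add, ih, Finset.sum_range_succ]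

theorem getD_chunk (D : Ds) (a : El) (j : ℕ) {i : ℕ} (hi : i < dim D) :
    (chunk D a j).getD i 0 = a.getD (dim D * j + i) 0 := by
  simp only [chunk, dim, getD_eq_getElem?_getD] at hi ⊢
  rw [getElem?_take_of_lt hi, getElem?_drop]

theorem chunk_flatten (D : Ds) (L : List El) (hL : ∀ x ∈ L, x.length = dim D) (j : ℕ) :
    chunk D L.flatten j = L.getD j [] := by
  induction L generalizing j with
  | nil => simp [chunk]
  | cons x L ih =>
    have hx : x.length = D.2.length := hL x mem_cons_self
    cases j with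
    | zero => simp [chunk, ← hx]
    | succ j =>
      rw [getD_cons_succ, ← ih (fun y hy => hL y (mem_cons_of_mem _ hy)) j, chunk, chunk,
        flatten_cons, Nat.mul_succ, Nat.add_comm, ← drop_drop, ← hx, drop_left]

theorem length_flat (L : List El) {n : ℕ} (hL : ∀ x ∈ L, x.length = n) :
    L.flatten.length = n * L.length := by
  induction L with
  | nil => simp
  | cons x L ih =>
    rw [flatten_cons, length_append, ih fun y hy => hL y (mem_cons_of_mem _ hy),
      hL x mem_cons_self, length_cons]
    ring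

theorem chunk_chunk (D E : Ds) {M : ℕ} (hE : dim E = dim D * M) (a : El) (e : ℕ) {ω : ℕ}
    (hω : ω < M) : chunk D (chunk E a e) ω = chunk D a (M * e + ω) := by
  simp only [chunk, dim] at hE ⊢
  have h1 : D.2.length ≤ D.2.length * M - D.2.length * ω := by
    have := Nat.mul_le_mul_left D.2.length (Nat.succ_le_of_lt hω)
    rw [Nat.mul_succ] at this
    omega
  rw [hE, drop_take, take_take, min_eq_left h1, drop_drop, Nat.mul_add, Nat.mul_assoc]

theorem getD_range_map {α : Type} {m j : ℕ} (hj : j < m) (f : ℕ → α) (d : α) :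
    ((range m).map f).getD j d = f j := by
  simp [getD_eq_getElem?_getD, hj]

theorem shift_ok (D : Ds) (h v : List El) :
    (shift D h v).length = h.length ∧ ∀ x ∈ shift D h v, x.length = dim D := by
  refine ⟨by simp [shift], fun x hx => ?_⟩
  obtain ⟨j, -, rfl⟩ := mem_map.1 hx
  exact length_sub _ _ _

theorem xpow_ok (D : Ds) (h : List El) (e : ℕ) :
    (xpow D h e).length = h.length ∧ ∀ x ∈ xpow D h e, x.length = dim D := by
  rw [xpow]
  cases min e (2 * h.length) with
  | zero =>
    refine ⟨by simp, fun x hx => ?_⟩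
    obtain ⟨j, -, rfl⟩ := mem_map.1 hx
    split_ifs <;> exact length_cst _ _
  | succ n => rw [Function.iterate_succ_apply']; exact shift_ok _ _ _

theorem dim_adjoin (D : Ds) (h : List El) : dim (adjoin D h) = dim D * h.length :=
  length_mat _ _ _

theorem length_root (D : Ds) (h : List El) : (root D h).length = dim (adjoin D h) := by
  rw [root, length_flat _ (xpow_ok D h 1).2, (xpow_ok D h 1).1, dim_adjoin]

section Ev

variable {S : Type} [CommRing S] {φ : El → S} {h : List El} {ρ : S}

theorem ev_shift (hφ : Hm D φ) (hh : h ≠ [])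
    (hρ : ρ ^ h.length + ∑ j ∈ Finset.range h.length, φ (h.getD j []) * ρ ^ j = 0) (v : List El) :
    ∑ j ∈ Finset.range h.length, φ ((shift D h v).getD j []) * ρ ^ j =
      ρ * ∑ j ∈ Finset.range h.length, φ (v.getD j []) * ρ ^ j := by
  obtain ⟨m, hm⟩ : ∃ m, h.length = m + 1 := ⟨h.length - 1, by
    have := length_pos_iff.2 hh; omega⟩
  have h1 : ∀ j ∈ Finset.range h.length, φ ((shift D h v).getD j []) * ρ ^ j =
      φ (if j = 0 then cst D 0 else v.getD (j - 1) []) * ρ ^ j -
        φ (v.getD m []) * (φ (h.getD j []) * ρ ^ j) := fun j hj => by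
    rw [shift, getD_range_map (Finset.mem_range.1 hj), hφ.sub, hφ.mul, hm, Nat.add_sub_cancel]
    ring
  rw [Finset.sum_congr rfl h1, Finset.sum_sub_distrib, ← Finset.mul_sum,
    eq_neg_of_add_eq_zero_right hρ, hm, Finset.sum_range_succ', Finset.sum_range_succ,
    if_pos rfl, hφ.cst, mul_add, Finset.mul_sum]
  have h2 : ∀ j ∈ Finset.range m, φ (if j + 1 = 0 then cst D 0 else v.getD (j + 1 - 1) []) *
      ρ ^ (j + 1) = ρ * (φ (v.getD j []) * ρ ^ j) := fun j _ => by
    rw [if_neg j.succ_ne_zero, Nat.add_sub_cancel]; ring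
  rw [Finset.sum_congr rfl h2]
  push_cast
  ring

theorem ev_xpow (hφ : Hm D φ) (hh : h ≠ [])
    (hρ : ρ ^ h.length + ∑ j ∈ Finset.range h.length, φ (h.getD j []) * ρ ^ j = 0) {e : ℕ}
    (he : e ≤ 2 * h.length) :
    ∑ j ∈ Finset.range h.length, φ ((xpow D h e).getD j []) * ρ ^ j = ρ ^ e := by
  rw [xpow, min_eq_left he]
  clear he
  induction e with
  | zero =>
    rw [Function.iterate_zero_apply, Finset.sum_eq_single 0]
    · rw [getD_range_map (length_pos_iff.2 hh), if_pos rfl, hφ.cst]; simp
    · intro j hj h0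
      rw [getD_range_map (Finset.mem_range.1 hj), if_neg h0, hφ.cst]; simp
    · intro h0; exact absurd (Finset.mem_range.2 (length_pos_iff.2 hh)) h0
  | succ e ih => rw [Function.iterate_succ_apply', ev_shift hφ hh hρ, ih, pow_succ']

end Ev

theorem eval₂_toM {S T : Type} [CommRing S] [CommRing T] (φ : El → S) (P : S →+* T) (h : List El)
    (ρ : T) : (toM φ h).eval₂ P ρ =
      ρ ^ h.length + ∑ j ∈ Finset.range h.length, P (φ (h.getD j [])) * ρ ^ j := by
  simp [toM, toP, eval₂_add, eval₂_finsetSum]

theorem nontriv (π : Pres D R) : Nontrivial R := by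
  by_contra H
  rw [not_nontrivial_iff_subsingleton] at H
  exact π.prime.one_lt.ne' (Nat.dvd_one.1 (π.indep (fun _ => 1) (Subsingleton.elim _ _) 0 π.pos))

/-- A root whose powers below the degree form a basis. -/
structure Rt (π : Pres D R) (h : List El) (R' : Type) [CommRing R'] where
  /-- the inclusion -/
  inc : R →+* R'
  /-- the root -/
  ρ : R'
  isRoot : (toM π.val h).eval₂ inc ρ = 0
  indep : ∀ c : ℕ → R, ∑ j ∈ Finset.range h.length, inc (c j) * ρ ^ j = 0 →
    ∀ j < h.length, c j = 0
  span : ∀ r : R', ∃ c : ℕ → R, r = ∑ j ∈ Finset.range h.length, inc (c j) * ρ ^ j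
  univ : ∀ (S : Type) [CommRing S] (φ : R →+* S) (y : S), (toM π.val h).eval₂ φ y = 0 →
    ∃ φ' : R' →+* S, (∀ r, φ' (inc r) = φ r) ∧ φ' ρ = y

theorem mk_sum (f : R[X]) (m : ℕ) (c : ℕ → R) :
    AdjoinRoot.mk f (∑ j ∈ Finset.range m, C (c j) * X ^ j) =
      ∑ j ∈ Finset.range m, AdjoinRoot.of f (c j) * AdjoinRoot.root f ^ j := by
  simp [map_sum]

/-- `AdjoinRoot` of the monic polynomial. -/
noncomputable def rt (π : Pres D R) (h : List El) : Rt π h (AdjoinRoot (toM π.val h)) where
  inc := AdjoinRoot.of _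
  ρ := AdjoinRoot.root _
  isRoot := AdjoinRoot.eval₂_root _
  indep := fun c hc j hj => by
    have := nontriv π
    rw [← mk_sum, AdjoinRoot.mk_eq_zero] at hc
    have h1 : (∑ j ∈ Finset.range h.length, C (c j) * X ^ j).degree < (toM π.val h).degree := by
      rw [degree_eq_natDegree (toM_monic _ _).ne_zero, toM_natDegree]
      rw [Finset.sum_range fun j => C (c j) * X ^ j]
      exact degree_sum_fin_lt fun j : Fin h.length => c j
    have h2 : ∑ j ∈ Finset.range h.length, C (c j) * X ^ j = 0 := by
      by_contra h0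
      exact (toM_monic _ _).not_dvd_of_degree_lt h0 h1 hc
    have h3 := congrArg (fun q => q.coeff j) h2
    simpa [finsetSum_coeff, coeff_C_mul, coeff_X_pow, hj] using h3
  span := fun r => by
    have := nontriv π
    obtain ⟨q, rfl⟩ := AdjoinRoot.mk_surjective r
    refine ⟨fun j => (q %ₘ toM π.val h).coeff j, ?_⟩
    have h1 : (q %ₘ toM π.val h).degree < h.length := by
      have := degree_modByMonic_lt q (toM_monic π.val h)
      rwa [degree_eq_natDegree (toM_monic π.val h).ne_zero, toM_natDegree] at this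
    rw [← mk_sum, AdjoinRoot.mk_eq_mk]
    have h2 : ∑ j ∈ Finset.range h.length, C ((q %ₘ toM π.val h).coeff j) * X ^ j =
        q %ₘ toM π.val h := by
      ext i
      by_cases hi : i < h.length
      · simp [coeff_C_mul, coeff_X_pow, hi]
      · have : (q %ₘ toM π.val h).coeff i = 0 :=
          coeff_eq_zero_of_degree_lt (h1.trans_le (by exact_mod_cast not_lt.1 hi))
        simp [coeff_C_mul, coeff_X_pow, hi, this]
    rw [h2]
    exact ⟨q /ₘ toM π.val h, by rw [sub_eq_iff_eq_add', modByMonic_add_div]⟩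
  univ := fun S _ φ y hy => ⟨AdjoinRoot.lift φ y hy, fun r => AdjoinRoot.lift_of hy,
    AdjoinRoot.lift_root hy⟩

variable {π : Pres D R} {h : List El} {R' : Type} [CommRing R']

/-- The basis of the extension. -/
def Rt.bs (T : Rt π h R') (I : ℕ) : R' := T.inc (π.b (I % dim D)) * T.ρ ^ (I / dim D)

theorem Rt.sum_bs (T : Rt π h R') (c : ℕ → ℕ) :
    ∑ K ∈ Finset.range (dim (adjoin D h)), (c K : R') * T.bs K =
      ∑ j ∈ Finset.range h.length,
        T.inc (∑ i ∈ Finset.range (dim D), (c (dim D * j + i) : R) * π.b i) * T.ρ ^ j := by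
  rw [dim_adjoin, sum_range_mul]
  refine Finset.sum_congr rfl fun j _ => ?_
  rw [map_sum, Finset.sum_mul]
  refine Finset.sum_congr rfl fun i hi => ?_
  have hi' := Finset.mem_range.1 hi
  rw [Rt.bs, Nat.mul_add_mod, Nat.mod_eq_of_lt hi', Nat.mul_add_div π.pos, Nat.div_eq_of_lt hi',
    map_mul, map_natCast, add_zero, mul_assoc]

theorem Rt.sum_getD (T : Rt π h R') (a : El) :
    ∑ K ∈ Finset.range (dim (adjoin D h)), (a.getD K 0 : R') * T.bs K =
      ∑ j ∈ Finset.range h.length, T.inc (π.val (chunk D a j)) * T.ρ ^ j := by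
  rw [T.sum_bs fun K => a.getD K 0]
  refine Finset.sum_congr rfl fun j _ => ?_
  refine congrArg (fun r => T.inc r * T.ρ ^ j) (Finset.sum_congr rfl fun i hi => ?_)
  rw [getD_chunk D a j (Finset.mem_range.1 hi)]

theorem Rt.xp (T : Rt π h R') (hh : h ≠ []) {e : ℕ} (he : e ≤ 2 * h.length) :
    ∑ j ∈ Finset.range h.length, T.inc (π.val ((xpow D h e).getD j [])) * T.ρ ^ j = T.ρ ^ e :=
  ev_xpow (π.hm.comp T.inc) hh ((eval₂_toM _ _ _ _).symm.trans T.isRoot) he

/-- The presentation of the extension. -/
def Rt.pres (T : Rt π h R') (hh : h ≠ []) : Pres (adjoin D h) R' where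
  b := T.bs
  prime := π.prime
  char := by
    have := congrArg T.inc π.char
    rwa [map_natCast, map_zero] at this
  pos := by rw [dim_adjoin]; exact Nat.mul_pos π.pos (length_pos_iff.2 hh)
  one := by simp [Rt.bs, π.one]
  tab := fun I hI J hJ => by
    rw [T.sum_getD]
    rw [dim_adjoin] at hI hJ
    have hI' : I / dim D < h.length := Nat.div_lt_of_lt_mul hI
    have hJ' : J / dim D < h.length := Nat.div_lt_of_lt_mul hJ
    have h1 : ent (adjoin D h).2 I J = ((xpow D h (I / dim D + J / dim D)).map
        (mul D (ent D.2 (I % dim D) (J % dim D)))).flatten := ent_mat _ hI hJ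
    have h2 : ∀ j ∈ Finset.range h.length,
        T.inc (π.val (chunk D (ent (adjoin D h).2 I J) j)) * T.ρ ^ j =
          T.inc (π.b (I % dim D) * π.b (J % dim D)) *
            (T.inc (π.val ((xpow D h (I / dim D + J / dim D)).getD j [])) * T.ρ ^ j) := by
      intro j hj
      have hj' : j < (xpow D h (I / dim D + J / dim D)).length := by
        rw [(xpow_ok D h _).1]; exact Finset.mem_range.1 hj
      rw [h1, chunk_flatten D _ (fun x hx => by
          obtain ⟨y, -, rfl⟩ := mem_map.1 hx
          exact length_mul _ _ _),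
        getD_eq_getElem _ _ (by rwa [length_map]), getElem_map, π.hm.mul,
        getD_eq_getElem _ _ hj', π.tab _ (Nat.mod_lt _ π.pos) _ (Nat.mod_lt _ π.pos), map_mul,
        mul_assoc]
      rfl
    rw [Finset.sum_congr rfl h2, ← Finset.mul_sum, T.xp hh (by omega), Rt.bs, Rt.bs, map_mul]
    ring
  indep := fun c hc K hK => by
    rw [T.sum_bs] at hc
    rw [dim_adjoin] at hK
    have h1 := π.indep (fun i => c (dim D * (K / dim D) + i))
      (T.indep _ hc _ (Nat.div_lt_of_lt_mul hK)) _ (Nat.mod_lt K π.pos)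
    rwa [Nat.div_add_mod] at h1
  span := fun r => by
    obtain ⟨c, rfl⟩ := T.span r
    choose d hd using fun j => π.span (c j)
    refine ⟨fun K => d (K / dim D) (K % dim D), ?_⟩
    rw [T.sum_bs]
    refine Finset.sum_congr rfl fun j _ => ?_
    refine congrArg (fun r => T.inc r * T.ρ ^ j)
      ((hd j).trans (Finset.sum_congr rfl fun i hi => ?_))
    rw [Nat.mul_add_mod, Nat.mod_eq_of_lt (Finset.mem_range.1 hi), Nat.mul_add_div π.pos,
      Nat.div_eq_of_lt (Finset.mem_range.1 hi), add_zero]

theorem Rt.expand (T : Rt π h R') (hh : h ≠ []) (a : El) : (T.pres hh).val a =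
    ∑ j ∈ Finset.range h.length, T.inc (π.val (chunk D a j)) * T.ρ ^ j := T.sum_getD a

theorem Rt.val_root (T : Rt π h R') (hh : h ≠ []) : (T.pres hh).val (root D h) = T.ρ := by
  have := length_pos_iff.2 hh
  rw [T.expand, root, Finset.sum_congr rfl fun j _ => by rw [chunk_flatten D _ (xpow_ok D h 1).2],
    T.xp hh (by omega), pow_one]

theorem Rt.val_inc (T : Rt π h R') (hh : h ≠ []) {a : El} (ha : a.length ≤ dim D) :
    (T.pres hh).val a = T.inc (π.val a) := by
  rw [T.expand, Finset.sum_eq_single 0]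
  · rw [pow_zero, mul_one, ← π.val_take a]; simp [chunk, dim]
  · intro j _ h0
    have h1 : a.length ≤ D.2.length * j :=
      ha.trans (Nat.le_mul_of_pos_right _ (Nat.pos_of_ne_zero h0))
    rw [chunk, drop_eq_nil_of_le h1, take_nil, π.hm.nil, map_zero, zero_mul]
  · intro h0; exact absurd (Finset.mem_range.2 (length_pos_iff.2 hh)) h0

/-- The empty tower. -/
def towZero (π : Pres D R) (h : List El) : Tow π h 0 R where
  π' := π
  inc := RingHom.id R
  ch := rfl
  dm := by simp [tower]
  len := rfl
  rlen := fun i => by simp [tower]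
  val_inc := fun _ _ => rfl
  isRoot := fun i hi => absurd hi (Nat.not_lt_zero i)
  expand := fun a => by
    refine (π.val_take a).symm.trans ?_
    simp [chunk, dim]
  indep := fun c hc J hJ => by
    obtain rfl : J = 0 := by simpa using hJ
    simpa using hc
  univ := fun S _ φ y _ => ⟨φ, fun _ => rfl, fun i hi => absurd hi (Nat.not_lt_zero i)⟩

variable {V : ℕ} {R'' : Type} [CommRing R'']

theorem toM_take (W : Tow π h V R') :
    toM W.π'.val (h.map fun a => a.take D.2.length) = (toM π.val h).map W.inc := by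
  rw [toM_map, toM, toM, toP, toP, length_map]
  refine congrArg _ (Finset.sum_congr rfl fun j hj => ?_)
  have hj' := Finset.mem_range.1 hj
  rw [getD_eq_getElem _ _ (by rwa [length_map]), getElem_map, getD_eq_getElem _ _ hj']
  exact congrArg (fun r => C r * X ^ j)
    ((W.val_inc _ (length_take_le _ _)).trans (congrArg W.inc (π.val_take h[j])))

/-- One more root. -/
def towSucc (hh : h ≠ []) (W : Tow π h V R')
    (T : Rt W.π' (h.map fun a => a.take D.2.length) R'') : Tow π h (V + 1) R'' :=
  have hg : (h.map fun a => a.take D.2.length) ≠ [] := by simpa using hh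
  have hm : 0 < h.length := length_pos_iff.2 hh
  have hold : ∀ i < V, (tower D h (V + 1)).2.getD i [] = (tower D h V).2.getD i [] := fun i hi =>
    getD_append _ _ _ _ (by rwa [W.len])
  have hnew : (tower D h (V + 1)).2.getD V [] =
      root (tower D h V).1 (h.map fun a => a.take D.2.length) := by
    rw [tower, getD_append_right _ _ _ _ W.len.le, W.len, Nat.sub_self]; rfl
  have vold : ∀ i < V, (T.pres hg).val ((tower D h (V + 1)).2.getD i []) =
      T.inc (W.π'.val ((tower D h V).2.getD i [])) := fun i hi => by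
    rw [hold i hi, T.val_inc hg (W.rlen i)]
  have vnew : (T.pres hg).val ((tower D h (V + 1)).2.getD V []) = T.ρ := by
    rw [hnew, T.val_root]
  have hsum : ∀ c : ℕ → R, ∑ J ∈ Finset.range (h.length ^ (V + 1)), T.inc (W.inc (c J)) *
      ∏ i ∈ Finset.range (V + 1),
        (T.pres hg).val ((tower D h (V + 1)).2.getD i []) ^ dig h.length J i =
      ∑ e ∈ Finset.range (h.map fun a => a.take D.2.length).length,
        T.inc (∑ ω ∈ Finset.range (h.length ^ V), W.inc (c (h.length ^ V * e + ω)) *
          ∏ i ∈ Finset.range V, W.π'.val ((tower D h V).2.getD i []) ^ dig h.length ω i) *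
            T.ρ ^ e := fun c => by
    rw [pow_succ, sum_range_mul, length_map]
    refine Finset.sum_congr rfl fun e he => ?_
    rw [map_sum, Finset.sum_mul]
    refine Finset.sum_congr rfl fun ω hω => ?_
    obtain ⟨d1, d2⟩ := dig_top (Finset.mem_range.1 hω) (Finset.mem_range.1 he)
    rw [Nat.add_comm] at d1 d2
    rw [Finset.prod_range_succ, vnew, d1, map_mul, map_prod, mul_assoc,
      Finset.prod_congr rfl fun i hi => by
        rw [vold i (Finset.mem_range.1 hi), d2 i (Finset.mem_range.1 hi), ← map_pow]]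
  { π' := T.pres hg
    inc := T.inc.comp W.inc
    ch := W.ch
    dm := by rw [tower, dim_adjoin, W.dm, length_map, pow_succ, mul_assoc]
    len := by rw [tower, length_append, W.len]; rfl
    rlen := fun i => by
      rcases lt_trichotomy i V with hi | rfl | hi
      · rw [hold i hi, tower, dim_adjoin, length_map]
        exact (W.rlen i).trans (Nat.le_mul_of_pos_right _ hm)
      · rw [hnew, length_root]; exact le_rfl
      · rw [getD_eq_default _ _ (by rw [tower, length_append, W.len]; exact hi)]
        exact Nat.zero_le _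
    val_inc := fun a ha => by
      have h1 : a.length ≤ dim (tower D h V).1 := by
        rw [W.dm]; exact ha.trans (Nat.le_mul_of_pos_right _ (Nat.pow_pos hm))
      exact (T.val_inc hg h1).trans (congrArg T.inc (W.val_inc a ha))
    isRoot := fun i hi => by
      rcases Nat.lt_succ_iff_lt_or_eq.1 hi with hi | rfl
      · refine (congrArg (fun y => (toM π.val h).eval₂ (T.inc.comp W.inc) y) (vold i hi)).trans ?_
        rw [← hom_eval₂, W.isRoot i hi, map_zero]
      · refine (congrArg (fun y => (toM π.val h).eval₂ (T.inc.comp W.inc) y) vnew).trans ?_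
        rw [← eval₂_map, ← toM_take W, T.isRoot]
    expand := fun a => by
      refine (T.expand hg a).trans (Eq.trans ?_ (hsum fun J => π.val (chunk D a J)).symm)
      refine Finset.sum_congr rfl fun e _ => ?_
      rw [W.expand, Finset.sum_congr rfl fun ω hω => by
        rw [chunk_chunk D _ W.dm a e (Finset.mem_range.1 hω)]]
    indep := fun c hc J hJ => by
      have hp : 0 < h.length ^ V := Nat.pow_pos hm
      have h1 := T.indep _ ((hsum c).symm.trans hc) (J / h.length ^ V)
        (by rw [length_map]; exact Nat.div_lt_of_lt_mul (by rwa [← pow_succ]))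
      have h2 := W.indep (fun ω => c (h.length ^ V * (J / h.length ^ V) + ω)) h1 _
        (Nat.mod_lt J hp)
      rwa [Nat.div_add_mod] at h2
    univ := fun S _ φ y hy => by
      obtain ⟨φ₁, e1, e2⟩ := W.univ S φ y fun i hi => hy i (Nat.lt_succ_of_lt hi)
      obtain ⟨φ₂, e3, e4⟩ := T.univ S φ₁ (y V) (by
        rw [toM_take W, eval₂_map, show φ₁.comp W.inc = φ from RingHom.ext e1]
        exact hy V V.lt_succ_self)
      refine ⟨φ₂, fun r => (e3 _).trans (e1 r), fun i hi => ?_⟩
      rcases Nat.lt_succ_iff_lt_or_eq.1 hi with hi | rfl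
      · exact (congrArg φ₂ (vold i hi)).trans ((e3 _).trans (e2 i hi))
      · exact (congrArg φ₂ vnew).trans e4 }

end KTow

/-- Induction on `V`; the step is `AdjoinRoot` of the monic polynomial, with the basis
`b (I % n) * root ^ (I / n)`. -/
theorem exists_tow (π : Pres D R) {h : List El} (hh : h ≠ []) (V : ℕ) :
    ∃ (R' : Type) (_ : CommRing R'), Nonempty (Tow π h V R') := by
  induction V with
  | zero => exact ⟨R, inferInstance, ⟨KTow.towZero π h⟩⟩
  | succ V ih =>
    obtain ⟨R', _, ⟨W⟩⟩ := ih
    exact ⟨_, inferInstance, ⟨KTow.towSucc hh W (KTow.rt W.π' _)⟩⟩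

end Pool.Agent.MP_cce4c9_lc.H87
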