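import Pool.Agent.MP_cce4c9_lc.H87.DefsQ
import Pool.Agent.MP_cce4c9_lc.H7.Spec

/-!
Statements about the curve `f(x_0) = ... = f(x_(m-1)) = t`.
-/

set_option autoImplicit false

open WithZero Polynomial Finset

namespace Pool.Agent.MP_cce4c9_lc.H87

/-- Extension by zero. -/
def ex {R : Type} [Zero R] {v : ℕ} (a : Fin v → R) (i : ℕ) : R := if h : i < v then a ⟨i, h⟩ else 0

/-- The exponent that extracts `l`-th roots of one-units modulo `s ^ n`. -/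
def Ex (l p n : ℕ) : ℕ := (1 + (l - 1) * p ^ ((l - 1) * n)) / l

namespace Cv

variable {k : Type} [Field k] {d m : ℕ} {f : k[X]} (C : Cv k d m f)

/-- Places, degrees and approximation on the ring of the curve. -/
structure QA : Prop where
  res : ∀ v : Place k C.Q, v.Res
  fins : ∀ y : C.Q, (Function.support fun v : Place k C.Q => v.ord y).Finite
  unit : ∀ y : C.Q, (∀ v : Place k C.Q, 1 < v.val C.t → v.val y ≠ 0) → IsUnit y
  zero : ∀ y : C.Q, (∀ v : Place k C.Q, 1 < v.val C.t → v.val y = 0) → y = 0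
  inf : ∃ v : Place k C.Q, 1 < v.val C.t
  deg : ∀ u : C.Qˣ, (dv k (u : C.Q)).degree = 0
  pole : C.Dinf.degree = (d ^ m : ℕ)
  apx : ∀ (S : Finset (Place k C.Q)) (a : Place k C.Q → C.Q), (∀ v ∈ S, v.val (a v) ≠ 0) →
    ∃ u : C.Qˣ, ∀ v ∈ S, v.val ((u : C.Q) - a v) < v.val (a v)
  zer : ∀ (D : Dv k C.Q) (w : C.Q) (κ : k) (v₀ : Place k C.Q) (S : Finset (Place k C.Q)),
    0 ≤ D → w ∈ LL D → v₀.val (w - algebraMap k C.Q κ) ≠ 0 →
    (∀ v ∈ S, C.Same v v₀ ∧ v.val (w - algebraMap k C.Q κ) < 1) → (S.card : ℤ) ≤ D.degree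
  lies : ∀ (v₀ : Place k C.Q) (c : k), ∃ v, C.Same v v₀ ∧ v.val (C.t - algebraMap k C.Q c) < 1
  pb : ∀ (Ω : Type) [Field Ω] [Algebra k Ω] [Algebra (RatFunc k) Ω]
    [IsScalarTower k (RatFunc k) Ω] (φ : C.Q →ₐ[RatFunc k] Ω) (O : ValuationSubring Ω),
    (∀ c : k, algebraMap k Ω c ∈ O) → (∃ r : RatFunc k, algebraMap (RatFunc k) Ω r ∉ O) →
    ∃ v : Place k C.Q, ∀ y, (v.val y ≤ 1 ↔ φ y ∈ O) ∧ (v.val y < 1 ↔ O.valuation (φ y) < 1)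

/-- The filtration by degree, the two coordinate rings, and their local behaviour. -/
structure HA : Prop where
  ind : ∀ n c, C.rec' n c = 0 → ∀ J < d ^ m, ∀ e < n, c e J = 0
  indh : ∀ N c, C.hat N c = 0 → ∀ J < d ^ m, ∀ e, e + ds d m J ≤ N → c e J = 0
  memF : ∀ N y, y ∈ C.FN N ↔ ∃ c, y = C.hat N c
  mulF : ∀ N N' y y', y ∈ C.FN N → y' ∈ C.FN N' → y * y' ∈ C.FN (N + N')
  oneF : (1 : C.Q) ∈ C.FN 0
  monoF : ∀ N N', N ≤ N' → C.FN N ≤ C.FN N'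
  powF : ∀ N y n, y ∈ C.FN N → y ^ n ∈ C.FN (n * N)
  memI : ∀ y, y ∈ C.AI ↔ ∃ N, y ∈ C.FN N
  memA : ∀ y, y ∈ C.AA ↔ ∃ N, y * C.s ^ N ∈ C.FN N
  trunc : ∀ n c, (∃ r ∈ C.AI, C.rec' n c = C.s ^ n * r) → ∀ J < d ^ m, ∀ e < n, c e J = 0
  truncF : ∀ N n y, N < n → y ∈ C.FN N → (∃ r ∈ C.AI, y = C.s ^ n * r) → y = 0
  hat_rec : ∀ N n c, N < n →
    C.hat N c = C.rec' n fun e J => if e + ds d m J ≤ N then c e J else 0
  degI : ∀ N y, y ∈ C.AA → y * C.s ^ N ∈ C.AI → y * C.s ^ N ∈ C.FN N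
  dlF : C.dlh ∈ C.FN (w0 d m)
  dlU : IsUnit C.dl
  dlh_eq : C.dlh = ∏ i ∈ range m, ∑ j ∈ range d,
    algebraMap k C.Q ((derivative f).coeff j) * C.s ^ (d - 1 - j) * C.Y i ^ j
  eqY : ∀ i < m, C.Y i ^ d + ∑ j ∈ range d,
    algebraMap k C.Q (f.coeff j) * C.s ^ (d - j) * C.Y i ^ j = C.s ^ (d - 1)
  nil : ∀ i < m, ∃ r ∈ C.AI, C.Y i ^ d = C.s * r
  psi_eq : ∀ N c, C.psi N c = ∑ J ∈ range (d ^ m), ∑ e ∈ range (N + 1 - ds d m J),
    algebraMap k C.Q (c e J) * (C.t ^ (N - e - ds d m J) * ∏ i ∈ range m, C.x i ^ dig d J i)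
  psi_hat : ∀ N c, C.psi N c * C.s ^ N = C.hat N c
  tA : C.t ∈ C.AA
  dlA : C.dl ∈ C.AA
  finA : ∀ v : Place k C.Q, v.val C.t ≤ 1 → ∀ y ∈ C.AA, v.val y ≤ 1
  infI : ∀ v : Place k C.Q, 1 < v.val C.t → v.val C.s < 1 ∧ (∀ i < m, v.val (C.Y i) < 1) ∧
    v.val C.dlh < 1 ∧ (∀ y ∈ C.AI, v.val y ≤ 1) ∧
    ∀ N c, v.val (C.hat N c - algebraMap k C.Q (c 0 0)) < 1
  atA : ∀ y ∈ C.AA, ∀ a, ∃ c : k, ∀ v, C.At v a → v.val (y - algebraMap k C.Q c) < 1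
  atT : ∀ v a, C.At v a → v.val C.t ≤ 1 ∧ v.val (C.t - algebraMap k C.Q (f.eval (a 0))) < 1 ∧
    v.val (C.dl - algebraMap k C.Q (∏ i ∈ range m, (derivative f).eval (a i))) < 1 ∧
    ∀ i < m, f.eval (a i) = f.eval (a 0)
  at_ev : ∀ v : Place k C.Q, v.val C.t ≤ 1 → C.At v fun i => v.ev (C.x i)
  Dinf_apply : ∀ v : Place k C.Q, C.Dinf v = if 1 < v.val C.t then v.ord C.s else 0
  bad : {v | C.Bad v}.Finite ∧ {v | C.Bad v}.ncard ≤ w0 d m * d ^ m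
  infs : {v : Place k C.Q | 1 < v.val C.t}.Finite

/-- The different lies in the conductor, in both charts. -/
def CO : Prop :=
  (∀ y : C.Q, (∀ v : Place k C.Q, v.val C.t ≤ 1 → v.val y ≤ 1) → C.dl * y ∈ C.AA) ∧
  ∀ y : C.Q, (∀ v : Place k C.Q, 1 < v.val C.t → v.val y ≤ 1) →
    ∃ g : k[X], g.eval 0 ≠ 0 ∧ aeval C.s g * (C.dlh * y) ∈ C.AI

/-- Every point of the curve lies under a place. -/
def PL : Prop := ∀ a : ℕ → k, (∀ i < m, f.eval (a i) = f.eval (a 0)) → ∃ v, C.At v a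

/-- Unramified points: one place, and orders are read off from Taylor expansions. -/
def LO : Prop := ∀ a z : ℕ → k,
  (∀ i < m, f.eval (a i) = f.eval (a 0) ∧ z i * (derivative f).eval (a i) = 1) →
    ∃ v, C.At v a ∧ (∀ w, C.At w a → w = v) ∧ ∀ (L N n : ℕ) (c : ℕ → ℕ → k), n ≤ L →
      (v.val (C.psi N c) ≤ exp (-(n : ℤ)) ↔ ∀ r < n,
        ∑ J ∈ range (d ^ m), ∑ e ∈ range (N + 1 - ds d m J),
          c e J * (tcol f d m L a z (N - e - ds d m J) J).coeff r = 0)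

/-- Descent to the coordinate ring. -/
structure DE : Prop where
  int : ∀ g : Place k C.Q → k, (∀ v w a, C.Bad v → C.At v a → C.At w a → g v = g w) →
    ∃ y ∈ C.AA, ∀ v, C.Bad v → v.val (y - algebraMap k C.Q (g v)) < 1
  mem : ∀ (N : ℕ) (y : C.Q),
    (∃ a ∈ C.AA, ∀ v : Place k C.Q, v.val C.t ≤ 1 → v.val (y - a) ≤ v.val C.dl) →
    (∃ b ∈ C.AI, ∀ v : Place k C.Q, 1 < v.val C.t → v.val (y * C.s ^ N - b) ≤ v.val C.dlh) →
    y * C.s ^ N ∈ C.FN N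
  quo : ∀ (N N' : ℕ) (y : C.Q) (b : C.Qˣ), C.GG N' b → (b : C.Q) * C.s ^ N' ∈ C.FN N' →
    y * b * C.s ^ (N + N') ∈ C.FN (N + N') → (∀ v : Place k C.Q, v.val C.t ≤ 1 → v.val y ≤ 1) →
    y * C.s ^ N ∈ C.FN N
  root : ∀ (l N : ℕ) (y : C.Qˣ), (l : k) ≠ 0 → C.GG N y →
    (y : C.Q) ^ l * C.s ^ (l * N) ∈ C.FN (l * N) → (y : C.Q) * C.s ^ N ∈ C.FN N
  gg : ∀ (N : ℕ) (y : C.Q), y * C.s ^ N ∈ C.FN N →
    (∀ v : Place k C.Q, 1 < v.val C.t → v.val (y * C.s ^ N - 1) < 1) →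
    (∀ v, C.Bad v → v.val y = 1) → ∃ u : C.Qˣ, (u : C.Q) = y ∧ C.GG N u
  uniq : ∀ (n n' : ℤ) (u : C.Qˣ), C.GG n u → C.GG n' u → n = n'
  bad : ∀ (n : ℤ) (u : C.Qˣ), C.GG n u → ∀ v, C.Bad v → v.val (u : C.Q) = 1

/-- Jets at the bad and the infinite places are attained in degree `N0`. -/
def JE : Prop := ∀ (D : Dv k C.Q) (u : C.Qˣ) (n : ℕ), 0 < n →
  (n : ℤ) • D = dv k (u : C.Q) + ((n * N0 d m : ℕ) : ℤ) • C.Dinf →
  ∀ a : Place k C.Q → C.Q, (∀ v, C.Bad v ∨ 1 < v.val C.t → v.val (a v) ≤ exp (D v)) →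
    ∃ y ∈ LL D, (∀ v, C.Bad v → v.val (y - a v) ≤ exp (D v) * v.val C.dl) ∧
      ∀ v : Place k C.Q, 1 < v.val C.t → v.val (y - a v) ≤ exp (D v) * v.val C.dlh

/-- Every class has a reduced representative. -/
def STA (l : ℕ) : Prop := ∀ a : C.MM l, ∃ u : C.HH, C.Good l u.1 ∧ Hl.mk l u = a.1

/-- A reduced representative can be made rigid. -/
def STE (l : ℕ) : Prop := ∀ u : C.HH, C.Good l u.1 →
  ∃ u' : C.HH, C.Good l u'.1 ∧ C.Wz l u'.1 ∧ Hl.mk l u' = Hl.mk l u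

/-- A rigid representative in coordinates. -/
def PA (l : ℕ) : Prop := ∀ u : C.Qˣ, C.Good l u → C.Wz l u →
  ∃ (μ fx : ℕ → ℕ) (b : ℕ → k) (c : ℕ → ℕ → k), Pt d m μ fx ∧ Sol f d m l μ b c ∧
    Fix f d m fx b ∧ Uniq f d m l μ fx b ∧ (u : C.Q) = C.psi (l * N0 d m) c

open Classical in
/-- Solutions are reduced representatives. -/
def SO (l : ℕ) : Prop := ∀ (μ : ℕ → ℕ) (b : ℕ → k) (c : ℕ → ℕ → k),
  ∑ j ∈ range (mm d m), μ j = mm d m → Sol f d m l μ b c →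
    ∃ u : C.Qˣ, (u : C.Q) = C.psi (l * N0 d m) c ∧ C.Good l u ∧
      ∀ v : Place k C.Q, v.val C.t ≤ 1 →
        v.ord (u : C.Q) = (l * ∑ j ∈ range (mm d m) with C.At v (xs m b j), μ j : ℕ)

/-- There are finitely many rigid solutions. -/
def IS (_C : Cv k d m f) (l : ℕ) : Prop := ∀ μ fx : ℕ → ℕ, Pt d m μ fx → ∃ Z : Finset k,
  ∀ (b : ℕ → k) (c : ℕ → ℕ → k), Sol f d m l μ b c → Fix f d m fx b → Uniq f d m l μ fx b →
    ∀ i < 2 * m * mm d m, b i ∈ Z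

/-- The test for `l`-th powers. -/
def TQ (l p : ℕ) : Prop := ∀ (N n : ℕ) (u : C.HH) (g : ℕ → ℕ → k), C.GG ((l * N : ℕ) : ℤ) u.1 →
  (u.1 : C.Q) * C.s ^ (l * N) ∈ C.FN (l * N) → l * N < n →
  (∃ r ∈ C.AI, ((u.1 : C.Q) * C.s ^ (l * N)) ^ Ex l p (d * n) - C.rec' n g = C.s ^ n * r) →
    (Hl.mk l u = 0 ↔ ∀ J < d ^ m, ∀ e < n, N < e + ds d m J → g e J = 0)

/-- Properties of the two representation relations. -/
structure RL (l : ℕ) : Prop where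
  fn : ∀ c a a', C.Rp l c a → C.Rp l c a' → a = a'
  cg : ∀ c c' a, (∀ J < d ^ m, ∀ e, e + ds d m J ≤ l * N0 d m → c e J = c' e J) →
    C.Rp l c a → C.Rp l c' a
  fr : ∀ (q : ℕ) (σ : C.Aut), IsFrob q σ.1 → ∀ c a, C.Rp l c a →
    C.Rp l (fun e J => c e J ^ q) (actM l σ a)
  snd : ∀ (u : C.Qˣ) c, (u : C.Q) = C.psi (l * N0 d m) c → C.Good l u → ∃ a, C.Rp l c a
  fn0 : ∀ c a a', C.Rp0 l c a → C.Rp0 l c a' → a = a'
  cg0 : ∀ c c' a, (∀ J < d ^ m, ∀ e, e + ds d m J ≤ 2 * w0 d m → c e J = c' e J) →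
    C.Rp0 l c a → C.Rp0 l c' a
  fr0 : ∀ (q : ℕ) (σ : C.Aut), IsFrob q σ.1 → ∀ c a, C.Rp0 l c a →
    C.Rp0 l (fun e J => c e J ^ q) (act0 l σ a)
  iff0 : ∀ c, (∃ a, C.Rp0 l c a) ↔ C.hat (2 * w0 d m) c ^ l = C.dlh ^ l
  ex0 : ∀ a, ∃ c, C.Rp0 l c a ∧ ∀ e J, w0 d m < e ∨ d ^ m ≤ J → c e J = 0
  fin0 : ∃ Z : Finset k, ∀ c a, C.Rp0 l c a → ∀ J < d ^ m, ∀ e ≤ w0 d m, c e J ∈ Z
  tst0 : ∀ (n : ℕ) (c : ℕ → ℕ → ℕ → k) (a : ℕ → C.M0 l) (β : ℕ → ℕ),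
    (∀ i < n, C.Rp0 l (c i) (a i)) →
    (∏ i ∈ range n, C.hat (2 * w0 d m) (c i) ^ β i = C.dlh ^ ∑ i ∈ range n, β i ↔
      ∑ i ∈ range n, β i • a i = 0)

/-- The number of components that `σ` maps to themselves. -/
noncomputable def Cmp.nfix {C : Cv k d m f} (P : C.Cmp) (σ : C.Aut) : ℕ :=
  {i : P.I | ∀ y, P.φ i (σ.1.1 y) = 0 ↔ P.φ i y = 0}.ncard

end Cv

/-- The points of the affine curve that are fixed by the `q`-th power map. -/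
def ptsQ {k : Type} [Field k] (f : k[X]) (m q : ℕ) : Set (Fin m → k) :=
  {a | (∀ i j, f.eval (a i) = f.eval (a j)) ∧ ∀ i, a i ^ q = a i}

/-- The bad points among them. -/
def badQ {k : Type} [Field k] (f : k[X]) (m q : ℕ) : Set (Fin m → k) :=
  {a | a ∈ ptsQ f m q ∧ ∏ i, (derivative f).eval (a i) = 0}

open H7 Cv

/-- The curve exists, with its Frobenius. -/
def StmtMODEL : Prop := ∀ (k : Type) [Field k] [IsAlgClosed k] (p a d m : ℕ) [Fact p.Prime]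
  [CharP k p] (f : k[X]), 0 < m → 2 ≤ d → f.Monic → f.natDegree = d → derivative f ≠ 0 →
    (∀ i, f.coeff i ^ p ^ a = f.coeff i) →
    ∃ (C : Cv k d m f) (σ : C.Aut), IsFrob (p ^ a) σ.1

def StmtCMP : Prop := ∀ (k : Type) [Field k] [IsAlgClosed k] (d m : ℕ) (f : k[X])
  (C : Cv k d m f), Nonempty C.Cmp

def StmtQA : Prop := ∀ (k : Type) [Field k] [IsAlgClosed k] (d m : ℕ) (f : k[X])
  (C : Cv k d m f), C.Cmp → C.QA

def StmtHA : Prop := ∀ (k : Type) [Field k] [IsAlgClosed k] (d m : ℕ) (f : k[X])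
  (C : Cv k d m f), C.QA → C.HA

def StmtCO : Prop := ∀ (k : Type) [Field k] [IsAlgClosed k] (d m : ℕ) (f : k[X])
  (C : Cv k d m f), C.QA → C.HA → C.CO

def StmtPL : Prop := ∀ (k : Type) [Field k] [IsAlgClosed k] (d m : ℕ) (f : k[X])
  (C : Cv k d m f), C.QA → C.PL

def StmtLO : Prop := ∀ (k : Type) [Field k] [IsAlgClosed k] (d m : ℕ) (f : k[X])
  (C : Cv k d m f), C.QA → C.HA → C.PL → C.LO

def StmtDE : Prop := ∀ (k : Type) [Field k] [IsAlgClosed k] (p d m : ℕ) [Fact p.Prime] [CharP k p]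
  (f : k[X]) (C : Cv k d m f), C.QA → C.HA → C.CO → C.DE

def StmtJE : Prop := ∀ (k : Type) [Field k] [IsAlgClosed k] (d m : ℕ) (f : k[X])
  (C : Cv k d m f), C.Cmp → C.QA → C.HA → C.JE

def StmtSTA : Prop := ∀ (k : Type) [Field k] [IsAlgClosed k] (l p d m : ℕ) [Fact l.Prime]
  [Fact p.Prime] [CharP k p] (f : k[X]) (C : Cv k d m f), l ≠ p →
    C.QA → C.HA → C.DE → C.JE → C.STA l

def StmtSTE : Prop := ∀ (k : Type) [Field k] [IsAlgClosed k] (l p d m : ℕ) [Fact l.Prime]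
  [Fact p.Prime] [CharP k p] (f : k[X]) (C : Cv k d m f), C.QA → C.HA → C.DE → C.STE l

def StmtPA : Prop := ∀ (k : Type) [Field k] [IsAlgClosed k] (l p d m : ℕ) [Fact l.Prime]
  [Fact p.Prime] [CharP k p] (f : k[X]) (C : Cv k d m f), C.QA → C.HA → C.DE → C.LO → C.PA l

def StmtSO : Prop := ∀ (k : Type) [Field k] [IsAlgClosed k] (l d m : ℕ) [Fact l.Prime]
  (f : k[X]) (C : Cv k d m f), C.QA → C.HA → C.DE → C.LO → C.SO l

def StmtIS : Prop := ∀ (k : Type) [Field k] [IsAlgClosed k] (l p d m : ℕ) [Fact l.Prime]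
  [Fact p.Prime] [CharP k p] (f : k[X]) (C : Cv k d m f), l ≠ p → Finite (C.MM l) →
    C.QA → C.HA → C.DE → C.LO → C.SO l → C.IS l

def StmtTQ : Prop := ∀ (k : Type) [Field k] [IsAlgClosed k] (l p d m : ℕ) [Fact l.Prime]
  [Fact p.Prime] [CharP k p] (f : k[X]) (C : Cv k d m f), l ≠ p →
    C.QA → C.HA → C.DE → C.TQ l p

def StmtRL : Prop := ∀ (k : Type) [Field k] [IsAlgClosed k] (l d m : ℕ) [Fact l.Prime]
  (f : k[X]) (C : Cv k d m f), Finite (rootsOfUnity l C.Q) → C.QA → C.HA → C.DE → C.RL l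

/-- The trace formula on the disjoint union of the smooth models of the components. -/
def StmtVQ : Prop := ∀ (k : Type) [Field k] [IsAlgClosed k] (l p d m : ℕ) [Fact l.Prime]
  [Fact p.Prime] [CharP k p] (f : k[X]) (C : Cv k d m f) (P : C.Cmp), l ≠ p →
    Module.Finite (ZMod l) (VV k C.Q l) ∧ ∀ (a : ℕ) (σ : C.Aut), 0 < a → IsFrob (p ^ a) σ.1 →
      {v : Place k C.Q | σ.1 • v = v}.Finite ∧
      (({v : Place k C.Q | σ.1 • v = v}.ncard : ℕ) : ZMod l) =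
        (1 + ((p ^ a : ℕ) : ZMod l)) * P.nfix σ -
          ((p ^ a : ℕ) : ZMod l) * LinearMap.trace (ZMod l) _ (actV l σ.1⁻¹)

/-- The trace on the locally constant roots of unity. -/
def StmtV0 : Prop := ∀ (k : Type) [Field k] [IsAlgClosed k] (l p d m : ℕ) [Fact l.Prime]
  [Fact p.Prime] [CharP k p] (f : k[X]) (C : Cv k d m f) (P : C.Cmp), l ≠ p →
    Finite (rootsOfUnity l C.Q) ∧ ∀ (a : ℕ) (σ : C.Aut), IsFrob (p ^ a) σ.1 →
      ((p ^ a : ℕ) : ZMod l) * LinearMap.trace (ZMod l) _ (act0 l σ⁻¹) = P.nfix σ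

/-- Traces along a four-term exact sequence. -/
def StmtTRX : Prop := ∀ (F A B M V : Type) [Field F] [AddCommGroup A] [Module F A]
  [AddCommGroup B] [Module F B] [AddCommGroup M] [Module F M] [AddCommGroup V] [Module F V]
  [Module.Finite F B] [Module.Finite F V] (i : A →ₗ[F] B) (κ : B →ₗ[F] M) (π : M →ₗ[F] V),
  Function.Injective i → Function.Exact i κ → Function.Exact κ π → Function.Surjective π →
    Module.Finite F M ∧ ∀ (TA : A →ₗ[F] A) (TB : B →ₗ[F] B) (TM : M →ₗ[F] M) (TV : V →ₗ[F] V),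
      i ∘ₗ TA = TB ∘ₗ i → κ ∘ₗ TB = TM ∘ₗ κ → π ∘ₗ TM = TV ∘ₗ π →
      LinearMap.trace F A TA + LinearMap.trace F M TM =
        LinearMap.trace F B TB + LinearMap.trace F V TV

/-- The exact sequence of the generalized Jacobian. -/
def StmtSEQ : Prop := ∀ (k : Type) [Field k] [IsAlgClosed k] (l p d m : ℕ) [Fact l.Prime]
  [Fact p.Prime] [CharP k p] (f : k[X]) (C : Cv k d m f), l ≠ p → C.QA → C.HA → C.PL → C.DE →
    Module.Finite (ZMod l) (VV k C.Q l) → Finite (rootsOfUnity l C.Q) →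
    Module.Finite (ZMod l) (C.MM l) ∧ ∀ (a : ℕ) (σ : C.Aut), IsFrob (p ^ a) σ.1 →
      ((p ^ a : ℕ) : ZMod l) * LinearMap.trace (ZMod l) _ (actM l σ⁻¹) +
        ((p ^ a : ℕ) : ZMod l) * LinearMap.trace (ZMod l) _ (act0 l σ⁻¹) +
          ((badQ f m (p ^ a)).ncard : ℕ) =
      ((p ^ a : ℕ) : ZMod l) * LinearMap.trace (ZMod l) _ (actV l σ.1⁻¹) +
        (({v : Place k C.Q | (C.Bad v ∨ 1 < v.val C.t) ∧ σ.1 • v = v}.ncard : ℕ) : ZMod l)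

/-- Unramified points correspond to places. -/
def StmtCNT : Prop := ∀ (k : Type) [Field k] [IsAlgClosed k] (d m q : ℕ) (f : k[X])
  (C : Cv k d m f) (σ : C.Aut), IsFrob q σ.1 → C.QA → C.HA → C.PL → C.LO →
    {v : Place k C.Q | σ.1 • v = v}.Finite →
    (ptsQ f m q).ncard + {v : Place k C.Q | (C.Bad v ∨ 1 < v.val C.t) ∧ σ.1 • v = v}.ncard =
      {v : Place k C.Q | σ.1 • v = v}.ncard + (badQ f m q).ncard

end Pool.Agent.MP_cce4c9_lc.H87
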