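import Pool.Agent.MP_cce4c9_lc.H87.DefsR2
import Pool.Agent.MP_cce4c9_lc.H87.KitPT
import Pool.Agent.MP_cce4c9_lc.H87.KitPt
import Pool.Agent.MP_cce4c9_lc.H87.KitTow

/-!
Statements about the algorithm.
-/

set_option autoImplicit false

open Polynomial Finset Pool.Agent.Shared.H56

namespace Pool.Agent.MP_cce4c9_lc.H87

open Cv

/-- The list `fl` holds the lower coefficients of `f`, along the map `P`. -/
def Inp {B : Ds} {R S : Type} [CommRing R] [CommRing S] (π : Pres B R) (P : R →+* S)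
    (fl : List El) (d : ℕ) (f : S[X]) : Prop :=
  fl.length = d ∧ (∀ a ∈ fl, a.length ≤ dim B) ∧ (toM π.val fl).map P = f

/-! ### Taylor matrices -/

/-- Naturality, and dependence on the coordinates. -/
def StmtNAT : Prop :=
  (∀ (R S : Type) [CommRing R] [CommRing S] (P : R →+* S) (F : R[X]) (d m l : ℕ) (b : ℕ → R),
    (∀ ρ e J, P (TT F d m l b ρ e J) = TT (F.map P) d m l (fun i => P (b i)) ρ e J) ∧
    (∀ T e J, P (crP F d m l b T e J) = crP (F.map P) d m l (fun i => P (b i)) T e J) ∧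
    ∀ c ρ, P (vanP F d m l b c ρ) =
      vanP (F.map P) d m l (fun i => P (b i)) (fun e J => P (c e J)) ρ) ∧
  ∀ (R : Type) [CommRing R] (F : R[X]) (d m l : ℕ) (b b' : ℕ → R) (μ μ' fx fx' : ℕ → ℕ)
    (c c' : ℕ → ℕ → R), 0 < m → 0 < d → (∀ i < nV d m, b i = b' i) →
    (∀ j < mm d m, μ j = μ' j ∧ fx j = fx' j) →
    (∀ J < d ^ m, ∀ e, e + ds d m J ≤ l * N0 d m → c e J = c' e J) →
      (Sol F d m l μ b c → Sol F d m l μ' b' c') ∧ (Fix F d m fx b → Fix F d m fx' b') ∧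
      (Uniq F d m l μ fx b → Uniq F d m l μ' fx' b') ∧ (Pt d m μ fx → Pt d m μ' fx')

/-- Semantics of the routines for Taylor matrices. -/
def StmtTAY : Prop := ∀ (B : Ds) (R S : Type) [CommRing R] [CommRing S] (π : Pres B R)
  (P : R →+* S) (fl : List El) (d m l : ℕ) (f : S[X]) (b : List El), Inp π P fl d f →
    0 < l * mm d m →
    (∀ ρ e J, ρ.2 < l * mm d m → P (π.val (TA B fl d m l b ρ e J)) =
      TT f d m l (fun i => P (π.val (b.getD i []))) ρ e J) ∧
    (∀ (T : List (ℕ × ℕ)) e J, (∀ ρ ∈ T, ρ.2 < l * mm d m) → P (π.val (crA B fl d m l b T e J)) =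
      crP f d m l (fun i => P (π.val (b.getD i []))) T e J) ∧
    ∀ c ρ, ρ.2 < l * mm d m → P (π.val (vanA B fl d m l b c ρ)) =
      vanP f d m l (fun i => P (π.val (b.getD i []))) (tb (fun a => P (π.val a)) c) ρ

/-- Degrees of the entries of the Taylor matrix. -/
def StmtDEGT : Prop := ∀ (F : Type) [CommRing F] (f : F[X]) (d m l v : ℕ) (ρ : ℕ × ℕ) (e J : ℕ),
  f.natDegree ≤ d → 0 < d → ρ.2 < l * mm d m →
    (TT (f.map (MvPolynomial.C : F →+* MvPolynomial (Fin v) F)) d m l (ex MvPolynomial.X)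
      ρ e J).totalDegree ≤ dE d m l

/-- A non-vanishing minor exists at a rigid solution. -/
def StmtMINOR : Prop := ∀ (k : Type) [Field k] (f : k[X]) (d m l : ℕ) (μ fx : List ℕ)
  (b : ℕ → k), 0 < l → 0 < m → 2 ≤ d → Pt d m (μ.getD · 0) (fx.getD · 0) →
    Uniq f d m l (μ.getD · 0) (fx.getD · 0) b →
    ∃ del ∈ tuples ((mm d m, 0) :: rowsL d m l μ) (g0 d m),
      crP f d m l b (selR d m l (μ, fx, del)) 0 0 ≠ 0 ∧
      (∀ b', crP f d m l b' (selR d m l (μ, fx, del)) 0 0 ≠ 0 →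
        Uniq f d m l (μ.getD · 0) (fx.getD · 0) b') ∧
      ∀ c : ℕ → ℕ → k, c 0 0 = 1 →
        (∀ j < mm d m, ∀ r < l * μ.getD j 0, vanP f d m l b c (j, r) = 0) →
        ∀ J < d ^ m, ∀ e, e + ds d m J ≤ l * N0 d m →
          crP f d m l b (selR d m l (μ, fx, del)) e J =
            crP f d m l b (selR d m l (μ, fx, del)) 0 0 * c e J

/-- Semantics of the first system. -/
def StmtSYS1 : Prop := ∀ (F k : Type) [Field F] [Field k] (D : Ds) (π : Pres D F) (ι : F →+* k)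
  (fl : List El) (d m l : ℕ) (f : k[X]) (pat : Pat) (a : Fin (nV d m) → k), Inp π ι fl d f →
    0 < l → 0 < m → 2 ≤ d →
    ((∀ i < (sys1 D fl d m l pat).length, MvPolynomial.eval a
        (toMv (fun x => ι (π.val x)) (dM d m l) (nV d m) ((sys1 D fl d m l pat).getD i [])) = 0) ↔
      Bas f d m (ex a) ∧ Fix f d m (pat.2.1.getD · 0) (ex a) ∧ ∀ ρ ∈ rowsL d m l pat.1,
        vanP f d m l (ex a) (crP f d m l (ex a) (selR d m l pat)) ρ = 0)

/-- Semantics of the data attached to a point. -/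
def StmtDAT1 : Prop := ∀ (F k : Type) [Field F] [Field k] (D : Ds) (π : Pres D F) (ι : F →+* k)
  (fl : List El) (d m l : ℕ) (f : k[X]) (pat : Pat) (B : Ds) (φ : El → k) (b : List El),
    Inp π ι fl d f → 0 < l → 0 < m → 2 ≤ d → IsPt π ι B φ →
    (∀ j < mm d m, pat.1.getD j 0 ≤ mm d m) →
    (φ (dat1 fl d m l B pat b).1 ≠ 0 ↔ Sol f d m l (pat.1.getD · 0) (fun i => φ (b.getD i []))
      (tb φ (dat1 fl d m l B pat b).2)) ∧
    (crP f d m l (fun i => φ (b.getD i [])) (selR d m l pat) 0 0 ≠ 0 →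
      ∀ J < d ^ m, ∀ e ≤ l * N0 d m, tb φ (dat1 fl d m l B pat b).2 e J =
        crP f d m l (fun i => φ (b.getD i [])) (selR d m l pat) e J /
          crP f d m l (fun i => φ (b.getD i [])) (selR d m l pat) 0 0)

/-! ### The engine -/

/-- Isolated points survive generic combination and perturbation of the equations. -/
def StmtENGA : Prop := ∀ (k : Type) [Field k] [IsAlgClosed k] (v s δ : ℕ)
  (fs : ℕ → MvPolynomial (Fin v) k) (a : Fin v → k) (i : Fin v)
  (Δ : MvPolynomial (Fin (v + 2)) k), Iso s fs a → Δ ≠ 0 →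
    (∀ (L : Type) [Field L] [Algebra k L] (ξ : Fin v → L) (η : L) (u : Fin v → L),
      (∀ j, ξ j ^ (δ + 1) + η * ∑ l ∈ range s, u j ^ l * MvPolynomial.aeval ξ (fs l) = 0) →
      MvPolynomial.aeval (Matrix.vecCons (ξ i) (Matrix.vecCons η u)) Δ = 0) →
    ∃ β : Fin (v + 1) →₀ ℕ, (∃ e, Δ.coeff (Finsupp.cons e β) ≠ 0) ∧
      ∀ n, Δ.totalDegree < n → ∑ e ∈ range n, Δ.coeff (Finsupp.cons e β) * a i ^ e = 0

/-- The determinant of the engine. -/
noncomputable def engDet {R : Type} [CommRing R] (v n i s : ℕ) (co : ℕ → ℕ → R) :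
    MvPolynomial (Fin (v + 2)) R :=
  (Matrix.of fun γ γ' : Fin (rho v n ^ v) =>
    engP v n i s (fun l J => MvPolynomial.C (co l J)) (ex MvPolynomial.X) γ γ').det

/-- It is not zero, has small degree, and vanishes on the perturbed system. -/
def StmtENGB : Prop := ∀ (k : Type) [Field k] (v n s : ℕ) (i : Fin v) (co : ℕ → ℕ → k), 0 < n →
  engDet v n i s co ≠ 0 ∧ (engDet v n i s co).totalDegree < dlE v n s ∧
  ∀ (L : Type) [Field L] [Algebra k L] (ξ : Fin v → L) (η : L) (u : Fin v → L),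
    (∀ j, ξ j ^ (dlt v n + 1) + η * ∑ l ∈ range s, u j ^ l * MvPolynomial.aeval ξ
      (∑ J ∈ range (n ^ v), MvPolynomial.monomial (exps n v J) (co l J)) = 0) →
    MvPolynomial.aeval (Matrix.vecCons (ξ i) (Matrix.vecCons η u)) (engDet v n i s co) = 0

/-- Normalization of polynomials over a field. -/
def StmtMON : Prop := ∀ (F : Type) [Field F] (D : Ds) (π : Pres D F) (P : List El),
  (∀ a ∈ mon D P, a.length = dim D) ∧ (mon D P).length = (toP π.val P).natDegree ∧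
  (mon D P).length ≤ P.length - 1 ∧
  (toP π.val P ≠ 0 → toM π.val (mon D P) = C (toP π.val P).leadingCoeff⁻¹ * toP π.val P)

/-- The coordinates of isolated solutions are roots of the output of `solve`. -/
def StmtSOLVE : Prop := ∀ (F k : Type) [Field F] [Field k] [IsAlgClosed k] (D : Ds)
  (π : Pres D F) (ι : F →+* k) (v n : ℕ) (syss : List (List (List El))), 0 < n →
    solve D v n syss ≠ [] ∧ ∀ eqs ∈ syss, ∀ a : Fin v → k,
      Iso eqs.length (fun l => toMv (fun x => ι (π.val x)) n v (eqs.getD l [])) a →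
      ∀ i, (toM (fun x => ι (π.val x)) (solve D v n syss)).eval (a i) = 0

/-! ### The chart at infinity -/

/-- Semantics of `hatT` at a point. -/
structure HS {k : Type} [Field k] {d m : ℕ} {f : k[X]} (C : Cv k d m f) (B : Ds) (fl : List El)
    (n : ℕ) (φ : El → k) where
  /-- the ring presented by `hatT` -/
  RH : Type
  [crH : CommRing RH]
  /-- its presentation -/
  πH : Pres (hatT B fl d m n).1 RH
  /-- the ring `AI / s ^ n` -/
  S : Type
  [crS : CommRing S]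
  /-- the projection -/
  pr : C.AI →+* S
  ker : ∀ y : C.AI, pr y = 0 ↔ ∃ r ∈ C.AI, (y : C.Q) = C.s ^ n * r
  /-- the point -/
  Ψ : RH →+* S
  ch : (hatT B fl d m n).1.1 = B.1
  dm : dim B ≤ dim (hatT B fl d m n).1
  lens : (rt1 B n).length ≤ dim (hatT B fl d m n).1
  lenY : ∀ i, ((hatT B fl d m n).2.getD i []).length ≤ dim (hatT B fl d m n).1
  cst : ∀ a : El, a.length ≤ dim B → Ψ (πH.val a) = pr (algebraMap k C.AI (φ a))
  hs : ∀ y : C.AI, (y : C.Q) = C.s → Ψ (πH.val (rt1 B n)) = pr y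
  hY : ∀ i < m, ∀ y : C.AI, (y : C.Q) = C.Y i →
    Ψ (πH.val ((hatT B fl d m n).2.getD i [])) = pr y
  coef : ∀ a : El, ∃ y : C.AI, (y : C.Q) = C.rec' n (fun e J => φ (coefH B n a e J)) ∧
    Ψ (πH.val a) = pr y
  hat : ∀ (A : Ds) (ψ : El → S) (N : ℕ) (c : Tab) (c' : ℕ → ℕ → k) (y : C.AI), Hm A ψ →
    (∀ a : El, a.length ≤ dim (hatT B fl d m n).1 → ψ a = Ψ (πH.val a)) →
    (∀ e J, ψ (ent c e J) = pr (algebraMap k C.AI (c' e J))) → (y : C.Q) = C.hat N c' →
    ψ (mkHat A (rt1 B n) (hatT B fl d m n).2 d m N c) = pr y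
  del : ∀ (A : Ds) (ψ : El → S) (y : C.AI), Hm A ψ →
    (∀ a : El, a.length ≤ dim (hatT B fl d m n).1 → ψ a = Ψ (πH.val a)) → (y : C.Q) = C.dlh →
    ψ (delH A (rt1 B n) (hatT B fl d m n).2 fl d m) = pr y

attribute [instance] HS.crH HS.crS

def StmtHALG : Prop := ∀ (k : Type) [Field k] (d m : ℕ) (f : k[X]) (C : Cv k d m f) (B : Ds)
  (R : Type) [CommRing R] (π : Pres B R) (P : R →+* k) (fl : List El) (n : ℕ),
    C.HA → Inp π P fl d f → 0 < n → Nonempty (HS C B fl n fun a => P (π.val a))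

open Classical in
/-- Semantics of a test. -/
def Tst {D : Ds} {F k : Type} [CommRing F] [Field k] (π : Pres D F) (ι : F →+* k) (l : ℕ)
    (tst : Ds → List Tab → List ℕ → El) {M : Type} [AddCommGroup M]
    (Rp : (ℕ → ℕ → k) → M → Prop) : Prop :=
  ∀ (B : Ds) (φ : El → k) (cl : List Tab) (al : List ℕ) (x : ℕ → M), IsPt π ι B φ →
    al.length = cl.length → (∀ a ∈ al, a ≤ l) →
    (∀ i < cl.length, Rp (tb φ (cl.getD i [])) (x i)) →
    φ (tst B cl al) = if ∑ i ∈ range cl.length, al.getD i 0 • x i = 0 then 1 else 0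

def StmtTST1 : Prop := ∀ (F k : Type) [Field F] [Field k] (D : Ds) (π : Pres D F) (ι : F →+* k)
  (fl : List El) (d m l : ℕ) (f : k[X]) (C : Cv k d m f), Inp π ι fl d f →
    C.HA → C.TQ l D.1 → Tst π ι l (tst1 fl d m l) (C.Rp l)

open Classical in
def StmtTST0 : Prop := ∀ (F k : Type) [Field F] [Field k] (D : Ds) (π : Pres D F) (ι : F →+* k)
  (fl : List El) (d m l : ℕ) (f : k[X]) (C : Cv k d m f) (B : Ds) (φ : El → k) (cl : List Tab)
  (al : List ℕ), Inp π ι fl d f → C.HA → IsPt π ι B φ → al.length = cl.length →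
    (∀ a ∈ al, a ≤ l) → φ (tst0 fl d m l B cl al) =
      if ∏ i ∈ range cl.length, C.hat (2 * w0 d m) (tb φ (cl.getD i [])) ^ al.getD i 0 =
        C.dlh ^ ∑ i ∈ range cl.length, al.getD i 0 then 1 else 0

/-- Semantics of the second system. -/
def StmtSYS0 : Prop := ∀ (F k : Type) [Field F] [Field k] (D : Ds) (π : Pres D F) (ι : F →+* k)
  (fl : List El) (d m l : ℕ) (f : k[X]) (C : Cv k d m f) (a : Fin (nV0 d m) → k),
    Inp π ι fl d f → C.HA →
    ((∀ i < (sys0 D fl d m l).length, MvPolynomial.eval a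
        (toMv (fun x => ι (π.val x)) (l + 1) (nV0 d m) ((sys0 D fl d m l).getD i [])) = 0) ↔
      C.hat (2 * w0 d m) (fun e J => if e ≤ w0 d m then ex a (J + d ^ m * e) else 0) ^ l =
        C.dlh ^ l)

/-! ### The search -/

/-- What the search needs to know. -/
structure Sk {D : Ds} {F k : Type} [CommRing F] [Field k] (π : Pres D F) (ι : F →+* k) (l V : ℕ)
    (u : List El) (pats : List Pat) (dat : Ds → Pat → List El → El × Tab)
    (tst : Ds → List Tab → List ℕ → El) {M : Type} [AddCommGroup M]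
    (Rp : (ℕ → ℕ → k) → M → Prop) (S : M → M) : Prop where
  ne : u ≠ []
  fn : ∀ c x x', Rp c x → Rp c x' → x = x'
  snd : ∀ B φ b, ∀ pat ∈ pats, IsPt π ι B φ → φ (dat B pat b).1 ≠ 0 →
    ∃ x, Rp (tb φ (dat B pat b).2) x
  cpl : ∀ x, ∃ pat ∈ pats, ∃ a : Fin V → k,
    (∀ i, (toM (fun y => ι (π.val y)) u).eval (a i) = 0) ∧
    ∀ B φ b, IsPt π ι B φ → (∀ i, φ (b.getD i []) = ex a i) →
      φ (dat B pat b).1 ≠ 0 ∧ Rp (tb φ (dat B pat b).2) x
  fr : ∀ c x, Rp c x → Rp (fun e J => c e J ^ D.1 ^ dim D) (S x)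
  tst : Tst π ι l tst Rp

def StmtSKEL : Prop := ∀ (F k : Type) [Field F] [Field k] [IsAlgClosed k] (D : Ds) (π : Pres D F)
  (ι : F →+* k) (l V R : ℕ) [Fact l.Prime] (u : List El) (pats : List Pat)
  (dat : Ds → Pat → List El → El × Tab) (tst : Ds → List Tab → List ℕ → El) (M : Type)
  [AddCommGroup M] [Module (ZMod l) M] (Rp : (ℕ → ℕ → k) → M → Prop) (S T : M →ₗ[ZMod l] M),
    Sk π ι l V u pats dat tst Rp S → (∀ x, T (S x) = x) → pats.length * u.length ^ V ≤ l ^ R →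
    ((search D u V l pats dat tst R : ℕ) : ZMod l) = LinearMap.trace (ZMod l) M T

def StmtSK1 : Prop := ∀ (F k : Type) [Field F] [Field k] [IsAlgClosed k] (D : Ds) (π : Pres D F)
  (ι : F →+* k) (fl : List El) (d m l : ℕ) [Fact l.Prime] (f : k[X]) (C : Cv k d m f)
  (σ : C.Aut), Inp π ι fl d f → IsFrob (D.1 ^ dim D) σ.1 → C.STA l → C.STE l → C.PA l →
    C.SO l → C.IS l → C.RL l → Tst π ι l (tst1 fl d m l) (C.Rp l) →
    Sk π ι l (nV d m) (u1 D fl d m l) (pats d m l) (dat1 fl d m l) (tst1 fl d m l) (C.Rp l)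
      (actM l σ)

def StmtSK0 : Prop := ∀ (F k : Type) [Field F] [Field k] [IsAlgClosed k] (D : Ds) (π : Pres D F)
  (ι : F →+* k) (fl : List El) (d m l : ℕ) [Fact l.Prime] (f : k[X]) (C : Cv k d m f)
  (σ : C.Aut), Inp π ι fl d f → IsFrob (D.1 ^ dim D) σ.1 → C.HA → C.RL l →
    Sk π ι l (nV0 d m) (u0 D fl d m l) [([], [], [])] (dat0 fl d m l) (tst0 fl d m l) (C.Rp0 l)
      (act0 l σ)

/-- The number of candidates is polynomial in `l`. -/
def StmtLEN : Prop := ∀ d m : ℕ, ∃ R : ℕ, ∀ (l : ℕ) (D : Ds) (fl : List El), 2 ≤ l →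
  (pats d m l).length * (u1 D fl d m l).length ^ nV d m ≤ l ^ R ∧
  (u0 D fl d m l).length ^ nV0 d m ≤ l ^ R

/-! ### Polynomial time -/

def StmtPT1 : Prop := ∀ d m : ℕ,
  (PT fun x : List Bool × Ds × List El × Pat => sys1 x.2.1 x.2.2.1 d m x.1.length x.2.2.2) ∧
  (PT fun x : List Bool × List El × Ds × Pat × List El =>
    dat1 x.2.1 d m x.1.length x.2.2.1 x.2.2.2.1 x.2.2.2.2) ∧
  (PT fun x : List Bool => pats d m x.length) ∧ PT fun x : List Bool => un (dM d m x.length)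

def StmtPT2 : Prop := (PT fun x : Ds × List El => mon x.1 x.2) ∧ ∀ v : ℕ,
  PT fun x : List Bool × Ds × List (List (List El)) => solve x.2.1 v x.1.length x.2.2

def StmtPT3 : Prop := ∀ d m : ℕ,
  (PT fun x : List Bool × List El × Ds × List Tab × List ℕ =>
    tst1 x.2.1 d m x.1.length x.2.2.1 x.2.2.2.1 x.2.2.2.2) ∧
  (PT fun x : List Bool × List El × Ds × List Tab × List ℕ =>
    tst0 x.2.1 d m x.1.length x.2.2.1 x.2.2.2.1 x.2.2.2.2) ∧
  (PT fun x : List Bool × List El × Ds × Pat × List El =>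
    dat0 x.2.1 d m x.1.length x.2.2.1 x.2.2.2.1 x.2.2.2.2) ∧
  PT fun x : List Bool × Ds × List El => sys0 x.2.1 x.2.2 d m x.1.length

def StmtPT4 : Prop := ∀ (α : Type) [N487b59b3 α] (D : α → Ds) (u : α → List El) (l : α → ℕ)
  (pats : α → List Pat) (dat : α → Ds → Pat → List El → El × Tab)
  (tst : α → Ds → List Tab → List ℕ → El) (V R : ℕ), PT D → PT u → (PT fun a => un (l a)) →
    PT pats → (PT fun p : α × Ds × Pat × List El => dat p.1 p.2.1 p.2.2.1 p.2.2.2) →
    (PT fun p : α × Ds × List Tab × List ℕ => tst p.1 p.2.1 p.2.2.1 p.2.2.2) →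
    PT fun a => search (D a) (u a) V (l a) (pats a) (dat a) (tst a) R

def StmtPTC : Prop := ∀ d m R : ℕ,
  PT fun x : List Bool × Ds × List El => core d m R x.1.length x.2.1 x.2.2

/-! ### The top level -/

/-- The number of points of the fibre power, modulo `l`. -/
def StmtCORE : Prop := ∀ d m : ℕ, 2 ≤ d → 0 < m → ∃ A : List Bool × Ds × List El → ℕ, PT A ∧
  ∀ (F : Type) [Field F] (D : Ds) (π : Pres D F) (fl : List El) (l : ℕ), fl.length = d →
    (∀ a ∈ fl, a.length ≤ dim D) → derivative (toM π.val fl) ≠ 0 → l.Prime → l ≠ D.1 →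
    ((A (un l, D, fl) : ℕ) : ZMod l) = ({a : Fin m → F |
      ∀ i j, (toM π.val fl).eval (a i) = (toM π.val fl).eval (a j)}.ncard : ℕ)

/-- The value set of a monic separable polynomial. -/
def StmtVAL1 : Prop := ∀ d : ℕ, 2 ≤ d → ∃ A : Ds × List El → ℕ, PT A ∧
  ∀ (F : Type) [Field F] (D : Ds) (π : Pres D F) (fl : List El), fl.length = d →
    (∀ a ∈ fl, a.length ≤ dim D) → derivative (toM π.val fl) ≠ 0 →
    A (D, fl) = (Set.range fun a : F => (toM π.val fl).eval a).ncard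

/-- The value set of any polynomial of bounded degree. -/
def StmtVAL : Prop := ∀ d : ℕ, ∃ A : Ds × List El → ℕ, PT A ∧
  ∀ (F : Type) [Field F] (D : Ds) (π : Pres D F) (cs : List El), cs.length ≤ d + 1 →
    A (D, cs) = (Set.range fun a : F => (toP π.val cs).eval a).ncard

/-- The polynomial over the prime field with a given list of coefficients. -/
noncomputable def polyOf (p : ℕ) (l : List ℕ) : (ZMod p)[X] :=
  ∑ i ∈ range l.length, C (l.getD i 0 : ZMod p) * X ^ i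

def StmtMAIN : Prop := ∀ d : ℕ, ∃ A : ℕ × List ℕ × List (List ℕ) → ℕ, PT A ∧
  ∀ (p : ℕ) (g : List ℕ) (cs : List (List ℕ)), p.Prime →
    Irreducible (X ^ g.length + polyOf p g) → cs.length ≤ d + 1 →
    A (p, g, cs) = (Set.range fun a : AdjoinRoot (X ^ g.length + polyOf p g) =>
      ∑ i ∈ range cs.length, AdjoinRoot.mk _ (polyOf p (cs.getD i [])) * a ^ i).ncard

end Pool.Agent.MP_cce4c9_lc.H87
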